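import Mathlib

open Set Topology Filter unitInterval

namespace Pool.Agent.Helper789.HU

variable {M : Type*} [MetricSpace M]

/-- After at most `n` moves with labels `≤ L` and one full move with label `≤ L`, the distance to `a`
is larger than `δ`. -/
def Good (h : ℕ → M × I → M) (a : M) (L : ℕ) (δ : ℝ) : ℕ → M → Prop
  | 0, x => ∀ m ≤ L, δ < dist (h m (x, 1)) a
  | n + 1, x => ∀ m ≤ L, ∀ s : I, Good h a L δ n (h m (x, s))

variable {h : ℕ → M × I → M} {a : M}

lemma Good.mono {L L' : ℕ} {δ δ' : ℝ} (hL : L' ≤ L) (hδ : δ' ≤ δ) {n : ℕ} {x : M} (H : Good h a L δ n x) :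
    Good h a L' δ' n x := by
  induction n generalizing x with
  | zero => exact fun m hm => hδ.trans_lt (H m (hm.trans hL))
  | succ n ih => exact fun m hm s => ih (H m (hm.trans hL) s)

lemma Good.of_succ (h0 : ∀ m x, h m (x, 0) = x) {L : ℕ} {δ : ℝ} {n : ℕ} {x : M} (H : Good h a L δ (n + 1) x) :
    Good h a L δ n x := by
  have := H 0 (Nat.zero_le _) 0
  rwa [h0] at this

lemma Good.of_le (h0 : ∀ m x, h m (x, 0) = x) {L : ℕ} {δ : ℝ} {n k : ℕ} (hk : k ≤ n) {x : M} (H : Good h a L δ n x) :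
    Good h a L δ k x := by
  induction n with
  | zero => obtain rfl : k = 0 := by omega
            exact H
  | succ n ih =>
    rcases Nat.lt_or_ge n k with h1 | h1
    · obtain rfl : k = n + 1 := by omega
      exact H
    · exact ih h1 (H.of_succ h0)

lemma exists_uniform_le {X : Type*} {l : Filter X} {P : ℕ → ℝ → X → Prop}
    (hmono : ∀ m δ δ' x, δ' ≤ δ → P m δ x → P m δ' x) (hex : ∀ m, ∃ δ > 0, ∀ᶠ x in l, P m δ x) (L : ℕ) :
    ∃ δ > 0, ∀ᶠ x in l, ∀ m ≤ L, P m δ x := by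
  induction L with
  | zero =>
    obtain ⟨δ, hδ, h⟩ := hex 0
    refine ⟨δ, hδ, h.mono fun x hx m hm => ?_⟩
    obtain rfl : m = 0 := by omega
    exact hx
  | succ L ih =>
    obtain ⟨δ, hδ, h⟩ := hex (L + 1)
    obtain ⟨δ', hδ', h'⟩ := ih
    refine ⟨min δ δ', lt_min hδ hδ', ?_⟩
    filter_upwards [h, h'] with x hx hx' m hm
    rcases Nat.lt_or_ge m (L + 1) with h1 | h1
    · exact hmono _ _ _ _ (min_le_right _ _) (hx' m (by omega))
    · obtain rfl : m = L + 1 := by omega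
      exact hmono _ _ _ _ (min_le_left _ _) hx

lemma exists_good (hc : ∀ m, Continuous (h m)) (h1 : ∀ m x, h m (x, 1) ≠ a) (L n : ℕ) (x : M) :
    ∃ δ > 0, ∀ᶠ x' in 𝓝 x, Good h a L δ n x' := by
  induction n generalizing x with
  | zero =>
    refine exists_uniform_le (P := fun m δ x' => δ < dist (h m (x', 1)) a) (fun m δ δ' x hd hx => hd.trans_lt hx) ?_ L
    intro m
    have hpos : 0 < dist (h m (x, 1)) a := dist_pos.2 (h1 m x)
    refine ⟨dist (h m (x, 1)) a / 2, by positivity, ?_⟩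
    have hcont : ContinuousAt (fun x' => dist (h m (x', 1)) a) x := by
      have := hc m
      fun_prop
    exact hcont.eventually_const_lt (by linarith)
  | succ n ih =>
    refine exists_uniform_le (P := fun m δ x' => ∀ s : I, Good h a L δ n (h m (x', s)))
      (fun m δ δ' x hd hx s => (hx s).mono le_rfl hd) ?_ L
    intro m
    have key : ∀ K : Set I, IsCompact K → ∃ δ > 0, ∀ᶠ x' in 𝓝 x, ∀ s ∈ K, Good h a L δ n (h m (x', s)) := by
      intro K hK
      refine hK.induction_on (p := fun K => ∃ δ > 0, ∀ᶠ x' in 𝓝 x, ∀ s ∈ K, Good h a L δ n (h m (x', s))) ?_ ?_ ?_ ?_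
      · exact ⟨1, one_pos, by simp⟩
      · rintro s t hst ⟨δ, hδ, h⟩
        exact ⟨δ, hδ, h.mono fun x hx u hu => hx u (hst hu)⟩
      · rintro s t ⟨δ, hδ, h⟩ ⟨δ', hδ', h'⟩
        refine ⟨min δ δ', lt_min hδ hδ', ?_⟩
        filter_upwards [h, h'] with x hx hx' u hu
        rcases hu with hu | hu
        · exact (hx u hu).mono le_rfl (min_le_left _ _)
        · exact (hx' u hu).mono le_rfl (min_le_right _ _)
      · intro s hs
        obtain ⟨δ, hδ, hev⟩ := ih (h m (x, s))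
        have h2 : ∀ᶠ p : M × I in 𝓝 (x, s), Good h a L δ n (h m p) := (hc m).continuousAt.eventually hev
        rw [nhds_prod_eq] at h2
        obtain ⟨U, hU, V, hV, hUV⟩ := Filter.mem_prod_iff.1 h2
        refine ⟨V, mem_nhdsWithin_of_mem_nhds hV, δ, hδ, ?_⟩
        filter_upwards [hU] with x' hx' t ht
        exact hUV (mk_mem_prod hx' ht)
    obtain ⟨δ, hδ, h⟩ := key univ isCompact_univ
    exact ⟨δ, hδ, h.mono fun x hx s => hx s (mem_univ _)⟩

section next

variable {P : Type*} [TopologicalSpace P] [NormalSpace P] [ParacompactSpace P]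

lemma exists_next (hc : ∀ m, Continuous (h m)) (h1 : ∀ m x, h m (x, 1) ≠ a) (π : C(P, M)) (c : C(P, ℝ)) (n : ℕ) :
    ∃ c' : C(P, ℝ), (∀ p, c p + 2 ≤ c' p) ∧ ∀ p, ∀ L : ℕ, (L : ℝ) ≤ c p + 2 → Good h a L (2 * Real.exp (-(c' p))) n (π p) := by
  let t : P → Set ℝ := fun p => {C | c p + 2 ≤ C ∧ ∀ L : ℕ, (L : ℝ) ≤ c p + 2 → Good h a L (2 * Real.exp (-C)) n (π p)}
  have hup : ∀ p, ∀ C ∈ t p, ∀ C', C ≤ C' → C' ∈ t p := by
    rintro p C ⟨h2, h3⟩ C' hC
    refine ⟨h2.trans hC, fun L hL => (h3 L hL).mono le_rfl ?_⟩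
    gcongr
  have hconv : ∀ p, Convex ℝ (t p) := by
    intro p
    rw [convex_iff_ordConnected, ordConnected_iff]
    intro x hx y _ _ z hz
    exact hup p x hx z hz.1
  have hloc : ∀ p, ∃ C : ℝ, ∀ᶠ q in 𝓝 p, C ∈ t q := by
    intro p
    obtain ⟨δ, hδ, hev⟩ := exists_good (a := a) hc h1 ⌈c p + 3⌉₊ n (π p)
    refine ⟨max (c p + 3) (-Real.log (δ / 2)), ?_⟩
    have h4 : ∀ᶠ q in 𝓝 p, c q < c p + 1 := c.continuous.continuousAt.eventually_lt_const (by linarith)
    filter_upwards [h4, π.continuous.continuousAt.eventually hev] with q hq hq'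
    refine ⟨?_, fun L hL => hq'.mono ?_ ?_⟩
    · exact le_trans (by linarith) (le_max_left _ _)
    · have : (L : ℝ) ≤ (⌈c p + 3⌉₊ : ℝ) := by
        calc (L : ℝ) ≤ c q + 2 := hL
          _ ≤ c p + 3 := by linarith
          _ ≤ _ := Nat.le_ceil _
      exact_mod_cast this
    · have h5 : Real.exp (-(max (c p + 3) (-Real.log (δ / 2)))) ≤ δ / 2 := by
        rw [← Real.exp_log (show 0 < δ / 2 by positivity)]
        apply Real.exp_le_exp.2
        rw [Real.log_exp]
        linarith [le_max_right (c p + 3) (-Real.log (δ / 2))]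
      linarith
  obtain ⟨g, hg⟩ := exists_continuous_forall_mem_convex_of_local_const hconv hloc
  exact ⟨g, fun p => (hg p).1, fun p => (hg p).2⟩

lemma exists_seq (hc : ∀ m, Continuous (h m)) (h1 : ∀ m x, h m (x, 1) ≠ a) (π : C(P, M)) (c0 : C(P, ℝ)) :
    ∃ c : ℕ → C(P, ℝ), c 0 = c0 ∧ ∀ n, (∀ p, c n p + 2 ≤ c (n + 1) p) ∧
      ∀ p, ∀ L : ℕ, (L : ℝ) ≤ c n p + 2 → Good h a L (2 * Real.exp (-(c (n + 1) p))) n (π p) := by
  choose nx hnx using fun (c : C(P, ℝ)) (n : ℕ) => exists_next (a := a) hc h1 π c n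
  refine ⟨fun n => Nat.rec c0 (fun n c => nx c n) n, rfl, fun n => hnx _ n⟩

end next

end Pool.Agent.Helper789.HU
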