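import Mathlib
import Pool.Agent.Helper789.HU1

open Set Topology Filter unitInterval

namespace Pool.Agent.Helper789.HU

variable {M : Type*} [MetricSpace M] {P : Type*} [TopologicalSpace P] {s : Set P}

/-- weights as elements of the unit interval -/
def wt (f : BumpCovering ℕ P s) (n : ℕ) (p : P) : I := ⟨f n p, f.nonneg n p, f.le_one n p⟩

lemma continuous_wt (f : BumpCovering ℕ P s) (n : ℕ) : Continuous (wt f n) :=
  Continuous.subtype_mk (f n).continuous _

/-- the ordered composition of the first `n` moves -/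
def run (h : ℕ → M × I → M) (f : BumpCovering ℕ P s) (μ : ℕ → P → ℕ) (π : P → M) (p : P) : ℕ → M
  | 0 => π p
  | n + 1 => h (μ n p) (run h f μ π p n, wt f n p)

variable {h : ℕ → M × I → M} {f : BumpCovering ℕ P s} {μ : ℕ → P → ℕ} {π : P → M}

omit [MetricSpace M] in
lemma run_succ_of_eq_zero (h0 : ∀ m x, h m (x, 0) = x) {p : P} {n : ℕ} (hn : f n p = 0) :
    run h f μ π p (n + 1) = run h f μ π p n := by
  have : wt f n p = 0 := Subtype.ext hn
  rw [run, this, h0]

lemma run_eq_of_le (h0 : ∀ m x, h m (x, 0) = x) {p : P} {N : ℕ} (hN : ∀ n ≥ N, f n p = 0) {k : ℕ} (hk : N ≤ k) :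
    run h f μ π p k = run h f μ π p N := by
  induction k with
  | zero => obtain rfl : N = 0 := by omega
            rfl
  | succ k ih =>
    rcases Nat.lt_or_ge k N with h1 | h1
    · obtain rfl : N = k + 1 := by omega
      rfl
    · rw [run_succ_of_eq_zero h0 (hN k h1), ih h1]

lemma continuous_run (hc : ∀ m, Continuous (h m)) (h0 : ∀ m x, h m (x, 0) = x) (hπ : Continuous π) {W : ℕ → Set P}
    (hW : f.IsSubordinate W) (hμ : ∀ n, ∀ p ∈ W n, ∀ᶠ q in 𝓝 p, μ n q = μ n p) (n : ℕ) :
    Continuous fun p => run h f μ π p n := by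
  induction n with
  | zero => exact hπ
  | succ n ih =>
    rw [continuous_iff_continuousAt]
    intro p
    by_cases hp : p ∈ tsupport (f n)
    · have h1 : ContinuousAt (fun q => h (μ n p) (run h f μ π q n, wt f n q)) p :=
        ((hc _).comp (ih.prodMk (continuous_wt f n))).continuousAt
      refine h1.congr ?_
      filter_upwards [hμ n p (hW n hp)] with q hq
      rw [run, hq]
    · have h1 : ∀ᶠ q in 𝓝 p, f n q = 0 := by
        rw [notMem_tsupport_iff_eventuallyEq] at hp
        exact hp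
      refine ih.continuousAt.congr ?_
      filter_upwards [h1] with q hq
      rw [run_succ_of_eq_zero h0 hq]

/-- locally only finitely many weights are nonzero -/
lemma exists_stop (f : BumpCovering ℕ P s) (p : P) : ∃ N, ∀ᶠ q in 𝓝 p, ∀ n ≥ N, f n q = 0 := by
  obtain ⟨t, ht, hfin⟩ := f.locallyFinite p
  obtain ⟨N, hN⟩ := hfin.bddAbove
  refine ⟨N + 1, ?_⟩
  filter_upwards [ht] with q hq n hn
  by_contra hne
  have : n ∈ {i | (Function.support (f i) ∩ t).Nonempty} := ⟨q, hne, hq⟩
  have := hN this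
  omega

/-- the limit of the ordered compositions -/
noncomputable def lim (h : ℕ → M × I → M) (f : BumpCovering ℕ P s) (μ : ℕ → P → ℕ) (π : P → M) (p : P) : M :=
  run h f μ π p (Classical.choose (exists_stop f p))

lemma lim_eq (h0 : ∀ m x, h m (x, 0) = x) {p : P} {N : ℕ} (hN : ∀ n ≥ N, f n p = 0) :
    lim h f μ π p = run h f μ π p N := by
  have h1 := (Classical.choose_spec (exists_stop f p)).self_of_nhds
  rw [lim, ← run_eq_of_le (μ := μ) (π := π) h0 h1 (le_max_left _ N), ← run_eq_of_le (μ := μ) (π := π) h0 hN (le_max_right (Classical.choose (exists_stop f p)) N)]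

lemma continuous_lim (hc : ∀ m, Continuous (h m)) (h0 : ∀ m x, h m (x, 0) = x) (hπ : Continuous π) {W : ℕ → Set P}
    (hW : f.IsSubordinate W) (hμ : ∀ n, ∀ p ∈ W n, ∀ᶠ q in 𝓝 p, μ n q = μ n p) :
    Continuous (lim h f μ π) := by
  rw [continuous_iff_continuousAt]
  intro p
  obtain ⟨N, hN⟩ := exists_stop f p
  refine (continuous_run hc h0 hπ hW hμ N).continuousAt.congr ?_
  filter_upwards [hN] with q hq
  rw [lim_eq h0 hq]

lemma exists_lim_eq (h0 : ∀ m x, h m (x, 0) = x) (p : P) (k : ℕ) : ∃ N ≥ k, lim h f μ π p = run h f μ π p N := by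
  obtain ⟨N, hN⟩ := exists_stop f p
  have h1 := hN.self_of_nhds
  refine ⟨max N k, le_max_right _ _, ?_⟩
  rw [lim_eq h0 h1, run_eq_of_le h0 h1 (le_max_left _ _)]

section dist

variable {c : ℕ → C(P, ℝ)} {W : ℕ → Set P}

lemma dist_step (h0 : ∀ m x, h m (x, 0) = x) (hε : ∀ m x t, dist x (h m (x, t)) < Real.exp (-m)) 
    (hW : f.IsSubordinate W) (hlow : ∀ n, ∀ p ∈ W n, c n p < μ n p) (p : P) (n : ℕ) :
    dist (run h f μ π p (n + 1)) (run h f μ π p n) ≤ Real.exp (-(c n p)) := by
  by_cases hp : f n p = 0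
  · rw [run_succ_of_eq_zero h0 hp, dist_self]
    positivity
  · have hp' : p ∈ W n := hW n (subset_closure hp)
    rw [run, dist_comm]
    refine (hε _ _ _).le.trans ?_
    have := hlow n p hp'
    gcongr

lemma dist_run (h0 : ∀ m x, h m (x, 0) = x) (hε : ∀ m x t, dist x (h m (x, t)) < Real.exp (-m)) 
    (hW : f.IsSubordinate W) (hlow : ∀ n, ∀ p ∈ W n, c n p < μ n p) (hcs : ∀ n p, c n p + 2 ≤ c (n + 1) p) (p : P) {k n : ℕ} (hk : k ≤ n) :
    dist (run h f μ π p n) (run h f μ π p k) + 2 * Real.exp (-(c n p)) ≤ 2 * Real.exp (-(c k p)) := by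
  induction n with
  | zero => obtain rfl : k = 0 := by omega
            rw [dist_self, zero_add]
  | succ n ih =>
    rcases Nat.lt_or_ge n k with h1 | h1
    · obtain rfl : k = n + 1 := by omega
      rw [dist_self, zero_add]
    · have h2 := ih h1
      have h3 := dist_step (π := π) h0 hε hW hlow p n
      have h4 := dist_triangle (run h f μ π p (n + 1)) (run h f μ π p n) (run h f μ π p k)
      have h5 : 2 * Real.exp (-(c (n + 1) p)) ≤ Real.exp (-(c n p)) := by
        have h6 : Real.exp (-(c (n + 1) p)) ≤ Real.exp (-(c n p)) * Real.exp (-1) := by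
          rw [← Real.exp_add]
          apply Real.exp_le_exp.2
          have := hcs n p
          linarith
        have h7 : Real.exp (-1) ≤ 1 / 2 := by
          have h8 : (2 : ℝ) ≤ Real.exp 1 := by
            have := Real.add_one_le_exp 1
            linarith
          rw [Real.exp_neg, one_div]
          exact inv_anti₀ (by norm_num) h8
        have := Real.exp_pos (-(c n p))
        nlinarith
      linarith

lemma lim_ne (h0 : ∀ m x, h m (x, 0) = x) (hε : ∀ m x t, dist x (h m (x, t)) < Real.exp (-m)) 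
    (hW : f.IsSubordinate W) (hlow : ∀ n, ∀ p ∈ W n, c n p < μ n p) (hupp : ∀ n, ∀ p ∈ W n, μ n p < c n p + 2)
    (hcs : ∀ n p, c n p + 2 ≤ c (n + 1) p) {a : M}
    (hgood : ∀ n p, ∀ L : ℕ, (L : ℝ) ≤ c n p + 2 → Good h a L (2 * Real.exp (-(c (n + 1) p))) n (π p)) {p : P} (hp : p ∈ s) :
    lim h f μ π p ≠ a := by
  obtain ⟨i, hi⟩ := f.eventuallyEq_one' p hp
  have hi1 : f i p = 1 := hi.self_of_nhds
  have hpW : ∀ j, f j p ≠ 0 → p ∈ W j := fun j hj => hW j (subset_closure hj)
  have hpi : p ∈ W i := hpW i (by rw [hi1]; exact one_ne_zero)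
  have hm : Monotone fun n => c n p := monotone_nat_of_le_succ (fun n => by linarith [hcs n p])
  have hmono : ∀ j ≤ i, c j p ≤ c i p := fun j hj => hm hj
  set L : ℕ := ⌊c i p + 2⌋₊ with hL
  set δ : ℝ := 2 * Real.exp (-(c (i + 1) p)) with hδ
  have hcpos : 0 ≤ c i p + 2 := by
    have := hupp i p hpi
    have h2 : (0 : ℝ) ≤ μ i p := Nat.cast_nonneg _
    linarith
  have hlabel : ∀ j ≤ i, p ∈ W j → μ j p ≤ L := by
    intro j hj hpj
    rw [hL]
    apply Nat.le_floor
    have := hupp j p hpj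
    have := hmono j hj
    linarith
  have hstart : Good h a L δ i (π p) := hgood i p L (Nat.floor_le hcpos)
  have hchain : ∀ j ≤ i, Good h a L δ (i - j) (run h f μ π p j) := by
    intro j
    induction j with
    | zero => intro _; exact hstart
    | succ j ih =>
      intro hj
      have h1 := ih (by omega)
      have h2 : i - j = (i - (j + 1)) + 1 := by omega
      rw [h2] at h1
      by_cases hz : f j p = 0
      · rw [run_succ_of_eq_zero h0 hz]
        exact h1.of_succ h0
      · exact h1 _ (hlabel j (by omega) (hpW j hz)) _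
  have hfin := hchain i le_rfl
  rw [Nat.sub_self] at hfin
  have hfin2 := hfin _ (hlabel i le_rfl hpi)
  have hwt : wt f i p = 1 := Subtype.ext hi1
  have hfin3 : δ < dist (run h f μ π p (i + 1)) a := by
    rw [run, hwt]; exact hfin2
  obtain ⟨N, hN, hNeq⟩ := exists_lim_eq (f := f) (μ := μ) (π := π) h0 p (i + 1)
  rw [hNeq]
  intro heq
  have h5 := dist_run (π := π) h0 hε hW hlow hcs p hN
  rw [heq, dist_comm] at h5
  have h6 := Real.exp_pos (-(c N p))
  linarith

lemma dist_lim (h0 : ∀ m x, h m (x, 0) = x) (hε : ∀ m x t, dist x (h m (x, t)) < Real.exp (-m)) 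
    (hW : f.IsSubordinate W) (hlow : ∀ n, ∀ p ∈ W n, c n p < μ n p)
    (hcs : ∀ n p, c n p + 2 ≤ c (n + 1) p) (p : P) : dist (lim h f μ π p) (π p) < 2 * Real.exp (-(c 0 p)) := by
  obtain ⟨N, hN, hNeq⟩ := exists_lim_eq (f := f) (μ := μ) (π := π) h0 p 0
  rw [hNeq]
  have h5 := dist_run (π := π) h0 hε hW hlow hcs p hN
  have h6 := Real.exp_pos (-(c N p))
  have h7 : run h f μ π p 0 = π p := rfl
  rw [h7] at h5
  linarith

end dist

end Pool.Agent.Helper789.HU
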