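import Mathlib

open Set Topology Filter unitInterval

namespace Pool.Agent.Helper789.HU

/-- Property C of Addis and Gresham. -/
def PropertyC (X : Type*) [TopologicalSpace X] : Prop :=
  ∀ U : ℕ → Set (Set X), (∀ n, (∀ u ∈ U n, IsOpen u) ∧ ⋃₀ U n = univ) →
    ∃ V : ℕ → Set (Set X), (∀ n, (∀ v ∈ V n, IsOpen v ∧ ∃ u ∈ U n, v ⊆ u) ∧ (V n).PairwiseDisjoint id) ∧
      (⋃ n, ⋃₀ V n) = univ

lemma PropertyC.labels {X : Type*} [TopologicalSpace X] (hX : PropertyC X) (U : ℕ → ℕ → Set X)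
    (hU : ∀ n m, IsOpen (U n m)) (hcov : ∀ n, (⋃ m, U n m) = univ) :
    ∃ (W : ℕ → Set X) (μ : ℕ → X → ℕ), (∀ n, IsOpen (W n)) ∧ (⋃ n, W n) = univ ∧
      ∀ n, ∀ p ∈ W n, p ∈ U n (μ n p) ∧ ∀ᶠ q in 𝓝 p, μ n q = μ n p := by
  classical
  obtain ⟨V, hV, hVcov⟩ := hX (fun n => range (U n)) (fun n => ⟨by rintro _ ⟨m, rfl⟩; exact hU n m, by rw [sUnion_range]; exact hcov n⟩)
  have hlab : ∀ n, ∀ v : Set X, ∃ m, v ∈ V n → v ⊆ U n m := by
    intro n v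
    by_cases hv : v ∈ V n
    · obtain ⟨_, ⟨m, rfl⟩, hm⟩ := ((hV n).1 v hv).2
      exact ⟨m, fun _ => hm⟩
    · exact ⟨0, fun h => absurd h hv⟩
  choose lab hlab using hlab
  let μ : ℕ → X → ℕ := fun n p => if hp : ∃ v ∈ V n, p ∈ v then lab n hp.choose else 0
  have hμ : ∀ n, ∀ v ∈ V n, ∀ p ∈ v, μ n p = lab n v := by
    intro n v hv p hp
    have hex : ∃ v ∈ V n, p ∈ v := ⟨v, hv, hp⟩
    have h1 : μ n p = lab n hex.choose := dif_pos hex
    have h2 := hex.choose_spec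
    have h3 : hex.choose = v := by
      by_contra hne
      have := (hV n).2 h2.1 hv hne
      exact Set.disjoint_left.1 this h2.2 hp
    rw [h1, h3]
  refine ⟨fun n => ⋃₀ V n, μ, fun n => isOpen_sUnion fun v hv => ((hV n).1 v hv).1, hVcov, ?_⟩
  rintro n p ⟨v, hv, hp⟩
  refine ⟨?_, ?_⟩
  · rw [hμ n v hv p hp]
    exact hlab n v hv hp
  · filter_upwards [((hV n).1 v hv).1.mem_nhds hp] with q hq
    rw [hμ n v hv p hp, hμ n v hv q hq]

/-- The open set `X × (0,1]` of `X × [0,1]`. -/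
abbrev Pos (N : Type*) := {p : N × I // 0 < p.2}

lemma lebesgue_pos {N : Type*} [MetricSpace N] {U : Set (Set (Pos N))} (hU : ∀ u ∈ U, IsOpen u) (hcov : ⋃₀ U = univ)
    (j : ℕ) (x : N) : ∃ δ > 0, ∀ t : I, 1 / ((j : ℝ) + 1) ≤ t → ∃ u ∈ U, ∀ x' : N, dist x' x < δ → ∀ t' : I, ∀ ht' : 0 < t',
      dist t' t < δ → (⟨(x', t'), ht'⟩ : Pos N) ∈ u := by
  have hopen : IsOpen {p : N × I | 0 < p.2} := isOpen_lt continuous_const continuous_snd
  have hK : IsCompact (({x} : Set N) ×ˢ {t : I | 1 / ((j : ℝ) + 1) ≤ t}) := by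
    apply isCompact_singleton.prod
    exact (isClosed_le continuous_const continuous_subtype_val).isCompact
  obtain ⟨δ, hδ, h⟩ := lebesgue_number_lemma_of_metric_sUnion hK (c := (fun u => Subtype.val '' u) '' U) (by
      rintro _ ⟨u, hu, rfl⟩
      exact hopen.isOpenMap_subtype_val _ (hU u hu)) (by
      rintro ⟨y, t⟩ ⟨hy, ht⟩
      have ht0 : 0 < t := by
        have h1 : (0 : ℝ) < 1 / ((j : ℝ) + 1) := by positivity
        exact_mod_cast h1.trans_le ht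
      have h2 : (⟨(y, t), ht0⟩ : Pos N) ∈ ⋃₀ U := by rw [hcov]; trivial
      obtain ⟨u, hu, h3⟩ := h2
      exact ⟨_, ⟨u, hu, rfl⟩, ⟨_, h3, rfl⟩⟩)
  refine ⟨δ, hδ, fun t ht => ?_⟩
  obtain ⟨_, ⟨u, hu, rfl⟩, hball⟩ := h (x, t) ⟨rfl, ht⟩
  refine ⟨u, hu, fun x' hx' t' ht' htt => ?_⟩
  have h4 : (x', t') ∈ Metric.ball (x, t) δ := by
    rw [Metric.mem_ball, Prod.dist_eq]
    exact max_lt hx' htt
  obtain ⟨p, hp, hpe⟩ := hball h4
  have : p = ⟨(x', t'), ht'⟩ := Subtype.ext hpe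
  rwa [← this]

/-- uniform smallness of `v` at level `q`, for the two covers `A false`, `A true` above level `j` -/
def Fine {N : Type*} (A : Bool → Set (Set (Pos N))) (j q : ℕ) (v : Set N) : Prop :=
  0 < q ∧ ∀ b, ∀ t : I, 1 / ((j : ℝ) + 1) ≤ t → ∃ u ∈ A b, ∀ x' ∈ v, ∀ t' : I, ∀ ht' : 0 < t',
    dist t' t < 1 / (q : ℝ) → (⟨(x', t'), ht'⟩ : Pos N) ∈ u

lemma Fine.mono {N : Type*} {A : Bool → Set (Set (Pos N))} {j q : ℕ} {v v' : Set N} (h : Fine A j q v) (hv : v' ⊆ v) :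
    Fine A j q v' := by
  refine ⟨h.1, fun b t ht => ?_⟩
  obtain ⟨u, hu, h2⟩ := h.2 b t ht
  exact ⟨u, hu, fun x' hx' => h2 x' (hv hx')⟩

lemma exists_fine {N : Type*} [MetricSpace N] {A : Bool → Set (Set (Pos N))} (hA : ∀ b, (∀ u ∈ A b, IsOpen u) ∧ ⋃₀ A b = univ)
    (j : ℕ) (x : N) : ∃ (q : ℕ) (O : Set N), IsOpen O ∧ x ∈ O ∧ Fine A j q O := by
  choose δ hδ h using fun b => lebesgue_pos (hA b).1 (hA b).2 j x
  obtain ⟨q, hq⟩ := exists_nat_one_div_lt (lt_min (hδ true) (hδ false))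
  refine ⟨q + 1, Metric.ball x (min (δ true) (δ false)), Metric.isOpen_ball, Metric.mem_ball_self (lt_min (hδ true) (hδ false)), 
    Nat.succ_pos _, fun b t ht => ?_⟩
  obtain ⟨u, hu, h2⟩ := h b t ht
  have hb : min (δ true) (δ false) ≤ δ b := by
    cases b
    · exact min_le_right _ _
    · exact min_le_left _ _
  refine ⟨u, hu, fun x' hx' t' ht' hd => h2 x' ((Metric.mem_ball.1 hx').trans_le hb) t' ht' (hd.trans ?_)⟩
  push_cast
  exact hq.trans_le hb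

/-- the box over `v` around the `i`-th point of the grid of mesh `1/(2q)` -/
def box {N : Type*} (v : Set N) (q : ℕ) (i : ℤ) : Set (Pos N) := {p | p.1.1 ∈ v ∧ |2 * (q : ℝ) * (p.1.2 : ℝ) - i| < 1}

lemma isOpen_box {N : Type*} [TopologicalSpace N] {v : Set N} (hv : IsOpen v) (q : ℕ) (i : ℤ) : IsOpen (box v q i) := by
  apply IsOpen.inter
  · exact hv.preimage (f := fun p : Pos N => p.1.1) (continuous_fst.comp continuous_subtype_val)
  · have h1 : Continuous fun p : Pos N => (p.1.2 : ℝ) := continuous_subtype_val.comp (continuous_snd.comp continuous_subtype_val)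
    exact isOpen_lt (((continuous_const.mul h1).sub continuous_const).abs) continuous_const

lemma PropertyC.pos {N : Type*} [MetricSpace N] (hN : PropertyC N) : PropertyC (Pos N) := by
  classical
  intro U hU
  have : Denumerable (ℕ × ℕ × Bool) := Denumerable.ofEncodableOfInfinite _
  let e : ℕ × ℕ × Bool ≃ ℕ := Denumerable.eqv _
  let A : ℕ → ℕ → Bool → Set (Set (Pos N)) := fun j n b => U (e (j, n, b))
  have hA : ∀ j n b, (∀ u ∈ A j n b, IsOpen u) ∧ ⋃₀ A j n b = univ := fun j n b => hU _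
  have hN' : ∀ j, ∃ V : ℕ → Set (Set N), (∀ n, (∀ v ∈ V n, IsOpen v ∧ ∃ q, Fine (A j n) j q v) ∧ (V n).PairwiseDisjoint id) ∧
      (⋃ n, ⋃₀ V n) = univ := by
    intro j
    obtain ⟨V, hV, hcov⟩ := hN (fun n => {O | IsOpen O ∧ ∃ q, Fine (A j n) j q O}) (fun n => by
      refine ⟨fun u hu => hu.1, eq_univ_of_forall fun x => ?_⟩
      obtain ⟨q, O, hO, hx, hf⟩ := exists_fine (hA j n) j x
      exact ⟨O, ⟨hO, q, hf⟩, hx⟩)
    refine ⟨V, fun n => ⟨fun v hv => ⟨((hV n).1 v hv).1, ?_⟩, (hV n).2⟩, hcov⟩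
    obtain ⟨u, ⟨-, q, hq⟩, hvu⟩ := ((hV n).1 v hv).2
    exact ⟨q, hq.mono hvu⟩
  choose V hV hVcov using hN'
  have hq : ∀ j n (v : Set N), ∃ q, v ∈ V j n → Fine (A j n) j q v := by
    intro j n v
    by_cases hv : v ∈ V j n
    · obtain ⟨q, hq⟩ := ((hV j n).1 v hv).2
      exact ⟨q, fun _ => hq⟩
    · exact ⟨0, fun h => absurd h hv⟩
  choose q hq using hq
  let V' : ℕ × ℕ × Bool → Set (Set (Pos N)) := fun y => 
    {S | ∃ v ∈ V y.1 y.2.1, ∃ i : ℤ, i % 2 = (if y.2.2 then 1 else 0) ∧ S = box v (q y.1 y.2.1 v) i ∧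
      ∃ t : I, 1 / ((y.1 : ℝ) + 1) ≤ t ∧ |2 * (q y.1 y.2.1 v : ℝ) * (t : ℝ) - i| < 1}
  refine ⟨fun k => V' (e.symm k), fun k => ⟨?_, ?_⟩, ?_⟩
  · obtain ⟨⟨j, n, b⟩, rfl⟩ := e.surjective k
    beta_reduce
    rw [e.symm_apply_apply]
    rintro S ⟨v, hv, i, hi, rfl, t, ht, hti⟩
    refine ⟨isOpen_box ((hV j n).1 v hv).1 _ _, ?_⟩
    obtain ⟨hqpos, hf⟩ := hq j n v hv
    obtain ⟨u, hu, h2⟩ := hf b t ht
    refine ⟨u, hu, ?_⟩
    rintro ⟨⟨x', t'⟩, ht'⟩ ⟨hx', ht'i⟩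
    refine h2 x' hx' t' ht' ?_
    rw [Subtype.dist_eq, Real.dist_eq]
    have hqr : (0 : ℝ) < q j n v := by exact_mod_cast hqpos
    rw [lt_div_iff₀ hqr, ← abs_of_pos hqr, ← abs_mul]
    simp only at ht'i hti
    rw [abs_lt] at ht'i hti ⊢
    constructor <;> nlinarith
  · obtain ⟨⟨j, n, b⟩, rfl⟩ := e.surjective k
    beta_reduce
    rw [e.symm_apply_apply]
    rintro S ⟨v, hv, i, hi, rfl, -⟩ S' ⟨v', hv', i', hi', rfl, -⟩ hne
    rw [Function.onFun, id, id, Set.disjoint_left]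
    rintro p ⟨hp1, hp2⟩ ⟨hp1', hp2'⟩
    apply hne
    have hvv : v = v' := by
      by_contra h
      exact Set.disjoint_left.1 ((hV j n).2 hv hv' h) hp1 hp1'
    subst hvv
    have hii : i = i' := by
      simp only at hi hi' hp2 hp2'
      rw [abs_lt] at hp2 hp2'
      have h1 : (i : ℝ) - i' < 2 := by linarith
      have h2 : (i' : ℝ) - i < 2 := by linarith
      have h3 : i - i' < 2 := by exact_mod_cast h1
      have h4 : i' - i < 2 := by exact_mod_cast h2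
      omega
    rw [hii]
  · refine eq_univ_of_forall fun p => ?_
    have hp := p.2
    obtain ⟨j, hj⟩ := exists_nat_one_div_lt (show (0 : ℝ) < p.1.2 from hp)
    have h1 : p.1.1 ∈ ⋃ n, ⋃₀ V j n := by rw [hVcov]; trivial
    obtain ⟨n, hn⟩ := mem_iUnion.1 h1
    obtain ⟨v, hv, hpv⟩ := hn
    set i : ℤ := round (2 * (q j n v : ℝ) * (p.1.2 : ℝ)) with hi
    have hi2 : |2 * (q j n v : ℝ) * (p.1.2 : ℝ) - i| < 1 := by
      have := abs_sub_round (2 * (q j n v : ℝ) * (p.1.2 : ℝ))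
      rw [← hi] at this
      linarith
    refine mem_iUnion.2 ⟨e (j, n, decide (i % 2 = 1)), ?_⟩
    beta_reduce
    rw [e.symm_apply_apply]
    refine ⟨box v (q j n v) i, ⟨v, hv, i, ?_, rfl, p.1.2, hj.le, hi2⟩, ⟨hpv, hi2⟩⟩
    by_cases h : i % 2 = 1
    · simp [h]
    · have : i % 2 = 0 := by omega
      simp [this]

end Pool.Agent.Helper789.HU
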