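import Mathlib
import Pool.Agent.Helper789.HU2
import Pool.Agent.Helper789.HU3

open Set Topology Filter unitInterval

namespace Pool.Agent.Helper789.HU

variable {M : Type*} [MetricSpace M]

/-- the point `a` is homotopically unstable in `M` -/
def Unstable (a : M) : Prop :=
  ∀ ε : ℝ, 0 < ε → ∃ h : M × I → M, Continuous h ∧ ∀ x t, h (x, 0) = x ∧ dist x (h (x, t)) < ε ∧ h (x, 1) ≠ a

/-- condition (H) -/
def CondH (a : M) : Prop :=
  ∃ f : M × I → M, Continuous f ∧ (∀ x, f (x, 0) = x) ∧ ∀ x t, 0 < t → f (x, t) ≠ a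

/-- condition (R) -/
def CondR (a : M) : Prop :=
  ∃ r : M × I → M × I, Continuous r ∧ (∀ p, (r p).2 = 0) ∧ (∀ x, r (x, 0) = (x, 0)) ∧ r ⁻¹' {(a, 0)} = {(a, 0)}

lemma condH_iff_condR (a : M) : CondH a ↔ CondR a := by
  constructor
  · rintro ⟨f, hf, h0, hne⟩
    refine ⟨fun p => (f p, 0), by fun_prop, fun _ => rfl, fun x => by beta_reduce; rw [h0], ?_⟩
    ext ⟨x, t⟩
    simp only [mem_preimage, mem_singleton_iff, Prod.mk.injEq]
    constructor
    · rintro ⟨h1, -⟩
      rcases eq_or_lt_of_le (unitInterval.nonneg t) with h | h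
      · have ht : t = 0 := Subtype.ext h.symm
        subst ht
        rw [h0] at h1
        exact ⟨h1, rfl⟩
      · exact absurd h1 (hne x t h)
    · rintro ⟨rfl, rfl⟩
      exact ⟨h0 _, trivial⟩
  · rintro ⟨r, hr, h2, h0, hpre⟩
    refine ⟨fun p => (r p).1, by fun_prop, fun x => by beta_reduce; rw [h0], fun x t ht hxa => ?_⟩
    have h3 : (x, t) ∈ r ⁻¹' {(a, 0)} := by
      rw [mem_preimage, mem_singleton_iff]
      exact Prod.ext hxa (h2 _)
    rw [hpre, mem_singleton_iff] at h3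
    have : t = 0 := congrArg Prod.snd h3
    rw [this] at ht
    exact lt_irrefl _ ht

lemma CondH.unstable {a : M} (h : CondH a) : Unstable a := by
  obtain ⟨f, hf, h0, hne⟩ := h
  intro ε hε
  -- a continuous positive function bounding the time
  let T : M → Set ℝ := fun x => {τ | 0 < τ ∧ τ ≤ 1 ∧ ∀ t : I, (t : ℝ) ≤ τ → dist x (f (x, t)) < ε}
  have hconv : ∀ x, Convex ℝ (T x) := by
    intro x
    rw [convex_iff_ordConnected, ordConnected_iff]
    intro u hu v hv _ z hz
    exact ⟨hu.1.trans_le hz.1, hz.2.trans hv.2.1, fun t ht => hv.2.2 t (ht.trans hz.2)⟩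
  have hloc : ∀ x, ∃ τ : ℝ, ∀ᶠ y in 𝓝 x, τ ∈ T y := by
    intro x
    have h1 : ∀ᶠ p : M × I in 𝓝 (x, 0), dist p.1 (f p) < ε := by
      have : ContinuousAt (fun p : M × I => dist p.1 (f p)) (x, 0) := by fun_prop
      apply this.eventually_lt_const
      beta_reduce
      rw [h0, dist_self]; exact hε
    rw [nhds_prod_eq] at h1
    obtain ⟨U, hU, V, hV, hUV⟩ := Filter.mem_prod_iff.1 h1
    obtain ⟨δ, hδ, hball⟩ := Metric.mem_nhds_iff.1 hV
    refine ⟨min 1 (δ / 2), ?_⟩
    filter_upwards [hU] with y hy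
    refine ⟨lt_min one_pos (by positivity), min_le_left _ _, fun t ht => ?_⟩
    have h2 : t ∈ V := by
      apply hball
      rw [Metric.mem_ball, Subtype.dist_eq, Real.dist_eq]
      have : |(t : ℝ) - ((0 : I) : ℝ)| = t := by
        simp [abs_of_nonneg (unitInterval.nonneg t)]
      rw [this]
      have := ht.trans (min_le_right _ _)
      linarith
    exact hUV (mk_mem_prod hy h2)
  obtain ⟨g, hg⟩ := exists_continuous_forall_mem_convex_of_local_const hconv hloc
  let τ : M → I := fun x => ⟨g x, (hg x).1.le, (hg x).2.1⟩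
  have hτ : Continuous τ := Continuous.subtype_mk g.continuous _
  refine ⟨fun p => f (p.1, p.2 * τ p.1), by fun_prop, fun x t => ⟨?_, ?_, ?_⟩⟩
  · simp [h0]
  · apply (hg x).2.2
    have h3 : ((t * τ x : I) : ℝ) = t * g x := rfl
    show ((t * τ x : I) : ℝ) ≤ g x
    rw [h3]
    have := unitInterval.le_one t
    nlinarith [(hg x).1]
  · apply hne
    simp only [one_mul]
    exact (hg x).1

lemma CondH.of_pos {a : M} (F : Pos M → M) (hF : Continuous F) (hne : ∀ p, F p ≠ a)
    (hd : ∀ p, dist (F p) p.1.1 ≤ 2 * p.1.2) : CondH a := by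
  classical
  have hopen : IsOpen {p : M × I | 0 < p.2} := isOpen_lt continuous_const continuous_snd
  refine ⟨fun p => if hp : 0 < p.2 then F ⟨p, hp⟩ else p.1, ?_, fun x => by simp, fun x t ht => ?_⟩
  · rw [continuous_iff_continuousAt]
    rintro ⟨x, t⟩
    by_cases ht : 0 < t
    · have h1 : ContinuousAt ((fun p : M × I => if hp : 0 < p.2 then F ⟨p, hp⟩ else p.1) ∘ (Subtype.val : Pos M → M × I)) ⟨(x, t), ht⟩ := by
        refine hF.continuousAt.congr (Eventually.of_forall fun p => ?_)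
        simp only [Function.comp]
        rw [dif_pos p.2]
      exact (hopen.isOpenEmbedding_subtypeVal.continuousAt_iff (x := (⟨(x, t), ht⟩ : Pos M))).1 h1
    · have ht0 : t = 0 := le_antisymm (not_lt.1 ht) (unitInterval.nonneg _)
      subst ht0
      rw [ContinuousAt, Metric.tendsto_nhds]
      intro ε hε
      have h1 : ∀ᶠ p : M × I in 𝓝 (x, 0), dist p.1 x + 2 * (p.2 : ℝ) < ε := by
        have : ContinuousAt (fun p : M × I => dist p.1 x + 2 * (p.2 : ℝ)) (x, 0) := by fun_prop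
        apply this.eventually_lt_const
        simpa using hε
      filter_upwards [h1] with p hp
      simp only [lt_self_iff_false, dite_false]
      by_cases h2 : 0 < p.2
      · rw [dif_pos h2]
        have := hd ⟨p, h2⟩
        have h3 := dist_triangle (F ⟨p, h2⟩) p.1 x
        simp only at this
        linarith
      · rw [dif_neg h2]
        have : (0 : ℝ) ≤ p.2 := unitInterval.nonneg _
        linarith
  · beta_reduce
    rw [dif_pos ht]
    exact hne _

theorem Unstable.condH {a : M} (ha : Unstable a) {N : Set M} (hN : N ∈ 𝓝 a) (hC : PropertyC N) : CondH a := by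
  classical
  obtain ⟨ε, hε, hball⟩ := Metric.mem_nhds_iff.1 hN
  set ρ : ℝ := min (ε / 2) 1 with hρdef
  have hρ : 0 < ρ := lt_min (by positivity) one_pos
  have hρε : ρ < ε := (min_le_left _ _).trans_lt (by linarith)
  have hρ1 : ρ ≤ 1 := min_le_right _ _
  choose h hc hprop using fun m : ℕ => ha (Real.exp (-m)) (Real.exp_pos _)
  have h0 : ∀ m x, h m (x, 0) = x := fun m x => (hprop m x 0).1
  have hd : ∀ m x t, dist x (h m (x, t)) < Real.exp (-m) := fun m x t => (hprop m x t).2.1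
  have h1 : ∀ m x, h m (x, 1) ≠ a := fun m x => (hprop m x 0).2.2
  let π : C(Pos M, M) := ⟨fun p => p.1.1, continuous_fst.comp continuous_subtype_val⟩
  have htc : Continuous fun p : Pos M => (p.1.2 : ℝ) :=
    continuous_subtype_val.comp (continuous_snd.comp continuous_subtype_val)
  have htpos : ∀ p : Pos M, (0 : ℝ) < p.1.2 := fun p => p.2
  let c0 : C(Pos M, ℝ) := ⟨fun p => 1 / (p.1.2 : ℝ) + |Real.log (ρ / 2)|, 
    (continuous_const.div htc (fun p => (htpos p).ne')).add continuous_const⟩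
  obtain ⟨c, hc00, hcs⟩ := exists_seq (a := a) hc h1 π c0
  have hc0 : ∀ p, c 0 p = 1 / (p.1.2 : ℝ) + |Real.log (ρ / 2)| := fun p => by rw [hc00]; rfl
  have hcpos : ∀ n p, 0 < c n p := by
    intro n p
    induction n with
    | zero => rw [hc0]; have := htpos p; positivity
    | succ n ih => linarith [(hcs n).1 p]
  -- labels on `N × (0,1]`
  let j : Pos N → Pos M := fun q => ⟨(q.1.1.1, q.1.2), q.2⟩
  have hj : Continuous j := by
    refine Continuous.subtype_mk ?_ _
    exact (continuous_subtype_val.comp (continuous_fst.comp continuous_subtype_val)).prodMk (continuous_snd.comp continuous_subtype_val)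
  obtain ⟨WQ, μQ, hWQ, hWQcov, hμQ⟩ := hC.pos.labels (fun n m => {q | c n (j q) < m ∧ (m : ℝ) < c n (j q) + 2})
    (fun n m => (isOpen_lt ((c n).continuous.comp hj) continuous_const).inter 
      (isOpen_lt continuous_const (((c n).continuous.comp hj).add continuous_const)))
    (fun n => eq_univ_of_forall fun q => mem_iUnion.2 ⟨⌊c n (j q)⌋₊ + 1, by
      have h2 := Nat.lt_floor_add_one (c n (j q))
      have h3 := Nat.floor_le (hcpos n (j q)).le
      refine ⟨by push_cast; exact h2, by push_cast; linarith⟩⟩)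
  set B : Set M := Metric.ball a ε with hB
  have hBN : B ⊆ N := hball
  have hBo : IsOpen {p : Pos M | p.1.1 ∈ B} := Metric.isOpen_ball.preimage π.continuous
  let κ : {p : Pos M // p.1.1 ∈ B} → Pos N := fun p => ⟨(⟨p.1.1.1, hBN p.2⟩, p.1.1.2), p.1.2⟩
  have hκ : Continuous κ := by
    refine Continuous.subtype_mk ?_ _
    exact (Continuous.subtype_mk (π.continuous.comp continuous_subtype_val) _).prodMk 
      (continuous_snd.comp (continuous_subtype_val.comp continuous_subtype_val))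
  let W : ℕ → Set (Pos M) := fun n => Subtype.val '' (κ ⁻¹' WQ n)
  let μ : ℕ → Pos M → ℕ := fun n p => if hb : p.1.1 ∈ B then μQ n (κ ⟨p, hb⟩) else 0
  have hWo : ∀ n, IsOpen (W n) := fun n => hBo.isOpenMap_subtype_val _ ((hWQ n).preimage hκ)
  have hμ : ∀ n, ∀ p ∈ W n, ∀ᶠ q in 𝓝 p, μ n q = μ n p := by
    rintro n _ ⟨⟨p, hb⟩, hp, rfl⟩
    have h2 : ∀ᶠ q in 𝓝 (⟨p, hb⟩ : {p : Pos M // p.1.1 ∈ B}), μQ n (κ q) = μQ n (κ ⟨p, hb⟩) := 
      hκ.continuousAt.eventually (hμQ n _ hp).2
    have h3 : ∀ᶠ q in 𝓝 (⟨p, hb⟩ : {p : Pos M // p.1.1 ∈ B}), μ n q.1 = μ n p := by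
      filter_upwards [h2] with q hq
      have e1 : μ n q.1 = μQ n (κ q) := dif_pos q.2
      have e2 : μ n p = μQ n (κ ⟨p, hb⟩) := dif_pos hb
      rw [e1, e2, hq]
    have h4 := hBo.isOpenEmbedding_subtypeVal.map_nhds_eq (⟨p, hb⟩ : {p : Pos M // p.1.1 ∈ B})
    rw [← h4, Filter.eventually_map]
    exact h3
  have hlab : ∀ n, ∀ p ∈ W n, c n p < μ n p ∧ (μ n p : ℝ) < c n p + 2 := by
    rintro n _ ⟨⟨p, hb⟩, hp, rfl⟩
    have e2 : μ n p = μQ n (κ ⟨p, hb⟩) := dif_pos hb
    have e3 : j (κ ⟨p, hb⟩) = p := rfl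
    have := (hμQ n _ hp).1
    rw [Set.mem_ofPred_eq, e3, ← e2] at this
    exact this
  let s : Set (Pos M) := {p | dist p.1.1 a ≤ ρ}
  have hs : IsClosed s := isClosed_le (π.continuous.dist continuous_const) continuous_const
  have hsW : s ⊆ ⋃ n, W n := by
    intro p hp
    have hb : p.1.1 ∈ B := by
      rw [hB, Metric.mem_ball]
      have : dist p.1.1 a ≤ ρ := hp
      linarith
    have h2 : κ ⟨p, hb⟩ ∈ ⋃ n, WQ n := by rw [hWQcov]; trivial
    obtain ⟨n, hn⟩ := mem_iUnion.1 h2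
    exact mem_iUnion.2 ⟨n, ⟨p, hb⟩, hn, rfl⟩
  obtain ⟨f, hf⟩ := BumpCovering.exists_isSubordinate hs W hWo hsW
  have hdist : ∀ p, dist (lim h f μ π p) (π p) < 2 * Real.exp (-(c 0 p)) := fun p =>
    dist_lim h0 hd hf (fun n p hp => (hlab n p hp).1) (fun n p => (hcs n).1 p) p
  have hexp : ∀ p, 2 * Real.exp (-(c 0 p)) ≤ ρ * Real.exp (-(1 / (p.1.2 : ℝ))) := by
    intro p
    rw [hc0, neg_add, Real.exp_add]
    have h2 : Real.exp (-|Real.log (ρ / 2)|) ≤ ρ / 2 := by
      calc Real.exp (-|Real.log (ρ / 2)|) ≤ Real.exp (Real.log (ρ / 2)) := Real.exp_le_exp.2 (neg_abs_le _)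
        _ = ρ / 2 := Real.exp_log (by positivity)
    have h3 := Real.exp_pos (-(1 / (p.1.2 : ℝ)))
    nlinarith
  have hexp1 : ∀ p : Pos M, Real.exp (-(1 / (p.1.2 : ℝ))) ≤ p.1.2 := by
    intro p
    have h2 := htpos p
    have h3 : 1 / (p.1.2 : ℝ) ≤ Real.exp (1 / (p.1.2 : ℝ)) := by
      have := Real.add_one_le_exp (1 / (p.1.2 : ℝ))
      linarith
    rw [Real.exp_neg, inv_le_comm₀ (Real.exp_pos _) h2, ← one_div]
    exact h3
  refine CondH.of_pos (lim h f μ π) (continuous_lim hc h0 π.continuous hf hμ) (fun p => ?_) (fun p => ?_)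
  · by_cases hp : p ∈ s
    · exact lim_ne h0 hd hf (fun n p hp => (hlab n p hp).1) (fun n p hp => (hlab n p hp).2) (fun n p => (hcs n).1 p)
        (fun n p => (hcs n).2 p) hp
    · intro heq
      have h2 := hdist p
      rw [heq] at h2
      have h3 : ρ < dist p.1.1 a := not_le.1 hp
      have h4 : dist a (π p) = dist p.1.1 a := dist_comm _ _
      have h5 := hexp p
      have h6 : Real.exp (-(1 / (p.1.2 : ℝ))) ≤ 1 := by
        rw [Real.exp_le_one_iff]
        have := htpos p
        have : 0 ≤ 1 / (p.1.2 : ℝ) := by positivity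
        linarith
      nlinarith
  · have h2 := (hdist p).le
    have h3 := hexp p
    have h4 := hexp1 p
    have h5 := Real.exp_pos (-(1 / (p.1.2 : ℝ)))
    have h6 : dist (lim h f μ π p) p.1.1 = dist (lim h f μ π p) (π p) := rfl
    rw [h6]
    have h7 := htpos p
    nlinarith

end Pool.Agent.Helper789.HU
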