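import Mathlib
import Pool.Agent.Helper789.HU3

open Set Topology Filter

namespace Pool.Agent.Helper789.HU

/-- Covering dimension at most `n`: every open cover has an open refinement that is a cover and in which
every point lies in at most `n + 1` members. -/
def CovDimLE (X : Type*) [TopologicalSpace X] (n : ℕ) : Prop :=
  ∀ U : Set (Set X), (∀ u ∈ U, IsOpen u) → ⋃₀ U = univ →
    ∃ V : Set (Set X), (∀ v ∈ V, IsOpen v ∧ ∃ u ∈ U, v ⊆ u) ∧ ⋃₀ V = univ ∧ ∀ x, {v | v ∈ V ∧ x ∈ v}.encard ≤ n + 1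

section bump

variable {X : Type*} [MetricSpace X]

open Classical in
/-- a 1-Lipschitz function, positive exactly on the open set `v` -/
noncomputable def phi (v : Set X) (x : X) : ℝ := if v = univ then 1 else Metric.infDist x vᶜ

lemma phi_nonneg (v : Set X) (x : X) : 0 ≤ phi v x := by
  unfold phi
  split_ifs
  · exact zero_le_one
  · exact Metric.infDist_nonneg

lemma phi_pos {v : Set X} (hv : IsOpen v) {x : X} : 0 < phi v x ↔ x ∈ v := by
  unfold phi
  split_ifs with h
  · simp [h]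
  · have hne : (vᶜ).Nonempty := by rwa [nonempty_compl]
    rw [← not_iff_not, not_lt]
    constructor
    · intro h1
      have h2 : Metric.infDist x vᶜ = 0 := le_antisymm h1 Metric.infDist_nonneg
      have := (hv.isClosed_compl.mem_iff_infDist_zero hne).2 h2
      exact this
    · intro h1
      exact ((hv.isClosed_compl.mem_iff_infDist_zero hne).1 h1).le

lemma phi_le (v : Set X) (x y : X) : phi v x ≤ phi v y + dist x y := by
  unfold phi
  split_ifs with h
  · linarith [dist_nonneg (x := x) (y := y)]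
  · exact Metric.infDist_le_infDist_add_dist

/-- the open set where the functions of `A` dominate all others -/
def dom (V : Set (Set X)) (A : Finset (Set X)) : Set X :=
  {x | ∃ r > 0, (∀ v ∈ A, r < phi v x) ∧ ∀ v ∈ A, ∀ v' ∈ V, v' ∉ A → phi v' x + r < phi v x}

lemma isOpen_dom (V : Set (Set X)) (A : Finset (Set X)) : IsOpen (dom V A) := by
  rw [Metric.isOpen_iff]
  rintro x ⟨r, hr, h1, h2⟩
  refine ⟨r / 4, by positivity, fun y hy => ⟨r / 2, by positivity, fun v hv => ?_, fun v hv v' hv' hv'A => ?_⟩⟩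
  · have := h1 v hv
    have := phi_le v x y
    rw [Metric.mem_ball, dist_comm] at hy
    linarith
  · have := h2 v hv v' hv' hv'A
    have := phi_le v x y
    have := phi_le v' y x
    rw [Metric.mem_ball] at hy
    have : dist x y = dist y x := dist_comm _ _
    linarith

lemma CovDimLE.propertyC {n : ℕ} (h : CovDimLE X n) : PropertyC X := by
  classical
  intro U hU
  obtain ⟨V, hV, hVcov, hVcard⟩ := h {O | IsOpen O ∧ ∀ k ≤ n, ∃ u ∈ U k, O ⊆ u} (fun u hu => hu.1) (by
    refine eq_univ_of_forall fun x => ?_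
    have : ∀ k, ∃ u ∈ U k, x ∈ u := by
      intro k
      have h1 : x ∈ ⋃₀ U k := by rw [(hU k).2]; trivial
      exact h1
    choose u hu hxu using this
    refine ⟨⋂ k ∈ Finset.range (n + 1), u k, ⟨isOpen_biInter_finset fun k _ => (hU k).1 _ (hu k), fun k hk => ?_⟩, ?_⟩
    · exact ⟨u k, hu k, biInter_subset_of_mem (Finset.mem_coe.2 (Finset.mem_range.2 (by omega)))⟩
    · exact mem_iInter₂.2 fun k _ => hxu k)
  refine ⟨fun k => {W | k ≤ n ∧ ∃ A : Finset (Set X), ↑A ⊆ V ∧ A.card = k + 1 ∧ W = dom V A}, fun k => ⟨?_, ?_⟩, ?_⟩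
  · rintro W ⟨hk, A, hAV, hcard, rfl⟩
    refine ⟨isOpen_dom V A, ?_⟩
    have hne : A.Nonempty := Finset.card_pos.1 (by omega)
    obtain ⟨v, hv⟩ := hne
    obtain ⟨hvo, O, ⟨hO, hOU⟩, hvO⟩ := hV v (hAV hv)
    obtain ⟨u, hu, hOu⟩ := hOU k hk
    refine ⟨u, hu, ?_⟩
    rintro x ⟨r, hr, h1, -⟩
    exact hOu (hvO ((phi_pos hvo).1 (hr.trans (h1 v hv))))
  · rintro W ⟨hk, A, hAV, hcard, rfl⟩ W' ⟨-, A', hA'V, hcard', rfl⟩ hne
    have hAA : A ≠ A' := by rintro rfl; exact hne rfl
    rw [Function.onFun, id, id, Set.disjoint_left]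
    rintro x ⟨r, hr, -, h2⟩ ⟨r', hr', -, h2'⟩
    obtain ⟨v, hv, hv'⟩ : ∃ v ∈ A, v ∉ A' := by
      by_contra hcon
      push Not at hcon
      exact hAA (Finset.eq_of_subset_of_card_le hcon (by omega))
    obtain ⟨w, hw, hw'⟩ : ∃ w ∈ A', w ∉ A := by
      by_contra hcon
      push Not at hcon
      exact hAA (Finset.eq_of_subset_of_card_le hcon (by omega)).symm
    have e1 := h2 v hv w (hA'V hw) hw'
    have e2 := h2' w hw v (hAV hv) hv'
    linarith
  · refine eq_univ_of_forall fun x => ?_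
    have hfin : {v | v ∈ V ∧ x ∈ v}.Finite := by
      apply Set.finite_of_encard_le_coe (k := n + 1)
      exact_mod_cast hVcard x
    set A : Finset (Set X) := hfin.toFinset with hA
    have hmem : ∀ v, v ∈ A ↔ v ∈ V ∧ x ∈ v := fun v => by rw [hA, Set.Finite.mem_toFinset]; rfl
    have hAne : A.Nonempty := by
      have h1 : x ∈ ⋃₀ V := by rw [hVcov]; trivial
      obtain ⟨v, hv, hx⟩ := h1
      exact ⟨v, (hmem v).2 ⟨hv, hx⟩⟩
    have hcard : A.card ≤ n + 1 := by
      have := hVcard x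
      rw [hfin.encard_eq_coe_toFinset_card] at this
      exact_mod_cast this
    have hcard0 : 0 < A.card := Finset.card_pos.2 hAne
    obtain ⟨v0, hv0, hmin⟩ := Finset.exists_min_image A (fun v => phi v x) hAne
    have hpos : ∀ v ∈ A, 0 < phi v x := fun v hv => (phi_pos (hV v ((hmem v).1 hv).1).1).2 ((hmem v).1 hv).2
    have h0 := hpos v0 hv0
    refine mem_iUnion.2 ⟨A.card - 1, dom V A, ⟨by omega, A, fun v hv => ((hmem v).1 hv).1, by omega, rfl⟩, ?_⟩
    refine ⟨phi v0 x / 2, by positivity, fun v hv => ?_, fun v hv v' hv' hv'A => ?_⟩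
    · have := hmin v hv
      linarith
    · have h1 : phi v' x = 0 := by
        by_contra hne
        have h2 : 0 < phi v' x := lt_of_le_of_ne (phi_nonneg _ _) (Ne.symm hne)
        exact hv'A ((hmem v').2 ⟨hv', (phi_pos (hV v' hv').1).1 h2⟩)
      have := hmin v hv
      linarith

end bump

/-- Countable-dimensional: a countable union of subspaces of covering dimension `0`. -/
def CountableDim (X : Type*) [TopologicalSpace X] : Prop :=
  ∃ Y : ℕ → Set X, (⋃ n, Y n) = univ ∧ ∀ n, CovDimLE (Y n) 0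

lemma CountableDim.propertyC {X : Type*} [MetricSpace X] (h : CountableDim X) : PropertyC X := by
  classical
  obtain ⟨Y, hY, hdim⟩ := h
  intro U hU
  have key : ∀ n, ∃ V : Set (Set X), (∀ v ∈ V, IsOpen v ∧ ∃ u ∈ U n, v ⊆ u) ∧ V.PairwiseDisjoint id ∧ Y n ⊆ ⋃₀ V := by
    intro n
    obtain ⟨V, hV, hVcov, hcard⟩ := hdim n ((fun u => Subtype.val ⁻¹' u) '' U n) (by
      rintro _ ⟨u, hu, rfl⟩
      exact ((hU n).1 u hu).preimage continuous_subtype_val) (by
      refine eq_univ_of_forall fun x => ?_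
      have h1 : x.1 ∈ ⋃₀ U n := by rw [(hU n).2]; trivial
      obtain ⟨u, hu, hx⟩ := h1
      exact ⟨_, ⟨u, hu, rfl⟩, hx⟩)
    have hdisj : ∀ v ∈ V, ∀ v' ∈ V, v ≠ v' → Disjoint v v' := by
      intro v hv v' hv' hne
      rw [Set.disjoint_left]
      intro x hx hx'
      have h1 := hcard x
      have h2 : ({v, v'} : Set (Set (Y n))).encard ≤ {w | w ∈ V ∧ x ∈ w}.encard := by
        apply Set.encard_le_encard
        rintro w (rfl | rfl)
        · exact ⟨hv, hx⟩
        · exact ⟨hv', hx'⟩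
      rw [Set.encard_pair hne] at h2
      have h3 := h2.trans h1
      norm_num at h3
    have hu : ∀ v : Set (Y n), ∃ u, v ∈ V → u ∈ U n ∧ v ⊆ Subtype.val ⁻¹' u := by
      intro v
      by_cases hv : v ∈ V
      · obtain ⟨_, ⟨u, hu, rfl⟩, h1⟩ := (hV v hv).2
        exact ⟨u, fun _ => ⟨hu, h1⟩⟩
      · exact ⟨∅, fun h => absurd h hv⟩
    choose u hu using hu
    let O : Set (Y n) → Set X := fun v => u v ∩ {x | Metric.infEDist x (Subtype.val '' v) < Metric.infEDist x (Y n \ Subtype.val '' v)}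
    refine ⟨O '' V, ?_, ?_, ?_⟩
    · rintro _ ⟨v, hv, rfl⟩
      refine ⟨((hU n).1 _ (hu v hv).1).inter (isOpen_lt Metric.continuous_infEDist Metric.continuous_infEDist), u v, (hu v hv).1, inter_subset_left⟩
    · rintro _ ⟨v, hv, rfl⟩ _ ⟨v', hv', rfl⟩ hne
      have hvv : v ≠ v' := by rintro rfl; exact hne rfl
      have hd := hdisj v hv v' hv' hvv
      rw [Function.onFun, id, id, Set.disjoint_left]
      rintro x ⟨-, h1⟩ ⟨-, h2⟩
      have s1 : Subtype.val '' v' ⊆ Y n \ Subtype.val '' v := by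
        rintro _ ⟨y, hy, rfl⟩
        refine ⟨y.2, ?_⟩
        rintro ⟨z, hz, hzy⟩
        rw [Subtype.ext hzy] at hz
        exact Set.disjoint_left.1 hd hz hy
      have s2 : Subtype.val '' v ⊆ Y n \ Subtype.val '' v' := by
        rintro _ ⟨y, hy, rfl⟩
        refine ⟨y.2, ?_⟩
        rintro ⟨z, hz, hzy⟩
        rw [Subtype.ext hzy] at hz
        exact Set.disjoint_left.1 hd hy hz
      have e1 := h1.trans_le (Metric.infEDist_anti (x := x) s1)
      have e2 := h2.trans_le (Metric.infEDist_anti (x := x) s2)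
      exact lt_asymm e1 e2
    · intro x hx
      have h1 : (⟨x, hx⟩ : Y n) ∈ ⋃₀ V := by rw [hVcov]; trivial
      obtain ⟨v, hv, hxv⟩ := h1
      refine ⟨O v, ⟨v, hv, rfl⟩, (hu v hv).2 hxv, ?_⟩
      obtain ⟨G, hG, hGv⟩ := isOpen_induced_iff.1 (hV v hv).1
      have hxG : x ∈ G := by
        have : (⟨x, hx⟩ : Y n) ∈ Subtype.val ⁻¹' G := by rw [hGv]; exact hxv
        exact this
      have h2 : Metric.infEDist x (Subtype.val '' v) = 0 := by
        exact Metric.infEDist_zero_of_mem ⟨_, hxv, rfl⟩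
      have h3 : Metric.infEDist x (Y n \ Subtype.val '' v) ≠ 0 := by
        rw [Ne, ← Metric.mem_closure_iff_infEDist_zero]
        intro hcl
        rw [mem_closure_iff] at hcl
        obtain ⟨z, hzG, hzY, hzv⟩ := hcl G hG hxG
        apply hzv
        have : (⟨z, hzY⟩ : Y n) ∈ v := by rw [← hGv]; exact hzG
        exact ⟨_, this, rfl⟩
      show Metric.infEDist x (Subtype.val '' v) < Metric.infEDist x (Y n \ Subtype.val '' v)
      rw [h2]
      exact pos_iff_ne_zero.2 h3
  choose V hV hVd hVc using key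
  refine ⟨V, fun n => ⟨hV n, hVd n⟩, ?_⟩
  rw [← univ_subset_iff, ← hY]
  exact iUnion_mono hVc

end Pool.Agent.Helper789.HU
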