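import Mathlib
import Pool.Agent.Helper789.HU5

open Set Topology Filter unitInterval

namespace Pool.Agent.Helper789.HU

lemma PropertyC.of_isClosedEmbedding {X Y : Type*} [TopologicalSpace X] [TopologicalSpace Y] (hX : PropertyC X)
    {e : Y → X} (he : IsClosedEmbedding e) : PropertyC Y := by
  intro U hU
  rcases isEmpty_or_nonempty Y with hYe | ⟨⟨y0⟩⟩
  · exact ⟨fun _ => ∅, fun n => ⟨by simp, by simp⟩, Subsingleton.elim _ _⟩
  obtain ⟨V, hV, hcov⟩ := hX (fun n => {G | IsOpen G ∧ ∃ u ∈ U n, e ⁻¹' G ⊆ u}) (fun n => by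
    refine ⟨fun G hG => hG.1, eq_univ_of_forall fun x => ?_⟩
    by_cases hx : x ∈ range e
    · obtain ⟨y, rfl⟩ := hx
      have h1 : y ∈ ⋃₀ U n := by rw [(hU n).2]; trivial
      obtain ⟨u, hu, hy⟩ := h1
      obtain ⟨G, hG, hGu⟩ := he.isInducing.isOpen_iff.1 ((hU n).1 u hu)
      refine ⟨G, ⟨hG, u, hu, hGu.subset⟩, ?_⟩
      have : y ∈ e ⁻¹' G := by rw [hGu]; exact hy
      exact this
    · have h1 : y0 ∈ ⋃₀ U n := by rw [(hU n).2]; trivial
      obtain ⟨u, hu, -⟩ := h1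
      refine ⟨(range e)ᶜ, ⟨he.isClosed_range.isOpen_compl, u, hu, ?_⟩, hx⟩
      intro y hy
      exact absurd (mem_range_self y) hy)
  refine ⟨fun n => (fun v => e ⁻¹' v) '' V n, fun n => ⟨?_, ?_⟩, ?_⟩
  · rintro _ ⟨v, hv, rfl⟩
    obtain ⟨hvo, G, ⟨-, u, hu, hGu⟩, hvG⟩ := (hV n).1 v hv
    exact ⟨hvo.preimage he.continuous, u, hu, (preimage_mono hvG).trans hGu⟩
  · rintro _ ⟨v, hv, rfl⟩ _ ⟨v', hv', rfl⟩ hne
    have hvv : v ≠ v' := by rintro rfl; exact hne rfl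
    exact Disjoint.preimage e ((hV n).2 hv hv' hvv)
  · refine eq_univ_of_forall fun y => ?_
    have h1 : e y ∈ ⋃ n, ⋃₀ V n := by rw [hcov]; trivial
    obtain ⟨n, v, hv, hy⟩ := mem_iUnion.1 h1
    exact mem_iUnion.2 ⟨n, _, ⟨v, hv, rfl⟩, hy⟩

lemma PropertyC.of_homeomorph {X Y : Type*} [TopologicalSpace X] [TopologicalSpace Y] (hX : PropertyC X)
    (e : Y ≃ₜ X) : PropertyC Y := hX.of_isClosedEmbedding e.isClosedEmbedding

/-- extension of a disjoint open family from a subspace -/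
lemma exists_extend {X : Type*} [MetricSpace X] (Y : Set X) (U : Set (Set X)) (hU : ∀ u ∈ U, IsOpen u)
    (V : Set (Set Y)) (hV : ∀ v ∈ V, IsOpen v ∧ ∃ u ∈ U, v ⊆ Subtype.val ⁻¹' u) (hd : V.PairwiseDisjoint id) :
    ∃ V' : Set (Set X), (∀ v ∈ V', IsOpen v ∧ ∃ u ∈ U, v ⊆ u) ∧ V'.PairwiseDisjoint id ∧ ∀ v ∈ V, ∀ y ∈ v, (y : X) ∈ ⋃₀ V' := by
  classical
  have hu : ∀ v : Set Y, ∃ u, v ∈ V → u ∈ U ∧ v ⊆ Subtype.val ⁻¹' u := by
    intro v
    by_cases hv : v ∈ V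
    · obtain ⟨u, hu, h1⟩ := (hV v hv).2
      exact ⟨u, fun _ => ⟨hu, h1⟩⟩
    · exact ⟨∅, fun h => absurd h hv⟩
  choose u hu using hu
  let O : Set Y → Set X := fun v => u v ∩ {x | Metric.infEDist x (Subtype.val '' v) < Metric.infEDist x (Y \ Subtype.val '' v)}
  refine ⟨O '' V, ?_, ?_, ?_⟩
  · rintro _ ⟨v, hv, rfl⟩
    exact ⟨(hU _ (hu v hv).1).inter (isOpen_lt Metric.continuous_infEDist Metric.continuous_infEDist), u v, (hu v hv).1, inter_subset_left⟩
  · rintro _ ⟨v, hv, rfl⟩ _ ⟨v', hv', rfl⟩ hne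
    have hvv : v ≠ v' := by rintro rfl; exact hne rfl
    have hd := hd hv hv' hvv
    rw [Function.onFun, id, id, Set.disjoint_left]
    rintro x ⟨-, h1⟩ ⟨-, h2⟩
    have s1 : Subtype.val '' v' ⊆ Y \ Subtype.val '' v := by
      rintro _ ⟨y, hy, rfl⟩
      refine ⟨y.2, ?_⟩
      rintro ⟨z, hz, hzy⟩
      rw [Subtype.ext hzy] at hz
      exact Set.disjoint_left.1 hd hz hy
    have s2 : Subtype.val '' v ⊆ Y \ Subtype.val '' v' := by
      rintro _ ⟨y, hy, rfl⟩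
      refine ⟨y.2, ?_⟩
      rintro ⟨z, hz, hzy⟩
      rw [Subtype.ext hzy] at hz
      exact Set.disjoint_left.1 hd hy hz
    have e1 := h1.trans_le (Metric.infEDist_anti (x := x) s1)
    have e2 := h2.trans_le (Metric.infEDist_anti (x := x) s2)
    exact lt_asymm e1 e2
  · rintro v hv ⟨x, hx⟩ hxv
    refine ⟨O v, ⟨v, hv, rfl⟩, (hu v hv).2 hxv, ?_⟩
    obtain ⟨G, hG, hGv⟩ := isOpen_induced_iff.1 (hV v hv).1
    have hxG : x ∈ G := by
      have : (⟨x, hx⟩ : Y) ∈ Subtype.val ⁻¹' G := by rw [hGv]; exact hxv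
      exact this
    have h2 : Metric.infEDist x (Subtype.val '' v) = 0 := Metric.infEDist_zero_of_mem ⟨_, hxv, rfl⟩
    have h3 : Metric.infEDist x (Y \ Subtype.val '' v) ≠ 0 := by
      rw [Ne, ← Metric.mem_closure_iff_infEDist_zero]
      intro hcl
      rw [mem_closure_iff] at hcl
      obtain ⟨z, hzG, hzY, hzv⟩ := hcl G hG hxG
      apply hzv
      have : (⟨z, hzY⟩ : Y) ∈ v := by rw [← hGv]; exact hzG
      exact ⟨_, this, rfl⟩
    show Metric.infEDist x (Subtype.val '' v) < Metric.infEDist x (Y \ Subtype.val '' v)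
    rw [h2]
    exact pos_iff_ne_zero.2 h3

lemma PropertyC.iUnion {X : Type*} [MetricSpace X] (Y : ℕ → Set X) (hY : (⋃ n, Y n) = univ)
    (h : ∀ n, PropertyC (Y n)) : PropertyC X := by
  intro U hU
  have h1 : ∀ k, ∃ V : ℕ → Set (Set (Y k)), (∀ n, (∀ v ∈ V n, IsOpen v ∧ ∃ u ∈ U (Nat.pair k n), v ⊆ Subtype.val ⁻¹' u) ∧
      (V n).PairwiseDisjoint id) ∧ (⋃ n, ⋃₀ V n) = univ := by
    intro k
    obtain ⟨V, hV, hcov⟩ := h k (fun n => (fun u => Subtype.val ⁻¹' u) '' U (Nat.pair k n)) (fun n => ⟨by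
      rintro _ ⟨u, hu, rfl⟩
      exact ((hU _).1 u hu).preimage continuous_subtype_val, eq_univ_of_forall fun x => by
      have h1 : x.1 ∈ ⋃₀ U (Nat.pair k n) := by rw [(hU _).2]; trivial
      obtain ⟨u, hu, hx⟩ := h1
      exact ⟨_, ⟨u, hu, rfl⟩, hx⟩⟩)
    refine ⟨V, fun n => ⟨fun v hv => ⟨((hV n).1 v hv).1, ?_⟩, (hV n).2⟩, hcov⟩
    obtain ⟨_, ⟨u, hu, rfl⟩, h2⟩ := ((hV n).1 v hv).2
    exact ⟨u, hu, h2⟩
  choose V hV hcov using h1
  choose V' hV' hd' hc' using fun k n => exists_extend (Y k) (U (Nat.pair k n)) (hU _).1 (V k n) (hV k n).1 (hV k n).2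
  refine ⟨fun m => V' m.unpair.1 m.unpair.2, fun m => ⟨?_, hd' _ _⟩, ?_⟩
  · have := hV' m.unpair.1 m.unpair.2
    rw [Nat.pair_unpair] at this
    exact this
  · refine eq_univ_of_forall fun x => ?_
    have h2 : x ∈ ⋃ n, Y n := by rw [hY]; trivial
    obtain ⟨k, hk⟩ := mem_iUnion.1 h2
    have h3 : (⟨x, hk⟩ : Y k) ∈ ⋃ n, ⋃₀ V k n := by rw [hcov]; trivial
    obtain ⟨n, v, hv, hx⟩ := mem_iUnion.1 h3
    refine mem_iUnion.2 ⟨Nat.pair k n, ?_⟩
    simp only [Nat.unpair_pair]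
    exact hc' k n v hv _ hx

lemma PropertyC.disjoint_union {X : Type*} [TopologicalSpace X] {J : Type*} (O : J → Set X) (ho : ∀ i, IsOpen (O i))
    (hd : ∀ i j, i ≠ j → Disjoint (O i) (O j)) (hc : (⋃ i, O i) = univ) (h : ∀ i, PropertyC (O i)) : PropertyC X := by
  intro U hU
  have h1 : ∀ k, ∃ V : ℕ → Set (Set (O k)), (∀ n, (∀ v ∈ V n, IsOpen v ∧ ∃ u ∈ U n, v ⊆ Subtype.val ⁻¹' u) ∧
      (V n).PairwiseDisjoint id) ∧ (⋃ n, ⋃₀ V n) = univ := by
    intro k
    obtain ⟨V, hV, hcov⟩ := h k (fun n => (fun u => Subtype.val ⁻¹' u) '' U n) (fun n => ⟨by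
      rintro _ ⟨u, hu, rfl⟩
      exact ((hU _).1 u hu).preimage continuous_subtype_val, eq_univ_of_forall fun x => by
      have h1 : x.1 ∈ ⋃₀ U n := by rw [(hU _).2]; trivial
      obtain ⟨u, hu, hx⟩ := h1
      exact ⟨_, ⟨u, hu, rfl⟩, hx⟩⟩)
    refine ⟨V, fun n => ⟨fun v hv => ⟨((hV n).1 v hv).1, ?_⟩, (hV n).2⟩, hcov⟩
    obtain ⟨_, ⟨u, hu, rfl⟩, h2⟩ := ((hV n).1 v hv).2
    exact ⟨u, hu, h2⟩
  choose V hV hcov using h1
  refine ⟨fun n => {S | ∃ k, ∃ v ∈ V k n, S = Subtype.val '' v}, fun n => ⟨?_, ?_⟩, ?_⟩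
  · rintro _ ⟨k, v, hv, rfl⟩
    refine ⟨(ho k).isOpenMap_subtype_val _ ((hV k n).1 v hv).1, ?_⟩
    obtain ⟨u, hu, h2⟩ := ((hV k n).1 v hv).2
    exact ⟨u, hu, image_subset_iff.2 h2⟩
  · rintro _ ⟨k, v, hv, rfl⟩ _ ⟨k', v', hv', rfl⟩ hne
    rw [Function.onFun, id, id, Set.disjoint_left]
    rintro _ ⟨y, hy, rfl⟩ ⟨y', hy', hyy⟩
    have hkk : k = k' := by
      by_contra hk
      exact Set.disjoint_left.1 (hd k k' hk) y.2 (hyy ▸ y'.2)
    subst hkk
    have hvv : v ≠ v' := by rintro rfl; exact hne rfl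
    rw [Subtype.ext hyy] at hy'
    exact Set.disjoint_left.1 ((hV k n).2 hv hv' hvv) hy hy'
  · refine eq_univ_of_forall fun x => ?_
    have h2 : x ∈ ⋃ n, O n := by rw [hc]; trivial
    obtain ⟨k, hk⟩ := mem_iUnion.1 h2
    have h3 : (⟨x, hk⟩ : O k) ∈ ⋃ n, ⋃₀ V k n := by rw [hcov]; trivial
    obtain ⟨n, v, hv, hx⟩ := mem_iUnion.1 h3
    exact mem_iUnion.2 ⟨n, _, ⟨k, v, hv, rfl⟩, ⟨_, hx, rfl⟩⟩

/-- the positive cube `(0,1]^A` -/
abbrev Cube (A : Type*) := {u : A → I // ∀ i, 0 < u i}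

lemma propertyC_of_subsingleton (X : Type*) [TopologicalSpace X] [Subsingleton X] : PropertyC X := by
  intro U hU
  rcases isEmpty_or_nonempty X with hYe | ⟨⟨y0⟩⟩
  · exact ⟨fun _ => ∅, fun n => ⟨by simp, by simp⟩, Subsingleton.elim _ _⟩
  refine ⟨fun n => {univ}, fun n => ⟨?_, pairwiseDisjoint_singleton _ _⟩, ?_⟩
  · rintro _ rfl
    refine ⟨isOpen_univ, ?_⟩
    have h1 : y0 ∈ ⋃₀ U n := by rw [(hU n).2]; trivial
    obtain ⟨u, hu, hy⟩ := h1
    exact ⟨u, hu, fun z _ => Subsingleton.elim y0 z ▸ hy⟩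
  · exact eq_univ_of_forall fun x => mem_iUnion.2 ⟨0, univ, rfl, trivial⟩

/-- reindexing the cube -/
def cubeCongr {α β : Type*} (e : α ≃ β) : Cube β ≃ₜ Cube α where
  toFun u := ⟨fun i => u.1 (e i), fun i => u.2 _⟩
  invFun u := ⟨fun i => u.1 (e.symm i), fun i => u.2 _⟩
  left_inv u := by ext i; simp
  right_inv u := by ext i; simp
  continuous_toFun := by
    refine Continuous.subtype_mk (continuous_pi fun i => ?_) _
    exact (continuous_apply (e i)).comp continuous_subtype_val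
  continuous_invFun := by
    refine Continuous.subtype_mk (continuous_pi fun i => ?_) _
    exact (continuous_apply (e.symm i)).comp continuous_subtype_val

/-- splitting off one coordinate -/
def cubeOption (α : Type*) : Cube (Option α) ≃ₜ Pos (Cube α) where
  toFun u := ⟨(⟨fun i => u.1 (some i), fun i => u.2 _⟩, u.1 none), u.2 _⟩
  invFun p := ⟨fun o => Option.elim o p.1.2 (fun i => p.1.1.1 i), fun o => by
    cases o with
    | none => exact p.2
    | some i => exact p.1.1.2 i⟩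
  left_inv u := by
    ext o
    cases o <;> rfl
  right_inv p := by rfl
  continuous_toFun := by
    refine Continuous.subtype_mk (Continuous.prodMk ?_ ?_) _
    · refine Continuous.subtype_mk (continuous_pi fun i => ?_) _
      exact (continuous_apply (some i)).comp continuous_subtype_val
    · exact (continuous_apply (none : Option α)).comp continuous_subtype_val
  continuous_invFun := by
    refine Continuous.subtype_mk (continuous_pi fun o => ?_) _
    cases o with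
    | none => exact continuous_snd.comp continuous_subtype_val
    | some i => exact (continuous_apply i).comp (continuous_subtype_val.comp (continuous_fst.comp continuous_subtype_val))

lemma propertyC_cube (A : Type*) [Finite A] : PropertyC (Cube A) := by
  induction A using Finite.induction_empty_option with
  | of_equiv e h => exact h.of_homeomorph (cubeCongr e)
  | h_empty =>
    have : Subsingleton (Cube PEmpty) := ⟨fun u v => Subtype.ext (funext fun i => i.elim)⟩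
    exact propertyC_of_subsingleton _
  | h_option h => 
    have := Fintype.ofFinite
    exact h.pos.of_homeomorph (cubeOption _)

end Pool.Agent.Helper789.HU
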