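import Mathlib
import Pool.Agent.Helper789.HU6

open Set Topology Filter unitInterval

namespace Pool.Agent.Helper789.HU

lemma PropertyC.strata {X : Type*} [MetricSpace X] {J : Type*} (Xs : J → Set X) (rk : J → ℕ) (hcov : (⋃ j, Xs j) = univ)
    (hdisj : ∀ i j, i ≠ j → Disjoint (Xs i) (Xs j))
    (hopen : ∀ j, ∀ x ∈ Xs j, ∃ δ > 0, ∀ y, dist y x < δ → ∀ j', y ∈ Xs j' → rk j' = rk j → j' = j)
    (h : ∀ j, PropertyC (Xs j)) : PropertyC X := by
  refine PropertyC.iUnion (fun n => ⋃ j, ⋃ (_ : rk j = n), Xs j) ?_ (fun n => ?_)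
  · rw [← univ_subset_iff, ← hcov]
    exact iUnion_subset fun j => subset_iUnion_of_subset (rk j) (subset_iUnion₂_of_subset j rfl le_rfl)
  · set Y : Set X := ⋃ j, ⋃ (_ : rk j = n), Xs j with hY
    have hmem : ∀ x : X, x ∈ Y ↔ ∃ j, rk j = n ∧ x ∈ Xs j := fun x => by rw [hY]; simp
    refine PropertyC.disjoint_union (X := Y) (fun j : J => {y : Y | y.1 ∈ Xs j}) ?_ ?_ ?_ ?_
    · intro j
      rw [Metric.isOpen_iff]
      rintro ⟨x, hx⟩ hxj
      obtain ⟨δ, hδ, hb⟩ := hopen j x hxj
      have hrk : rk j = n := by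
        obtain ⟨j', hj', hxj'⟩ := (hmem x).1 hx
        by_contra hne
        have : j ≠ j' := by rintro rfl; exact hne hj'
        exact Set.disjoint_left.1 (hdisj j j' this) hxj hxj'
      refine ⟨δ, hδ, fun y hy => ?_⟩
      obtain ⟨j', hj', hyj'⟩ := (hmem y.1).1 y.2
      have := hb y.1 hy j' hyj' (hj'.trans hrk.symm)
      rw [this] at hyj'
      exact hyj'
    · intro i j hij
      rw [Set.disjoint_left]
      intro y h1 h2
      exact Set.disjoint_left.1 (hdisj i j hij) h1 h2
    · refine eq_univ_of_forall fun y => ?_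
      obtain ⟨j, -, hj⟩ := (hmem y.1).1 y.2
      exact mem_iUnion.2 ⟨j, hj⟩
    · intro j
      by_cases hj : rk j = n
      · have hsub : ∀ x ∈ Xs j, x ∈ Y := fun x hx => (hmem x).2 ⟨j, hj, hx⟩
        let e : {y : Y | y.1 ∈ Xs j} ≃ₜ Xs j :=
          { toFun := fun y => ⟨y.1.1, y.2⟩
            invFun := fun x => ⟨⟨x.1, hsub x.1 x.2⟩, x.2⟩
            left_inv := fun y => rfl
            right_inv := fun x => rfl
            continuous_toFun := Continuous.subtype_mk (continuous_subtype_val.comp continuous_subtype_val) _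
            continuous_invFun := Continuous.subtype_mk (Continuous.subtype_mk continuous_subtype_val _) _ }
        exact (h j).of_homeomorph e
      · have : Subsingleton {y : Y | y.1 ∈ Xs j} := by
          refine ⟨fun y => ?_⟩
          exfalso
          obtain ⟨j', hj', hyj'⟩ := (hmem y.1.1).1 y.1.2
          have hne : j ≠ j' := by rintro rfl; exact hj hj'
          exact Set.disjoint_left.1 (hdisj j j' hne) y.2 hyj'
        exact propertyC_of_subsingleton _

/-- finitely supported real functions with the `ℓ¹` norm -/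
def Fs (J : Type*) := J →₀ ℝ

namespace Fs

variable {J : Type*}

instance : FunLike (Fs J) J ℝ := inferInstanceAs (FunLike (J →₀ ℝ) J ℝ)

/-- the `ℓ¹` norm -/
noncomputable def grpNorm (J : Type*) : AddGroupNorm (J →₀ ℝ) where
  toFun w := w.sum fun _ c => |c|
  map_zero' := by simp
  add_le' v w := by
    classical
    have h1 : (v + w).sum (fun _ c => |c|) = ∑ i ∈ v.support ∪ w.support, |(v + w) i| :=
      Finsupp.sum_of_support_subset _ Finsupp.support_add _ (by simp)
    have h2 : v.sum (fun _ c => |c|) = ∑ i ∈ v.support ∪ w.support, |v i| :=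
      Finsupp.sum_of_support_subset _ Finset.subset_union_left _ (by simp)
    have h3 : w.sum (fun _ c => |c|) = ∑ i ∈ v.support ∪ w.support, |w i| :=
      Finsupp.sum_of_support_subset _ Finset.subset_union_right _ (by simp)
    rw [h1, h2, h3, ← Finset.sum_add_distrib]
    exact Finset.sum_le_sum fun i _ => by rw [Finsupp.add_apply]; exact abs_add_le _ _
  neg' v := by
    rw [Finsupp.sum_neg_index (by simp)]
    simp
  eq_zero_of_map_eq_zero' v h := by
    ext i
    by_contra hne
    have hi : i ∈ v.support := Finsupp.mem_support_iff.2 hne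
    have h1 := (Finset.sum_eq_zero_iff_of_nonneg (fun j _ => abs_nonneg (v j))).1 h i hi
    exact hne (abs_eq_zero.1 h1)

noncomputable instance : NormedAddCommGroup (Fs J) := 
  fast_instance% (show NormedAddCommGroup (J →₀ ℝ) from (grpNorm J).toNormedAddCommGroup)
noncomputable instance : Module ℝ (Fs J) := inferInstanceAs (Module ℝ (J →₀ ℝ))

lemma norm_def (w : Fs J) : ‖w‖ = Finsupp.sum (w : J →₀ ℝ) fun _ c => |c| := rfl

lemma abs_apply_le (w : Fs J) (i : J) : |w i| ≤ ‖w‖ := by
  rw [norm_def]
  by_cases hi : i ∈ Finsupp.support (w : J →₀ ℝ)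
  · exact Finset.single_le_sum (f := fun j => |w j|) (fun j _ => abs_nonneg _) hi
  · have : w i = 0 := Finsupp.notMem_support_iff.1 hi
    rw [this, abs_zero]
    exact Finset.sum_nonneg fun j _ => abs_nonneg _

lemma sub_apply (v w : Fs J) (i : J) : (v - w) i = v i - w i := rfl

lemma continuous_apply' (i : J) : Continuous fun w : Fs J => w i := by
  rw [Metric.continuous_iff]
  intro w ε hε
  refine ⟨ε, hε, fun v hv => ?_⟩
  rw [dist_eq_norm] at hv
  rw [Real.dist_eq, ← sub_apply]
  exact (abs_apply_le _ _).trans_lt hv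

/-- one-point functions -/
noncomputable def single (i : J) (c : ℝ) : Fs J := (Finsupp.single i c : J →₀ ℝ)

lemma single_apply [DecidableEq J] (i j : J) (c : ℝ) : single i c j = if i = j then c else 0 := Finsupp.single_apply

lemma norm_single (i : J) (c : ℝ) : ‖single i c‖ = |c| := by
  rw [norm_def, single, Finsupp.sum_single_index (by simp)]

lemma single_sub (i : J) (c d : ℝ) : single i c - single i d = single i (c - d) := 
  (Finsupp.single_sub i c d).symm

lemma continuous_single (i : J) : Continuous (single i) := by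
  rw [Metric.continuous_iff]
  intro w ε hε
  refine ⟨ε, hε, fun v hv => ?_⟩
  rw [dist_eq_norm, single_sub, norm_single]
  exact hv

/-- the linear map with prescribed values on the basis vectors -/
noncomputable def lin {E : Type*} [NormedAddCommGroup E] [NormedSpace ℝ E] (y : J → E) : Fs J →ₗ[ℝ] E := 
  (Finsupp.linearCombination ℝ y : (J →₀ ℝ) →ₗ[ℝ] E)

section lin
variable {E : Type*} [NormedAddCommGroup E] [NormedSpace ℝ E] {y : J → E}

lemma lin_apply (w : Fs J) : lin y w = Finsupp.sum (w : J →₀ ℝ) fun i c => c • y i := rfl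

lemma norm_lin_le (hy : ∀ i, ‖y i‖ ≤ 1) (w : Fs J) : ‖lin y w‖ ≤ ‖w‖ := by
  rw [lin_apply, norm_def]
  refine (norm_sum_le _ _).trans (Finset.sum_le_sum fun i _ => ?_)
  rw [norm_smul, Real.norm_eq_abs]
  have := hy i
  exact mul_le_of_le_one_right (abs_nonneg _) this

lemma continuous_lin (hy : ∀ i, ‖y i‖ ≤ 1) : Continuous (lin y) := by
  rw [Metric.continuous_iff]
  intro w ε hε
  refine ⟨ε, hε, fun v hv => ?_⟩
  rw [dist_eq_norm] at hv ⊢
  rw [← map_sub]
  exact (norm_lin_le hy _).trans_lt hv

end lin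

end Fs

/-- nonzero finitely supported weights with values in `[0,1]` -/
abbrev Q1 (J : Type*) := {w : Fs J // (∀ i, 0 ≤ w i ∧ w i ≤ 1) ∧ w ≠ 0}

/-- the support of a weight -/
noncomputable def supp {J : Type*} (w : Fs J) : Finset J := Finsupp.support (w : J →₀ ℝ)

lemma mem_supp {J : Type*} (w : Fs J) (i : J) : i ∈ supp w ↔ w i ≠ 0 := Finsupp.mem_support_iff

/-- the weight with prescribed values on `A` -/
noncomputable def ofCube {J : Type*} (A : Finset J) (u : A → I) : Fs J := ∑ i : A, Fs.single i.1 (u i : ℝ)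

lemma ofCube_apply {J : Type*} (A : Finset J) (u : A → I) (j : J) (hj : j ∈ A) : ofCube A u j = u ⟨j, hj⟩ := by
  classical
  have h1 : ofCube A u j = ∑ i : A, Fs.single i.1 (u i : ℝ) j := by
    unfold ofCube
    exact Finsupp.finsetSum_apply _ _ _
  rw [h1, Finset.sum_eq_single ⟨j, hj⟩]
  · rw [Fs.single_apply, if_pos rfl]
  · intro b _ hb
    rw [Fs.single_apply, if_neg]
    intro h
    exact hb (Subtype.ext h)
  · intro h
    exact absurd (Finset.mem_univ _) h

lemma ofCube_apply_of_notMem {J : Type*} (A : Finset J) (u : A → I) (j : J) (hj : j ∉ A) : ofCube A u j = 0 := by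
  classical
  have h1 : ofCube A u j = ∑ i : A, Fs.single i.1 (u i : ℝ) j := by
    unfold ofCube
    exact Finsupp.finsetSum_apply _ _ _
  rw [h1]
  refine Finset.sum_eq_zero fun i _ => ?_
  rw [Fs.single_apply, if_neg]
  rintro rfl
  exact hj i.2

lemma continuous_ofCube {J : Type*} (A : Finset J) : Continuous (ofCube A) := by
  unfold ofCube
  refine continuous_finsetSum _ fun i _ => ?_
  exact (Fs.continuous_single i.1).comp (continuous_subtype_val.comp (continuous_apply i))

lemma supp_ofCube {J : Type*} (A : Finset J) (u : A → I) (hu : ∀ i, 0 < u i) : supp (ofCube A u) = A := by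
  ext j
  rw [mem_supp]
  by_cases hj : j ∈ A
  · rw [ofCube_apply A u j hj]
    have : (0 : ℝ) < u ⟨j, hj⟩ := hu ⟨j, hj⟩
    exact ⟨fun _ => hj, fun _ => this.ne'⟩
  · rw [ofCube_apply_of_notMem A u j hj]
    simp [hj]

/-- a stratum is a positive cube -/
noncomputable def stratum {J : Type*} (A : Finset J) (hA : A.Nonempty) : {w : Q1 J // supp w.1 = A} ≃ₜ Cube A where
  toFun w := ⟨fun i => ⟨w.1.1 i, w.1.2.1 i⟩, fun i => by
    have h1 : i.1 ∈ supp w.1.1 := by rw [w.2]; exact i.2
    have h2 : (0 : ℝ) < w.1.1 i := lt_of_le_of_ne (w.1.2.1 i).1 (Ne.symm ((mem_supp _ _).1 h1))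
    exact h2⟩
  invFun u := ⟨⟨ofCube A u.1, fun i => by
      by_cases hi : i ∈ A
      · rw [ofCube_apply A u.1 i hi]
        exact (u.1 ⟨i, hi⟩).2
      · rw [ofCube_apply_of_notMem A u.1 i hi]
        exact ⟨le_rfl, zero_le_one⟩, by
      intro h
      obtain ⟨i, hi⟩ := hA
      rw [← supp_ofCube A u.1 u.2, mem_supp, h] at hi
      exact hi rfl⟩, supp_ofCube A u.1 u.2⟩
  left_inv w := by
    apply Subtype.ext
    apply Subtype.ext
    apply DFunLike.ext
    intro j
    show ofCube A _ j = w.1.1 j
    by_cases hj : j ∈ A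
    · rw [ofCube_apply A _ j hj]
    · rw [ofCube_apply_of_notMem A _ j hj]
      rw [← w.2, mem_supp, not_not] at hj
      exact hj.symm
  right_inv u := by
    apply Subtype.ext
    funext i
    apply Subtype.ext
    exact ofCube_apply A u.1 i.1 i.2
  continuous_toFun := by
    refine Continuous.subtype_mk (continuous_pi fun i => ?_) _
    refine Continuous.subtype_mk ?_ _
    exact (Fs.continuous_apply' i.1).comp (continuous_subtype_val.comp continuous_subtype_val)
  continuous_invFun := by
    refine Continuous.subtype_mk (Continuous.subtype_mk ?_ _) _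
    exact (continuous_ofCube A).comp continuous_subtype_val

lemma propertyC_Q1 (J : Type*) : PropertyC (Q1 J) := by
  classical
  refine PropertyC.strata (J := Finset J) (fun A => {w : Q1 J | supp w.1 = A}) Finset.card ?_ ?_ ?_ ?_
  · exact eq_univ_of_forall fun w => mem_iUnion.2 ⟨supp w.1, rfl⟩
  · intro A B hAB
    rw [Set.disjoint_left]
    intro w h1 h2
    exact hAB (Eq.trans (Eq.symm h1) h2)
  · rintro A w hw
    have hw' : supp w.1 = A := hw
    have hne : A.Nonempty := by
      rw [← hw', Finset.nonempty_iff_ne_empty]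
      intro h
      exact w.2.2 (Finsupp.support_eq_empty.1 h)
    obtain ⟨i0, hi0, hmin⟩ := Finset.exists_min_image A (fun i => w.1 i) hne
    have hpos : 0 < w.1 i0 := lt_of_le_of_ne (w.2.1 i0).1 (Ne.symm ((mem_supp _ _).1 (hw' ▸ hi0)))
    refine ⟨w.1 i0, hpos, fun v hv B hvB hcard => ?_⟩
    have hvB' : supp v.1 = B := hvB
    symm
    apply Finset.eq_of_subset_of_card_le _ (by omega)
    intro i hi
    rw [← hvB', mem_supp]
    intro h0
    have h1 : |w.1 i - v.1 i| ≤ ‖w.1 - v.1‖ := Fs.abs_apply_le (w.1 - v.1) i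
    have h2 : dist v w = ‖w.1 - v.1‖ := by rw [dist_comm, Subtype.dist_eq, dist_eq_norm]
    rw [h0, sub_zero, abs_of_nonneg (w.2.1 i).1] at h1
    have := hmin i hi
    rw [h2] at hv
    linarith
  · intro A
    rcases A.eq_empty_or_nonempty with hA | hA
    · have : Subsingleton {w : Q1 J | supp w.1 = A} := by
        refine ⟨fun w => ?_⟩
        exfalso
        have hw : supp w.1.1 = A := w.2
        exact w.1.2.2 (Finsupp.support_eq_empty.1 (hw.trans hA))
      exact propertyC_of_subsingleton _
    · exact (propertyC_cube A).of_homeomorph (stratum A hA)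

end Pool.Agent.Helper789.HU
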