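import Mathlib
import Pool.Agent.Helper789.HU4
import Pool.Agent.Helper789.HU7

open Set Topology Filter unitInterval

universe u

namespace Pool.Agent.Helper789.HU

variable {M : Type*} [MetricSpace M]

/-- the core construction over a base with property C -/
theorem Unstable.core {a : M} (ha : Unstable a) {P : Type*} [MetricSpace P] (hP : PropertyC P) (π : C(P, M)) (c0 : C(P, ℝ))
    (hc0 : ∀ p, 0 < c0 p) : ∃ F : P → M, Continuous F ∧ (∀ p, F p ≠ a) ∧ ∀ p, dist (F p) (π p) < 2 * Real.exp (-(c0 p)) := by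
  classical
  choose h hc hprop using fun m : ℕ => ha (Real.exp (-m)) (Real.exp_pos _)
  have h0 : ∀ m x, h m (x, 0) = x := fun m x => (hprop m x 0).1
  have hd : ∀ m x t, dist x (h m (x, t)) < Real.exp (-m) := fun m x t => (hprop m x t).2.1
  have h1 : ∀ m x, h m (x, 1) ≠ a := fun m x => (hprop m x 0).2.2
  obtain ⟨c, hc00, hcs⟩ := exists_seq (a := a) hc h1 π c0
  have hcpos : ∀ n p, 0 < c n p := by
    intro n p
    induction n with
    | zero => rw [hc00]; exact hc0 p
    | succ n ih => linarith [(hcs n).1 p]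
  obtain ⟨W, μ, hWo, hWcov, hμ⟩ := hP.labels (fun n m => {q | c n q < m ∧ (m : ℝ) < c n q + 2})
    (fun n m => (isOpen_lt (c n).continuous continuous_const).inter 
      (isOpen_lt continuous_const ((c n).continuous.add continuous_const)))
    (fun n => eq_univ_of_forall fun q => mem_iUnion.2 ⟨⌊c n q⌋₊ + 1, by
      have h2 := Nat.lt_floor_add_one (c n q)
      have h3 := Nat.floor_le (hcpos n q).le
      refine ⟨by push_cast; exact h2, by push_cast; linarith⟩⟩)
  obtain ⟨f, hf⟩ := BumpCovering.exists_isSubordinate (s := univ) isClosed_univ W hWo (by rw [hWcov])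
  refine ⟨lim h f μ π, continuous_lim hc h0 π.continuous hf (fun n p hp => (hμ n p hp).2), fun p => ?_, fun p => ?_⟩
  · exact lim_ne h0 hd hf (fun n p hp => (hμ n p hp).1.1) (fun n p hp => (hμ n p hp).1.2) (fun n p => (hcs n).1 p)
        (fun n p => (hcs n).2 p) (mem_univ p)
  · rw [← hc00]
    exact dist_lim h0 hd hf (fun n p hp => (hμ n p hp).1.1) (fun n p => (hcs n).1 p) p

/-- small factorisations through a space with property C suffice -/
theorem Unstable.condH_of_factor {a : M} (ha : Unstable a) {Q : Type*} [MetricSpace Q] (hQ : PropertyC Q) (g : Pos M → Q)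
    (hg : Continuous g) (π : Q → M) (hπ : Continuous π) (hclose : ∀ p : Pos M, dist (π (g p)) p.1.1 ≤ p.1.2) : CondH a := by
  have htc : Continuous fun p : Pos Q => (p.1.2 : ℝ) :=
    continuous_subtype_val.comp (continuous_snd.comp continuous_subtype_val)
  have htpos : ∀ p : Pos Q, (0 : ℝ) < p.1.2 := fun p => p.2
  let c0 : C(Pos Q, ℝ) := ⟨fun p => 1 / (p.1.2 : ℝ) + Real.log 2, 
    (continuous_const.div htc (fun p => (htpos p).ne')).add continuous_const⟩
  let π' : C(Pos Q, M) := ⟨fun p => π p.1.1, hπ.comp (continuous_fst.comp continuous_subtype_val)⟩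
  obtain ⟨F, hF, hne, hdist⟩ := ha.core hQ.pos π' c0 (fun p => by
    have h1 := htpos p
    have h2 : 0 < Real.log 2 := Real.log_pos (by norm_num)
    have : c0 p = 1 / (p.1.2 : ℝ) + Real.log 2 := rfl
    rw [this]
    positivity)
  refine CondH.of_pos (fun p => F ⟨(g p, p.1.2), p.2⟩) (hF.comp ?_) (fun p => hne _) (fun p => ?_)
  · exact Continuous.subtype_mk (hg.prodMk (continuous_snd.comp continuous_subtype_val)) _
  · have h1 := (hdist ⟨(g p, p.1.2), p.2⟩).le
    have e1 : c0 ⟨(g p, p.1.2), p.2⟩ = 1 / (p.1.2 : ℝ) + Real.log 2 := rfl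
    have e2 : π' ⟨(g p, p.1.2), p.2⟩ = π (g p) := rfl
    rw [e1, e2] at h1
    have h2 : (0 : ℝ) < p.1.2 := p.2
    have h3 : 2 * Real.exp (-(1 / (p.1.2 : ℝ) + Real.log 2)) ≤ p.1.2 := by
      rw [neg_add, Real.exp_add, Real.exp_neg (Real.log 2), Real.exp_log (by norm_num)]
      have h4 : 1 / (p.1.2 : ℝ) ≤ Real.exp (1 / (p.1.2 : ℝ)) := by
        have := Real.add_one_le_exp (1 / (p.1.2 : ℝ))
        linarith
      have h5 : Real.exp (-(1 / (p.1.2 : ℝ))) ≤ p.1.2 := by
        rw [Real.exp_neg, inv_le_comm₀ (Real.exp_pos _) h2, ← one_div]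
        exact h4
      linarith
    have h6 := hclose p
    have h7 := dist_triangle (F ⟨(g p, p.1.2), p.2⟩) (π (g p)) p.1.1
    linarith

/-- Absolute neighbourhood retract (for metric spaces). -/
def IsANR (M : Type u) [MetricSpace M] : Prop :=
  ∀ (Y : Type u) [MetricSpace Y] (e : M → Y), IsClosedEmbedding e →
    ∃ (O : Set Y) (r : O → M), IsOpen O ∧ range e ⊆ O ∧ Continuous r ∧ ∀ x (hx : e x ∈ O), r ⟨e x, hx⟩ = x

end Pool.Agent.Helper789.HU
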