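import Mathlib
import Pool.Agent.Helper789.HU8

open Set Topology Filter unitInterval BoundedContinuousFunction

universe u

namespace Pool.Agent.Helper789.HU

section kur

variable {M : Type u} [MetricSpace M]

/-- the bounded Kuratowski map -/
noncomputable def kur (x : M) : M →ᵇ ℝ :=
  BoundedContinuousFunction.ofNormedAddCommGroup (fun z => min (dist x z) 1) (by fun_prop) 1 (fun z => by
    rw [Real.norm_eq_abs, abs_of_nonneg (le_min dist_nonneg zero_le_one)]
    exact min_le_right _ _)

lemma kur_apply (x z : M) : kur x z = min (dist x z) 1 := rfl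

lemma norm_kur_le (x : M) : ‖kur x‖ ≤ 1 := by
  rw [BoundedContinuousFunction.norm_le zero_le_one]
  intro z
  rw [kur_apply, Real.norm_eq_abs, abs_of_nonneg (le_min dist_nonneg zero_le_one)]
  exact min_le_right _ _

lemma dist_kur_le (x y : M) : dist (kur x) (kur y) ≤ dist x y := by
  rw [BoundedContinuousFunction.dist_le dist_nonneg]
  intro z
  rw [kur_apply, kur_apply, Real.dist_eq]
  refine (abs_min_sub_min_le_max _ _ _ _).trans ?_
  rw [sub_self, abs_zero, max_eq_left (abs_nonneg _)]
  exact abs_dist_sub_le _ _ _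

lemma min_dist_le (x y : M) : min (dist x y) 1 ≤ dist (kur x) (kur y) := by
  have h := BoundedContinuousFunction.dist_coe_le_dist (f := kur x) (g := kur y) y
  rw [kur_apply, kur_apply, dist_self, Real.dist_eq, min_eq_left zero_le_one, sub_zero, 
    abs_of_nonneg (le_min dist_nonneg zero_le_one)] at h
  exact h

/-- the convex hull of the image of the Kuratowski map -/
abbrev Hull (M : Type u) [MetricSpace M] := {y : M →ᵇ ℝ // y ∈ convexHull ℝ (range (kur : M → M →ᵇ ℝ))}

/-- the embedding in the hull -/
noncomputable def emb (x : M) : Hull M := ⟨kur x, subset_convexHull _ _ (mem_range_self x)⟩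

lemma dist_emb_lt {x y : M} {ε : ℝ} (h : dist (emb y) (emb x) < min ε 1) : dist y x < ε := by
  have h1 : min (dist y x) 1 < min ε 1 := (min_dist_le y x).trans_lt h
  by_contra hcon
  push Not at hcon
  exact absurd h1 (not_lt.2 (min_le_min_right 1 hcon))

lemma eq_of_dist_zero_closure {y : Hull M} (hy : y ∈ closure (range (emb : M → Hull M))) : y ∈ range (emb : M → Hull M) := by
  obtain ⟨y, hyc⟩ := y
  obtain ⟨ι, hι, w, z, hw0, hw1, hz, hsum⟩ := mem_convexHull_iff_exists_fintype.1 hyc
  choose x hx using hz
  obtain ⟨j, hj⟩ : ∃ j, 0 < w j := by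
    by_contra hcon
    push Not at hcon
    have : ∑ i, w i ≤ 0 := Finset.sum_nonpos fun i _ => hcon i
    linarith
  refine ⟨x j, Subtype.ext ?_⟩
  show kur (x j) = y
  by_contra hne
  have hD : 0 < dist y (kur (x j)) := dist_pos.2 (Ne.symm hne)
  set D := dist y (kur (x j)) with hDdef
  have hpos : 0 < 1 + 1 / w j := by positivity
  set δ : ℝ := min (w j / 2) (D / (2 * (1 + 1 / w j))) with hδ
  have hδpos : 0 < δ := lt_min (by positivity) (by positivity)
  obtain ⟨_, ⟨x', rfl⟩, hx'⟩ := Metric.mem_closure_iff.1 hy δ hδpos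
  have hx'' : dist y (kur x') < δ := hx'
  have h1 : |y x' - kur x' x'| ≤ dist y (kur x') := by
    rw [← Real.dist_eq]
    exact BoundedContinuousFunction.dist_coe_le_dist x'
  have h2 : kur x' x' = 0 := by rw [kur_apply, dist_self, min_eq_left zero_le_one]
  have h3 : y x' = ∑ i, w i * min (dist (x i) x') 1 := by
    rw [← hsum]
    have e1 : (∑ i, w i • z i) x' = ∑ i, (w i • z i) x' := by
      exact BoundedContinuousFunction.sum_apply _ _ _
    rw [e1]
    refine Finset.sum_congr rfl fun i _ => ?_
    rw [← hx i]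
    rfl
  have h4 : w j * min (dist (x j) x') 1 ≤ y x' := by
    rw [h3]
    exact Finset.single_le_sum (f := fun i => w i * min (dist (x i) x') 1) 
      (fun i _ => mul_nonneg (hw0 i) (le_min dist_nonneg zero_le_one)) (Finset.mem_univ j)
  rw [h2, sub_zero] at h1
  have h5 : w j * min (dist (x j) x') 1 < δ := by
    have := le_abs_self (y x')
    linarith
  have h6 : min (dist (x j) x') 1 < δ / w j := by
    rw [lt_div_iff₀ hj]; linarith
  have h7 : δ / w j ≤ 1 / 2 := by
    rw [div_le_iff₀ hj]
    have := min_le_left (w j / 2) (D / (2 * (1 + 1 / w j)))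
    linarith
  have h8 : dist (x j) x' < δ / w j := by
    rcases min_lt_iff.1 h6 with h | h
    · exact h
    · linarith
  have h9 : D < δ + δ / w j := by
    calc D ≤ dist y (kur x') + dist (kur x') (kur (x j)) := dist_triangle _ _ _
      _ < δ + δ / w j := by
        have := dist_kur_le x' (x j)
        rw [dist_comm x'] at this
        linarith
  have h10 : δ + δ / w j ≤ D / 2 := by
    have h11 : δ ≤ D / (2 * (1 + 1 / w j)) := min_le_right _ _
    rw [le_div_iff₀ (by positivity)] at h11
    have : δ + δ / w j = δ * (1 + 1 / w j) := by ring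
    rw [this]
    linarith
  linarith

lemma isClosedEmbedding_emb : IsClosedEmbedding (emb : M → Hull M) := by
  have hcont : Continuous (emb : M → Hull M) := by
    rw [Metric.continuous_iff]
    intro x ε hε
    exact ⟨ε, hε, fun y hy => (dist_kur_le y x).trans_lt hy⟩
  have hinj : Function.Injective (emb : M → Hull M) := by
    intro x y hxy
    by_contra hne
    have h1 : 0 < dist x y := dist_pos.2 hne
    have h2 := dist_emb_lt (x := y) (y := x) (ε := dist x y) (by rw [hxy, dist_self]; exact lt_min h1 one_pos)
    exact lt_irrefl _ h2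
  refine ⟨⟨?_, hinj⟩, ?_⟩
  · rw [isInducing_iff_nhds]
    intro x
    refine le_antisymm hcont.continuousAt.le_comap ?_
    intro s hs
    obtain ⟨ε, hε, hb⟩ := Metric.mem_nhds_iff.1 hs
    refine ⟨Metric.ball (emb x) (min ε 1), Metric.ball_mem_nhds _ (lt_min hε one_pos), fun y hy => hb (dist_emb_lt hy)⟩
  · rw [← closure_subset_iff_isClosed]
    exact fun y hy => eq_of_dist_zero_closure hy

end kur

end Pool.Agent.Helper789.HU
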