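import Mathlib
import Pool.Agent.Helper789.HU9

open Set Topology Filter unitInterval BoundedContinuousFunction

universe u

namespace Pool.Agent.Helper789.HU

lemma lin_one_pos {J : Type*} (w : Q1 J) : 0 < Fs.lin (fun _ => (1 : ℝ)) w.1 := by
  have h0 : Fs.lin (fun _ => (1 : ℝ)) w.1 = ∑ i ∈ supp w.1, w.1 i • (1 : ℝ) := rfl
  rw [h0]
  apply Finset.sum_pos
  · intro i hi
    rw [smul_eq_mul, mul_one]
    exact lt_of_le_of_ne (w.2.1 i).1 (Ne.symm ((mem_supp _ _).1 hi))
  · rw [Finset.nonempty_iff_ne_empty]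
    intro h
    exact w.2.2 (Finsupp.support_eq_empty.1 h)

lemma center_mem {J : Type*} {E : Type*} [NormedAddCommGroup E] [NormedSpace ℝ E] {C : Set E} (hC : Convex ℝ C) (y : J → E)
    (w : Q1 J) (h : ∀ i, w.1 i ≠ 0 → y i ∈ C) : (Fs.lin (fun _ => (1 : ℝ)) w.1)⁻¹ • Fs.lin y w.1 ∈ C := by
  have h1 := lin_one_pos w
  have h2 : Fs.lin (fun _ => (1 : ℝ)) w.1 = ∑ i ∈ supp w.1, w.1 i := by
    have h0 : Fs.lin (fun _ => (1 : ℝ)) w.1 = ∑ i ∈ supp w.1, w.1 i • (1 : ℝ) := rfl
    rw [h0]
    exact Finset.sum_congr rfl fun i _ => by rw [smul_eq_mul, mul_one]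
  have h3 : Fs.lin y w.1 = ∑ i ∈ supp w.1, w.1 i • y i := rfl
  have := hC.centerMass_mem (t := supp w.1) (w := fun i => w.1 i) (z := y) (fun i _ => (w.2.1 i).1) (by rw [← h2]; exact h1)
    (fun i hi => h i ((mem_supp _ _).1 hi))
  rw [Finset.centerMass, ← h2, ← h3] at this
  exact this

section g

variable {P : Type*} [TopologicalSpace P] {J : Type*}

/-- the map to the space of weights given by a bump covering -/
noncomputable def gfun (f : BumpCovering J P univ) (p : P) : Fs J := Finsupp.ofSupportFinite (fun i => f i p) (f.point_finite p)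

lemma gfun_apply (f : BumpCovering J P univ) (p : P) (i : J) : gfun f p i = f i p := rfl

lemma continuous_gfun (f : BumpCovering J P univ) : Continuous (gfun f) := by
  classical
  rw [continuous_iff_continuousAt]
  intro p
  obtain ⟨t, ht, hfin⟩ := f.locallyFinite p
  have h1 : ContinuousAt (fun q => ∑ i ∈ hfin.toFinset, Fs.single i (f i q)) p := by
    apply Continuous.continuousAt
    refine continuous_finsetSum _ fun i _ => ?_
    exact (Fs.continuous_single i).comp (f i).continuous
  refine h1.congr ?_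
  filter_upwards [ht] with q hq
  apply DFunLike.ext
  intro j
  rw [gfun_apply]
  have h2 : (∑ i ∈ hfin.toFinset, Fs.single i (f i q)) j = ∑ i ∈ hfin.toFinset, Fs.single i (f i q) j := 
    Finsupp.finsetSum_apply _ _ _
  rw [h2]
  simp_rw [Fs.single_apply]
  rw [Finset.sum_ite_eq']
  split_ifs with h
  · rfl
  · by_contra hne
    apply h
    rw [Set.Finite.mem_toFinset]
    exact ⟨q, fun h0 => hne h0.symm, hq⟩

lemma gfun_ne_zero (f : BumpCovering J P univ) (p : P) : gfun f p ≠ 0 := by
  obtain ⟨i, hi⟩ := f.eventuallyEq_one' p (mem_univ _)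
  intro h
  have h1 : gfun f p i = 0 := by rw [h]; rfl
  rw [gfun_apply] at h1
  have h2 : f i p = 1 := hi.self_of_nhds
  rw [h1] at h2
  exact zero_ne_one h2

/-- the same, in the space `Q1` -/
noncomputable def gQ (f : BumpCovering J P univ) (p : P) : Q1 J :=
  ⟨gfun f p, fun i => ⟨f.nonneg i p, f.le_one i p⟩, gfun_ne_zero f p⟩

lemma continuous_gQ (f : BumpCovering J P univ) : Continuous (gQ f) := Continuous.subtype_mk (continuous_gfun f) _

end g

section anr

variable {M : Type u} [MetricSpace M]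

/-- normalised combination, as a point of the hull -/
noncomputable def comb (w : Q1 (Pos M)) : Hull M :=
  ⟨(Fs.lin (fun _ => (1 : ℝ)) w.1)⁻¹ • Fs.lin (fun i : Pos M => kur i.1.1) w.1, 
    center_mem (convex_convexHull ℝ _) _ w fun i _ => subset_convexHull _ _ (mem_range_self _)⟩

lemma continuous_comb : Continuous (comb : Q1 (Pos M) → Hull M) := by
  refine Continuous.subtype_mk ?_ _
  have h1 : Continuous fun w : Q1 (Pos M) => Fs.lin (fun _ => (1 : ℝ)) w.1 :=
    (Fs.continuous_lin (fun _ => by simp)).comp continuous_subtype_val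
  have h2 : Continuous fun w : Q1 (Pos M) => Fs.lin (fun i : Pos M => kur i.1.1) w.1 :=
    (Fs.continuous_lin (fun _ => norm_kur_le _)).comp continuous_subtype_val
  exact (h1.inv₀ fun w => (lin_one_pos w).ne').smul h2

theorem Unstable.condH_of_isANR {a : M} (hM : IsANR M) (ha : Unstable a) : CondH a := by
  classical
  obtain ⟨O, r, hO, hrange, hr, hre⟩ := hM (Hull M) emb isClosedEmbedding_emb
  obtain ⟨u, hu, hru, huO⟩ := normal_exists_closure_subset isClosedEmbedding_emb.isClosed_range hO hrange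
  have hδ : ∀ p : Pos M, ∃ δ > 0, ∀ y : Hull M, dist y (emb p.1.1) < 3 * δ → ∃ hy : y ∈ u, 
      dist (r ⟨y, huO (subset_closure hy)⟩) p.1.1 < (p.1.2 : ℝ) / 4 := by
    intro p
    have ht : (0 : ℝ) < p.1.2 := p.2
    have hxO : emb p.1.1 ∈ O := hrange (mem_range_self _)
    obtain ⟨ε, hε, h1⟩ := Metric.continuous_iff.1 hr ⟨emb p.1.1, hxO⟩ ((p.1.2 : ℝ) / 4) (by positivity)
    obtain ⟨ε', hε', h2⟩ := Metric.isOpen_iff.1 hu (emb p.1.1) (hru (mem_range_self _))
    refine ⟨min ε ε' / 3, by positivity, fun y hy => ?_⟩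
    have hy' : dist y (emb p.1.1) < min ε ε' := by linarith
    refine ⟨h2 (hy'.trans_le (min_le_right _ _)), ?_⟩
    have h3 := h1 ⟨y, huO (subset_closure (h2 (hy'.trans_le (min_le_right _ _))))⟩ (hy'.trans_le (min_le_left _ _))
    rw [hre] at h3
    exact h3
  choose δ hδpos hball using hδ
  have htc : Continuous fun p : Pos M => (p.1.2 : ℝ) :=
    continuous_subtype_val.comp (continuous_snd.comp continuous_subtype_val)
  have hxc : Continuous fun p : Pos M => emb p.1.1 :=
    isClosedEmbedding_emb.continuous.comp (continuous_fst.comp continuous_subtype_val)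
  let B : Pos M → Set (Pos M) := fun i => {p | dist (emb p.1.1) (emb i.1.1) < δ i ∧ (i.1.2 : ℝ) / 2 < p.1.2}
  have hBo : ∀ i, IsOpen (B i) := fun i => (isOpen_lt (hxc.dist continuous_const) continuous_const).inter (isOpen_lt continuous_const htc)
  have hBc : (univ : Set (Pos M)) ⊆ ⋃ i, B i := by
    intro p _
    refine mem_iUnion.2 ⟨p, ?_, ?_⟩
    · rw [dist_self]; exact hδpos p
    · have : (0 : ℝ) < p.1.2 := p.2
      linarith
  obtain ⟨f, hf⟩ := BumpCovering.exists_isSubordinate isClosed_univ B hBo hBc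
  have hmemB : ∀ p i, f i p ≠ 0 → p ∈ B i := fun p i hi => hf i (subset_closure hi)
  -- the key estimate
  have key : ∀ p : Pos M, ∃ hy : comb (gQ f p) ∈ u, dist (r ⟨comb (gQ f p), huO (subset_closure hy)⟩) p.1.1 ≤ p.1.2 := by
    intro p
    obtain ⟨j, hj⟩ := f.eventuallyEq_one' p (mem_univ _)
    have hj1 : f j p = 1 := hj.self_of_nhds
    have hne : (supp (gQ f p).1).Nonempty := ⟨j, (mem_supp _ _).2 (by
      show f j p ≠ 0
      rw [hj1]; exact one_ne_zero)⟩
    obtain ⟨i0, hi0, hmax⟩ := Finset.exists_max_image _ δ hne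
    have hi0' : p ∈ B i0 := hmemB p i0 ((mem_supp _ _).1 hi0)
    have h1 : (comb (gQ f p)).1 ∈ Metric.ball (kur i0.1.1) (3 * δ i0) := by
      refine center_mem (convex_ball _ _) _ _ fun i hi => ?_
      have hiB := hmemB p i hi
      have hi' := hmax i ((mem_supp _ _).2 hi)
      rw [Metric.mem_ball]
      have e1 : dist (kur p.1.1) (kur i.1.1) < δ i := hiB.1
      have e2 : dist (kur p.1.1) (kur i0.1.1) < δ i0 := hi0'.1
      have e3 := dist_triangle (kur i.1.1) (kur p.1.1) (kur i0.1.1)
      rw [dist_comm (kur i.1.1) (kur p.1.1)] at e3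
      have := hδpos i0
      linarith
    obtain ⟨hy, hd⟩ := hball i0 (comb (gQ f p)) h1
    refine ⟨hy, ?_⟩
    have h2 : dist (emb p.1.1) (emb i0.1.1) < 3 * δ i0 := by
      have := hi0'.1
      have := hδpos i0
      linarith
    obtain ⟨hy', hd'⟩ := hball i0 (emb p.1.1) h2
    rw [hre] at hd'
    have h3 := hi0'.2
    have h4 := dist_triangle (r ⟨comb (gQ f p), huO (subset_closure hy)⟩) i0.1.1 p.1.1
    rw [dist_comm i0.1.1] at h4
    linarith
  -- the intermediate space
  have hcl : IsClosed {w : Q1 (Pos M) | comb w ∈ closure u} := isClosed_closure.preimage continuous_comb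
  have hQC : PropertyC {w : Q1 (Pos M) | comb w ∈ closure u} := (propertyC_Q1 (Pos M)).of_isClosedEmbedding hcl.isClosedEmbedding_subtypeVal
  refine ha.condH_of_factor (Q := {w : Q1 (Pos M) | comb w ∈ closure u}) hQC (fun p => ⟨gQ f p, subset_closure (key p).1⟩)
    (Continuous.subtype_mk (continuous_gQ f) _) (fun w => r ⟨comb w.1, huO w.2⟩) ?_ ?_
  · exact hr.comp (Continuous.subtype_mk (continuous_comb.comp continuous_subtype_val) _)
  · intro p
    exact (key p).2

end anr

end Pool.Agent.Helper789.HU
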