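import Mathlib
import Pool.Agent.Helper789.HU8

open Set Topology Filter unitInterval

universe u v

namespace Pool.Agent.Helper789.HU

/-- An adaptable space: thresholds and locally constant labels can be chosen one after the other, for every rule
`nx` which produces a new threshold from an upper bound of the labels used so far. -/
def Adapt (P : Type*) [TopologicalSpace P] : Prop :=
  ∀ (nx : ℕ → C(P, ℝ) → C(P, ℝ)) (c0 : C(P, ℝ)), ∃ (c b : ℕ → C(P, ℝ)) (W : ℕ → Set P) (μ : ℕ → P → ℕ),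
    (∀ p, c0 p ≤ c 0 p) ∧ (∀ n p, c n p + 2 ≤ b n p) ∧ (∀ n p, b n p ≤ c (n + 1) p) ∧ (∀ n p, nx n (b n) p ≤ c (n + 1) p) ∧
    (∀ n, IsOpen (W n)) ∧ (⋃ n, W n) = univ ∧
    ∀ n, ∀ p ∈ W n, (c n p < μ n p ∧ (μ n p : ℝ) < b n p) ∧ ∀ᶠ q in 𝓝 p, μ n q = μ n p

section lim_ne'

variable {M : Type*} [MetricSpace M] {P : Type*} [TopologicalSpace P] {s : Set P}
variable {h : ℕ → M × I → M} {f : BumpCovering ℕ P s} {μ : ℕ → P → ℕ} {π : P → M}
variable {c b : ℕ → C(P, ℝ)} {W : ℕ → Set P}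

lemma lim_ne' (h0 : ∀ m x, h m (x, 0) = x) (hε : ∀ m x t, dist x (h m (x, t)) < Real.exp (-m)) 
    (hW : f.IsSubordinate W) (hlow : ∀ n, ∀ p ∈ W n, c n p < μ n p) (hupp : ∀ n, ∀ p ∈ W n, μ n p < b n p)
    (hcb : ∀ n p, c n p + 2 ≤ b n p) (hbc : ∀ n p, b n p ≤ c (n + 1) p) {a : M}
    (hgood : ∀ n p, ∀ L : ℕ, (L : ℝ) ≤ b n p → Good h a L (2 * Real.exp (-(c (n + 1) p))) n (π p)) {p : P} (hp : p ∈ s) :
    lim h f μ π p ≠ a := by
  have hcs : ∀ n p, c n p + 2 ≤ c (n + 1) p := fun n p => (hcb n p).trans (hbc n p)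
  obtain ⟨i, hi⟩ := f.eventuallyEq_one' p hp
  have hi1 : f i p = 1 := hi.self_of_nhds
  have hpW : ∀ j, f j p ≠ 0 → p ∈ W j := fun j hj => hW j (subset_closure hj)
  have hpi : p ∈ W i := hpW i (by rw [hi1]; exact one_ne_zero)
  have hm : Monotone fun n => b n p := monotone_nat_of_le_succ (fun n => by linarith [hcb (n + 1) p, hbc n p])
  have hmono : ∀ j ≤ i, b j p ≤ b i p := fun j hj => hm hj
  set L : ℕ := ⌊b i p⌋₊ with hL
  set δ : ℝ := 2 * Real.exp (-(c (i + 1) p)) with hδ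
  have hcpos : 0 ≤ b i p := by
    have := hupp i p hpi
    have h2 : (0 : ℝ) ≤ μ i p := Nat.cast_nonneg _
    linarith
  have hlabel : ∀ j ≤ i, p ∈ W j → μ j p ≤ L := by
    intro j hj hpj
    rw [hL]
    apply Nat.le_floor
    have := hupp j p hpj
    have := hmono j hj
    linarith
  have hstart : Good h a L δ i (π p) := hgood i p L (Nat.floor_le hcpos)
  have hchain : ∀ j ≤ i, Good h a L δ (i - j) (run h f μ π p j) := by
    intro j
    induction j with
    | zero => intro _; exact hstart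
    | succ j ih =>
      intro hj
      have h1 := ih (by omega)
      have h2 : i - j = (i - (j + 1)) + 1 := by omega
      rw [h2] at h1
      by_cases hz : f j p = 0
      · rw [run_succ_of_eq_zero h0 hz]
        exact h1.of_succ h0
      · exact h1 _ (hlabel j (by omega) (hpW j hz)) _
  have hfin := hchain i le_rfl
  rw [Nat.sub_self] at hfin
  have hfin2 := hfin _ (hlabel i le_rfl hpi)
  have hwt : wt f i p = 1 := Subtype.ext hi1
  have hfin3 : δ < dist (run h f μ π p (i + 1)) a := by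
    rw [run, hwt]; exact hfin2
  obtain ⟨N, hN, hNeq⟩ := exists_lim_eq (f := f) (μ := μ) (π := π) h0 p (i + 1)
  rw [hNeq]
  intro heq
  have h5 := dist_run (π := π) h0 hε hW hlow hcs p hN
  rw [heq, dist_comm] at h5
  have h6 := Real.exp_pos (-(c N p))
  linarith

end lim_ne'

/-- Over the base `P`, maps can be pushed off the point `a`. -/
def PushOff {M : Type*} [MetricSpace M] (a : M) (P : Type*) [TopologicalSpace P] : Prop :=
  ∀ (π : C(P, M)) (c0 : C(P, ℝ)), ∃ F : C(P, M), (∀ p, F p ≠ a) ∧ ∀ p, dist (F p) (π p) < 2 * Real.exp (-(c0 p))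

theorem Unstable.pushOff {M : Type*} [MetricSpace M] {a : M} (ha : Unstable a) {P : Type*} [TopologicalSpace P] [NormalSpace P]
    [ParacompactSpace P] (hP : Adapt P) : PushOff a P := by
  classical
  intro π c0
  choose h hc hprop using fun m : ℕ => ha (Real.exp (-m)) (Real.exp_pos _)
  have h0 : ∀ m x, h m (x, 0) = x := fun m x => (hprop m x 0).1
  have hd : ∀ m x t, dist x (h m (x, t)) < Real.exp (-m) := fun m x t => (hprop m x t).2.1
  have h1 : ∀ m x, h m (x, 1) ≠ a := fun m x => (hprop m x 0).2.2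
  have hnx : ∀ (n : ℕ) (b : C(P, ℝ)), ∃ c' : C(P, ℝ), ∀ p, ∀ L : ℕ, (L : ℝ) ≤ b p → Good h a L (2 * Real.exp (-(c' p))) n (π p) := by
    intro n b
    obtain ⟨c', -, h3⟩ := exists_next (a := a) hc h1 π (b - ContinuousMap.const P 2) n
    refine ⟨c', fun p L hL => h3 p L ?_⟩
    simpa using hL
  choose nx hnx using hnx
  obtain ⟨c, b, W, μ, hc0, hcb, hbc, hnc, hWo, hWcov, hμ⟩ := hP nx c0
  obtain ⟨f, hf⟩ := BumpCovering.exists_isSubordinate (s := univ) isClosed_univ W hWo (by rw [hWcov])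
  refine ⟨⟨lim h f μ π, continuous_lim hc h0 π.continuous hf (fun n p hp => (hμ n p hp).2)⟩, fun p => ?_, fun p => ?_⟩
  · refine lim_ne' h0 hd hf (fun n p hp => (hμ n p hp).1.1) (fun n p hp => (hμ n p hp).1.2) hcb hbc ?_ (mem_univ p)
    intro n p L hL
    refine (hnx n (b n) p L hL).mono le_rfl ?_
    have := hnc n p
    gcongr
  · refine (dist_lim h0 hd hf (fun n p hp => (hμ n p hp).1.1) (fun n p => (hcb n p).trans (hbc n p)) p).trans_le ?_
    have := hc0 p
    gcongr

lemma PushOff.of_homeomorph {M : Type*} [MetricSpace M] {a : M} {P : Type*} {P' : Type*} [TopologicalSpace P] [TopologicalSpace P']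
    (h : PushOff a P) (e : P' ≃ₜ P) : PushOff a P' := by
  intro π c0
  obtain ⟨F, h1, h2⟩ := h (π.comp ⟨e.symm, e.symm.continuous⟩) (c0.comp ⟨e.symm, e.symm.continuous⟩)
  refine ⟨F.comp ⟨e, e.continuous⟩, fun p => h1 _, fun p => ?_⟩
  have := h2 (e p)
  simpa using this

end Pool.Agent.Helper789.HU
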