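import Mathlib
import Pool.Agent.Helper789.HU11

open Set Topology Filter unitInterval

universe u v

namespace Pool.Agent.Helper789.HU

lemma exists_majorant {P Z : Type*} [TopologicalSpace P] [TopologicalSpace Z] [NormalSpace Z] [ParacompactSpace Z]
    {κ : P → Z} (hκ : IsProperMap κ) (g : C(P, ℝ)) : ∃ G : C(Z, ℝ), ∀ p, g p ≤ G (κ p) := by
  let t : Z → Set ℝ := fun z => {C | ∀ p, κ p = z → g p ≤ C}
  have hconv : ∀ z, Convex ℝ (t z) := by
    intro z
    rw [convex_iff_ordConnected, ordConnected_iff]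
    intro x hx y _ _ w hw p hp
    exact (hx p hp).trans hw.1
  have hloc : ∀ z, ∃ C : ℝ, ∀ᶠ y in 𝓝 z, C ∈ t y := by
    intro z
    have hcomp : IsCompact (κ ⁻¹' {z}) := hκ.isCompact_preimage isCompact_singleton
    obtain ⟨C, hC⟩ := (hcomp.image g.continuous).bddAbove
    refine ⟨C + 1, ?_⟩
    have h1 := hκ.isClosedMap.eventually_nhds_fiber (p := fun p => g p < C + 1) z (fun p hp => by
      have h2 : g p ≤ C := hC ⟨p, hp, rfl⟩
      exact g.continuous.continuousAt.eventually_lt_const (by linarith))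
    filter_upwards [h1] with y hy p hp
    exact (hy p hp).le
  obtain ⟨G, hG⟩ := exists_continuous_forall_mem_convex_of_local_const hconv hloc
  exact ⟨G, fun p => hG (κ p) p rfl⟩

lemma Adapt.of_proper {P Z : Type*} [TopologicalSpace P] [TopologicalSpace Z] [NormalSpace Z] [ParacompactSpace Z]
    {κ : P → Z} (hκ : IsProperMap κ) (hZ : Adapt Z) : Adapt P := by
  intro nx c0
  let k : C(P, Z) := ⟨κ, hκ.continuous⟩
  choose NX hNX using fun (n : ℕ) (B : C(Z, ℝ)) => exists_majorant hκ (nx n (B.comp k))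
  obtain ⟨C0, hC0⟩ := exists_majorant hκ c0
  obtain ⟨c, b, W, μ, h1, h2, h3, h4, h5, h6, h7⟩ := hZ NX C0
  refine ⟨fun n => (c n).comp k, fun n => (b n).comp k, fun n => κ ⁻¹' W n, fun n p => μ n (κ p), 
    fun p => (hC0 p).trans (h1 _), fun n p => h2 n _, fun n p => h3 n _, fun n p => (hNX n (b n) p).trans (h4 n _), 
    fun n => (h5 n).preimage hκ.continuous, ?_, ?_⟩
  · rw [← preimage_iUnion, h6, preimage_univ]
  · intro n p hp
    exact ⟨(h7 n _ hp).1, hκ.continuous.continuousAt.eventually (h7 n _ hp).2⟩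

lemma exists_label {X : Type*} [TopologicalSpace X] (V : Set (Set X)) (hVo : ∀ v ∈ V, IsOpen v) (hVd : V.PairwiseDisjoint id)
    (U : ℕ → Set X) (h : ∀ v ∈ V, ∃ m, v ⊆ U m) : ∃ μ : X → ℕ, ∀ p ∈ ⋃₀ V, p ∈ U (μ p) ∧ ∀ᶠ q in 𝓝 p, μ q = μ p := by
  classical
  have hlab : ∀ v : Set X, ∃ m, v ∈ V → v ⊆ U m := by
    intro v
    by_cases hv : v ∈ V
    · obtain ⟨m, hm⟩ := h v hv
      exact ⟨m, fun _ => hm⟩
    · exact ⟨0, fun h => absurd h hv⟩
  choose lab hlab using hlab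
  let μ : X → ℕ := fun p => if hp : ∃ v ∈ V, p ∈ v then lab hp.choose else 0
  have hμ : ∀ v ∈ V, ∀ p ∈ v, μ p = lab v := by
    intro v hv p hp
    have hex : ∃ v ∈ V, p ∈ v := ⟨v, hv, hp⟩
    have h1 : μ p = lab hex.choose := dif_pos hex
    have h2 := hex.choose_spec
    have h3 : hex.choose = v := by
      by_contra hne
      exact Set.disjoint_left.1 (hVd h2.1 hv hne) h2.2 hp
    rw [h1, h3]
  refine ⟨μ, ?_⟩
  rintro p ⟨v, hv, hp⟩
  refine ⟨?_, ?_⟩
  · rw [hμ v hv p hp]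
    exact hlab v hv hp
  · filter_upwards [(hVo v hv).mem_nhds hp] with q hq
    rw [hμ v hv p hp, hμ v hv q hq]

/-- `X` is the union of countably many compact sets and one subspace with property C. -/
def SigmaC (X : Type*) [TopologicalSpace X] : Prop :=
  ∃ (K : ℕ → Set X) (B : Set X), (∀ n, IsCompact (K n)) ∧ PropertyC B ∧ (⋃ n, K n) ∪ B = univ

lemma SigmaC.adapt {P : Type*} [MetricSpace P] (h : SigmaC P) : Adapt P := by
  classical
  obtain ⟨K, B, hK, hB, hcov⟩ := h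
  intro nx c0
  -- constants at the even stages
  have hm : ∀ (n : ℕ) (c : C(P, ℝ)), ∃ m : ℕ, ∀ p ∈ K n, c p < m := by
    intro n c
    obtain ⟨C, hC⟩ := ((hK n).image c.continuous).bddAbove
    obtain ⟨m, hm⟩ := exists_nat_gt C
    exact ⟨m, fun p hp => (hC ⟨p, hp, rfl⟩).trans_lt hm⟩
  choose m hm using hm
  let bb : ℕ → C(P, ℝ) → C(P, ℝ) := fun n c => (c + ContinuousMap.const P 2) ⊔ ContinuousMap.const P ((m (n / 2) c : ℝ) + 1)
  let c : ℕ → C(P, ℝ) := fun n => Nat.rec (c0 ⊔ 0) (fun n c => bb n c ⊔ nx n (bb n c)) n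
  have hc0 : c 0 = c0 ⊔ 0 := rfl
  have hcs : ∀ n, c (n + 1) = bb n (c n) ⊔ nx n (bb n (c n)) := fun n => rfl
  have hbb : ∀ n (c : C(P, ℝ)) p, bb n c p = max (c p + 2) ((m (n / 2) c : ℝ) + 1) := fun n c p => rfl
  have hcb : ∀ n p, c n p + 2 ≤ bb n (c n) p := fun n p => by rw [hbb]; exact le_max_left _ _
  have hbc : ∀ n p, bb n (c n) p ≤ c (n + 1) p := fun n p => by rw [hcs]; exact le_max_left _ _
  have hnc : ∀ n p, nx n (bb n (c n)) p ≤ c (n + 1) p := fun n p => by rw [hcs]; exact le_max_right _ _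
  have hcpos : ∀ n p, 0 ≤ c n p := by
    intro n p
    induction n with
    | zero => rw [hc0]; exact le_max_right _ _
    | succ n ih => linarith [hcb n p, hbc n p]
  -- property C at the odd stages
  let UU : ℕ → ℕ → Set P := fun n m => {q | c n q < m ∧ (m : ℝ) < c n q + 2}
  have hUUo : ∀ n m, IsOpen (UU n m) := fun n m => (isOpen_lt (c n).continuous continuous_const).inter 
      (isOpen_lt continuous_const ((c n).continuous.add continuous_const))
  obtain ⟨V, hV, hVcov⟩ := hB (fun k => range fun m => (Subtype.val ⁻¹' UU (2 * k + 1) m : Set B)) (fun k => ⟨by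
    rintro _ ⟨m, rfl⟩
    exact (hUUo (2 * k + 1) m).preimage continuous_subtype_val, eq_univ_of_forall fun q => by
    have h2 := Nat.lt_floor_add_one (c (2 * k + 1) q)
    have h3 := Nat.floor_le (hcpos (2 * k + 1) q)
    exact ⟨_, ⟨⌊c (2 * k + 1) q⌋₊ + 1, rfl⟩, by push_cast; exact h2, by push_cast; linarith⟩⟩)
  choose V' hV' hVd' hVc' using fun k => exists_extend B (range (UU (2 * k + 1))) (by rintro _ ⟨m, rfl⟩; exact hUUo (2 * k + 1) m) (V k) 
    (fun v hv => ⟨((hV k).1 v hv).1, by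
      obtain ⟨_, ⟨m, rfl⟩, hm⟩ := ((hV k).1 v hv).2
      exact ⟨_, ⟨m, rfl⟩, hm⟩⟩) (hV k).2
  choose ν hν using fun k => exists_label (V' k) (fun v hv => (hV' k v hv).1) (hVd' k) (UU (2 * k + 1)) (fun v hv => by
    obtain ⟨_, ⟨m, rfl⟩, hm⟩ := (hV' k v hv).2
    exact ⟨m, hm⟩)
  let W : ℕ → Set P := fun n => if n % 2 = 0 then {q | c n q < m (n / 2) (c n)} else ⋃₀ V' (n / 2)
  let μ : ℕ → P → ℕ := fun n q => if n % 2 = 0 then m (n / 2) (c n) else ν (n / 2) q
  have hW0 : ∀ k, W (2 * k) = {q | c (2 * k) q < m k (c (2 * k))} := by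
    intro k
    have e1 : 2 * k % 2 = 0 := by omega
    have e2 : 2 * k / 2 = k := by omega
    show (if 2 * k % 2 = 0 then {q | c (2 * k) q < m (2 * k / 2) (c (2 * k))} else _) = _
    rw [if_pos e1, e2]
  have hW1 : ∀ k, W (2 * k + 1) = ⋃₀ V' k := by
    intro k
    have e1 : ¬ (2 * k + 1) % 2 = 0 := by omega
    have e2 : (2 * k + 1) / 2 = k := by omega
    show (if (2 * k + 1) % 2 = 0 then _ else ⋃₀ V' ((2 * k + 1) / 2)) = _
    rw [if_neg e1, e2]
  have hμ0 : ∀ k q, μ (2 * k) q = m k (c (2 * k)) := by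
    intro k q
    have e1 : 2 * k % 2 = 0 := by omega
    have e2 : 2 * k / 2 = k := by omega
    show (if 2 * k % 2 = 0 then m (2 * k / 2) (c (2 * k)) else _) = _
    rw [if_pos e1, e2]
  have hμ1 : ∀ k q, μ (2 * k + 1) q = ν k q := by
    intro k q
    have e1 : ¬ (2 * k + 1) % 2 = 0 := by omega
    have e2 : (2 * k + 1) / 2 = k := by omega
    show (if (2 * k + 1) % 2 = 0 then _ else ν ((2 * k + 1) / 2) q) = _
    rw [if_neg e1, e2]
  refine ⟨c, fun n => bb n (c n), W, μ, fun p => by rw [hc0]; exact le_max_left _ _, hcb, hbc, hnc, ?_, ?_, ?_⟩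
  · intro n
    rcases Nat.even_or_odd' n with ⟨k, rfl | rfl⟩
    · rw [hW0]
      exact isOpen_lt (c _).continuous continuous_const
    · rw [hW1]
      exact isOpen_sUnion fun v hv => (hV' k v hv).1
  · refine eq_univ_of_forall fun p => ?_
    have hp : p ∈ (⋃ n, K n) ∪ B := by rw [hcov]; trivial
    rcases hp with hp | hp
    · obtain ⟨k, hk⟩ := mem_iUnion.1 hp
      refine mem_iUnion.2 ⟨2 * k, ?_⟩
      rw [hW0]
      exact hm k _ p hk
    · have h1 : (⟨p, hp⟩ : B) ∈ ⋃ k, ⋃₀ V k := by rw [hVcov]; trivial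
      obtain ⟨k, v, hv, hpv⟩ := mem_iUnion.1 h1
      refine mem_iUnion.2 ⟨2 * k + 1, ?_⟩
      rw [hW1]
      exact hVc' k v hv _ hpv
  · intro n p hp
    rcases Nat.even_or_odd' n with ⟨k, rfl | rfl⟩
    · rw [hW0] at hp
      have e2 : 2 * k / 2 = k := by omega
      refine ⟨⟨?_, ?_⟩, Eventually.of_forall fun q => ?_⟩
      · rw [hμ0]; exact hp
      · rw [hμ0, hbb, e2]
        exact (lt_add_one _).trans_le (le_max_right _ _)
      · rw [hμ0, hμ0]
    · rw [hW1] at hp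
      obtain ⟨h1, h2⟩ := hν k p hp
      refine ⟨⟨?_, ?_⟩, ?_⟩
      · rw [hμ1]; exact h1.1
      · rw [hμ1]
        exact h1.2.trans_le (hcb (2 * k + 1) p)
      · filter_upwards [h2] with q hq
        rw [hμ1, hμ1, hq]

lemma PropertyC.sigmaC {X : Type*} [TopologicalSpace X] (h : PropertyC X) : SigmaC X :=
  ⟨fun _ => ∅, univ, fun _ => isCompact_empty, h.of_homeomorph (Homeomorph.Set.univ X), by simp⟩

lemma PropertyC.adapt {X : Type*} [MetricSpace X] (h : PropertyC X) : Adapt X := h.sigmaC.adapt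

/-- `Z × (0,1] × (0,1]` -/
abbrev Tw (Z : Type*) := {p : (Z × I) × I // 0 < p.1.2 ∧ 0 < p.2}

lemma SigmaC.tw {Z : Type*} [MetricSpace Z] (h : SigmaC Z) : SigmaC (Tw Z) := by
  classical
  obtain ⟨K, B, hK, hB, hcov⟩ := h
  refine ⟨fun n => {p : Tw Z | p.1.1.1 ∈ K n.unpair.1 ∧ 1 / ((n.unpair.2 : ℝ) + 1) ≤ p.1.1.2 ∧ 1 / ((n.unpair.2 : ℝ) + 1) ≤ p.1.2}, 
    {p | p.1.1.1 ∈ B}, fun n => ?_, ?_, ?_⟩
  · rw [Subtype.isCompact_iff]
    have h1 : IsCompact ((K n.unpair.1 ×ˢ {t : I | 1 / ((n.unpair.2 : ℝ) + 1) ≤ t}) ×ˢ {t : I | 1 / ((n.unpair.2 : ℝ) + 1) ≤ t}) := by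
      refine ((hK _).prod ?_).prod ?_ <;> exact (isClosed_le continuous_const continuous_subtype_val).isCompact
    convert! h1 using 1
    ext p
    constructor
    · rintro ⟨q, ⟨h2, h3, h4⟩, rfl⟩
      exact ⟨⟨h2, h3⟩, h4⟩
    · rintro ⟨⟨h2, h3⟩, h4⟩
      have hpos : (0 : ℝ) < 1 / ((n.unpair.2 : ℝ) + 1) := by positivity
      exact ⟨⟨p, hpos.trans_le h3, hpos.trans_le h4⟩, ⟨h2, h3, h4⟩, rfl⟩
  · let e : {p : Tw Z | p.1.1.1 ∈ B} ≃ₜ Pos (Pos B) :=
      { toFun := fun p => ⟨(⟨(⟨p.1.1.1.1, p.2⟩, p.1.1.1.2), p.1.2.1⟩, p.1.1.2), p.1.2.2⟩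
        invFun := fun p => ⟨⟨((p.1.1.1.1.1, p.1.1.1.2), p.1.2), p.1.1.2, p.2⟩, p.1.1.1.1.2⟩
        left_inv := fun p => rfl
        right_inv := fun p => rfl
        continuous_toFun := by
          refine Continuous.subtype_mk (Continuous.prodMk (Continuous.subtype_mk (Continuous.prodMk 
            (Continuous.subtype_mk ?_ _) ?_) _) ?_) _ <;> fun_prop
        continuous_invFun := by
          refine Continuous.subtype_mk (Continuous.subtype_mk ?_ _) _
          fun_prop }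
    exact hB.pos.pos.of_homeomorph e
  · refine eq_univ_of_forall fun p => ?_
    have h1 : p.1.1.1 ∈ (⋃ n, K n) ∪ B := by rw [hcov]; trivial
    rcases h1 with h1 | h1
    · left
      obtain ⟨k, hk⟩ := mem_iUnion.1 h1
      obtain ⟨j, hj⟩ := exists_nat_one_div_lt (show (0 : ℝ) < min (p.1.1.2 : ℝ) p.1.2 from lt_min p.2.1 p.2.2)
      refine mem_iUnion.2 ⟨Nat.pair k j, ?_⟩
      simp only [Nat.unpair_pair]
      exact ⟨hk, hj.le.trans (min_le_left _ _), hj.le.trans (min_le_right _ _)⟩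
    · right
      exact h1

end Pool.Agent.Helper789.HU
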