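import Mathlib
import Pool.Agent.Helper789.HU12

open Set Topology Filter unitInterval

universe u v

namespace Pool.Agent.Helper789.HU

/-- the punctured base over `N` -/
abbrev Pb {M : Type*} [TopologicalSpace M] (a : M) (N : Set M) := (N \ {a} : Set M) × Ioo (0 : ℝ) 1

lemma adapt_pb {M Z : Type*} [MetricSpace M] [MetricSpace Z] {a : M} {N : Set M} {κ : N → Z} (hκ : IsProperMap κ)
    (hZ : SigmaC Z) : Adapt (Pb a N) := by
  let w : N → I := fun x => ⟨min (dist x.1 a) 1, le_min dist_nonneg zero_le_one, min_le_right _ _⟩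
  have hw : Continuous w := Continuous.subtype_mk (by fun_prop) _
  let e1 : N → N × I := fun x => (x, w x)
  have he1 : IsProperMap e1 := by
    have h1 : Function.LeftInverse (Prod.fst : N × I → N) e1 := fun x => rfl
    exact (h1.isClosedEmbedding continuous_fst (by fun_prop)).isProperMap
  let K1 : N → Z × I := Prod.map κ id ∘ e1
  have hK1 : IsProperMap K1 := (hκ.prodMap isProperMap_id).comp he1
  let e2 : I → I := fun s => min s (σ s)
  have he2 : IsProperMap e2 := Continuous.isProperMap (by fun_prop)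
  let K2 : N × I → (Z × I) × I := Prod.map K1 e2
  have hK2 : IsProperMap K2 := hK1.prodMap he2
  have hK3 := hK2.restrictPreimage {p : (Z × I) × I | 0 < p.1.2 ∧ 0 < p.2}
  have hiff : ∀ x : N, ∀ s : I, (x, s) ∈ K2 ⁻¹' {p : (Z × I) × I | 0 < p.1.2 ∧ 0 < p.2} ↔ x.1 ≠ a ∧ (s : ℝ) ∈ Ioo (0 : ℝ) 1 := by
    intro x s
    have h1 : (x, s) ∈ K2 ⁻¹' {p : (Z × I) × I | 0 < p.1.2 ∧ 0 < p.2} ↔ 0 < w x ∧ 0 < min s (σ s) := Iff.rfl
    rw [h1]
    refine and_congr ?_ ?_
    · have h2 : 0 < w x ↔ 0 < min (dist x.1 a) 1 := Iff.rfl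
      rw [h2, lt_min_iff, dist_pos]
      simp
    · rw [lt_min_iff]
      have h3 : 0 < σ s ↔ (0 : ℝ) < 1 - s := Iff.rfl
      have h4 : 0 < s ↔ (0 : ℝ) < s := Iff.rfl
      rw [h3, h4, mem_Ioo, sub_pos]
  let e : Pb a N ≃ₜ (K2 ⁻¹' {p : (Z × I) × I | 0 < p.1.2 ∧ 0 < p.2}) :=
    { toFun := fun p => ⟨(⟨p.1.1, p.1.2.1⟩, ⟨p.2.1, p.2.2.1.le, p.2.2.2.le⟩), (hiff _ _).2 ⟨p.1.2.2, p.2.2⟩⟩
      invFun := fun p => (⟨p.1.1.1, p.1.1.2, ((hiff _ _).1 p.2).1⟩, ⟨p.1.2.1, ((hiff _ _).1 p.2).2⟩)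
      left_inv := fun p => rfl
      right_inv := fun p => rfl
      continuous_toFun := by
        refine Continuous.subtype_mk (Continuous.prodMk (Continuous.subtype_mk ?_ _) (Continuous.subtype_mk ?_ _)) _ <;> fun_prop
      continuous_invFun := by
        refine Continuous.prodMk (Continuous.subtype_mk ?_ _) (Continuous.subtype_mk ?_ _) <;> fun_prop }
  exact Adapt.of_proper (hK3.comp e.isProperMap) hZ.tw.adapt

/-- the improved form of instability: points different from `a` never meet `a` -/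
def StronglyUnstable {M : Type*} [MetricSpace M] (a : M) : Prop :=
  ∀ ε : ℝ, 0 < ε → ∃ h : M × I → M, Continuous h ∧ ∀ x t, h (x, 0) = x ∧ dist x (h (x, t)) < ε ∧ h (x, 1) ≠ a ∧ (x ≠ a → h (x, t) ≠ a)

theorem Unstable.improve {M : Type*} [MetricSpace M] {a : M} (ha : Unstable a) {N : Set M} (hN : N ∈ 𝓝 a) 
    (hP : PushOff a (Pb a N)) : StronglyUnstable a := by
  classical
  intro ε hε
  obtain ⟨h, hc, hprop⟩ := ha (ε / 2) (by positivity)
  have h0 : ∀ x, h (x, 0) = x := fun x => (hprop x 0).1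
  have hd : ∀ x t, dist x (h (x, t)) < ε / 2 := fun x t => (hprop x t).2.1
  have h1 : ∀ x, h (x, 1) ≠ a := fun x => (hprop x 0).2.2
  obtain ⟨ρ, hρ, hball⟩ := Metric.mem_nhds_iff.1 hN
  -- the control function
  let η : M × ℝ → ℝ := fun q => min (min (dist q.1 a) (ε / 2)) (min q.2 (1 - q.2))
  have hηc : Continuous η := by fun_prop
  have hηpos : ∀ x : M, ∀ s : ℝ, x ≠ a → s ∈ Ioo (0 : ℝ) 1 → 0 < η (x, s) := fun x s hx hs =>
    lt_min (lt_min (dist_pos.2 hx) (by positivity)) (lt_min hs.1 (sub_pos.2 hs.2))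
  let π : C(Pb a N, M) := ⟨fun p => h (p.1.1, ⟨p.2.1, p.2.2.1.le, p.2.2.2.le⟩), hc.comp (Continuous.prodMk (by fun_prop) (Continuous.subtype_mk (by fun_prop) _))⟩
  let c0 : C(Pb a N, ℝ) := ⟨fun p => -Real.log (η (p.1.1, p.2.1) / 2), by
    refine (Continuous.log ?_ ?_).neg
    · fun_prop
    · intro p
      have := hηpos p.1.1 p.2.1 p.1.2.2 p.2.2
      positivity⟩
  obtain ⟨F, hFne, hFd⟩ := hP π c0
  have hFd' : ∀ p : Pb a N, dist (F p) (π p) < η (p.1.1, p.2.1) := by
    intro p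
    have h2 := hFd p
    have h3 := hηpos p.1.1 p.2.1 p.1.2.2 p.2.2
    have h4 : c0 p = -Real.log (η (p.1.1, p.2.1) / 2) := rfl
    rw [h4, neg_neg, Real.exp_log (by positivity)] at h2
    linarith
  -- the glued function
  let φ : M → ℝ := fun x => max 0 (1 - dist x a / (ρ / 2))
  have hφc : Continuous φ := by fun_prop
  have hφ0 : ∀ x, 0 ≤ φ x := fun x => le_max_left _ _
  have hφ1 : ∀ x, φ x ≤ 1 := fun x => max_le zero_le_one (by have : 0 ≤ dist x a / (ρ / 2) := by positivity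
                                                             linarith)
  have hφa : φ a = 1 := by simp [φ]
  have hφρ : ∀ x, 0 < φ x → dist x a < ρ := by
    intro x hx
    by_contra hcon
    push Not at hcon
    have : φ x = 0 := by
      apply max_eq_left
      rw [sub_nonpos, le_div_iff₀ (by positivity)]
      linarith
    linarith
  let τ : M × I → I := fun q => ⟨φ q.1 * q.2, mul_nonneg (hφ0 _) q.2.2.1, mul_le_one₀ (hφ1 _) q.2.2.1 q.2.2.2⟩
  have hτc : Continuous τ := Continuous.subtype_mk (by fun_prop) _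
  let H : M × I → M := fun q => if hq : q.1 ∈ N \ {a} ∧ (τ q : ℝ) ∈ Ioo (0 : ℝ) 1 then F (⟨q.1, hq.1⟩, ⟨τ q, hq.2⟩) else h (q.1, τ q)
  have hHp : ∀ q : M × I, ∀ hq : q.1 ∈ N \ {a} ∧ (τ q : ℝ) ∈ Ioo (0 : ℝ) 1, H q = F (⟨q.1, hq.1⟩, ⟨τ q, hq.2⟩) := fun q hq => dif_pos hq
  have hHn : ∀ q : M × I, ¬ (q.1 ∈ N \ {a} ∧ (τ q : ℝ) ∈ Ioo (0 : ℝ) 1) → H q = h (q.1, τ q) := fun q hq => dif_neg hq
  have hη0 : ∀ q : M × I, 0 ≤ η (q.1, τ q) := fun q =>
    le_min (le_min dist_nonneg (by positivity)) (le_min (τ q).2.1 (sub_nonneg.2 (τ q).2.2))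
  have hHd : ∀ q : M × I, dist (H q) (h (q.1, τ q)) ≤ η (q.1, τ q) := by
    intro q
    by_cases hq : q.1 ∈ N \ {a} ∧ (τ q : ℝ) ∈ Ioo (0 : ℝ) 1
    · rw [hHp q hq]
      exact (hFd' (⟨q.1, hq.1⟩, ⟨τ q, hq.2⟩)).le
    · rw [hHn q hq, dist_self]
      exact hη0 q
  have hηε : ∀ q : M × I, η (q.1, τ q) ≤ ε / 2 := fun q => (min_le_left _ _).trans (min_le_right _ _)
  have hhc : Continuous fun q : M × I => h (q.1, τ q) := hc.comp (continuous_fst.prodMk hτc)
  have hηc' : Continuous fun q : M × I => η (q.1, τ q) := hηc.comp (continuous_fst.prodMk (continuous_subtype_val.comp hτc))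
  refine ⟨H, ?_, fun x t => ⟨?_, ?_, ?_, ?_⟩⟩
  · rw [continuous_iff_continuousAt]
    intro q
    rcases eq_or_lt_of_le (hη0 q) with hz | hz
    · -- the control vanishes
      have e1 : H q = h (q.1, τ q) := by
        have := hHd q
        rw [← hz] at this
        exact dist_le_zero.1 this
      rw [ContinuousAt, e1, Metric.tendsto_nhds]
      intro δ hδ
      have h2 : ContinuousAt (fun q' : M × I => η (q'.1, τ q') + dist (h (q'.1, τ q')) (h (q.1, τ q))) q := by fun_prop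
      have h3 : ∀ᶠ q' in 𝓝 q, η (q'.1, τ q') + dist (h (q'.1, τ q')) (h (q.1, τ q)) < δ := by
        apply h2.eventually_lt_const
        show η (q.1, τ q) + dist (h (q.1, τ q)) (h (q.1, τ q)) < δ
        rw [dist_self, ← hz, add_zero]
        exact hδ
      filter_upwards [h3] with q' hq'
      have h4 := dist_triangle (H q') (h (q'.1, τ q')) (h (q.1, τ q))
      have h5 := hHd q'
      linarith
    · have h2 : 0 < dist q.1 a := hz.trans_le ((min_le_left _ _).trans (min_le_left _ _))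
      have h3 : (0 : ℝ) < τ q := hz.trans_le ((min_le_right _ _).trans (min_le_left _ _))
      have h4 : (τ q : ℝ) < 1 := sub_pos.1 (hz.trans_le ((min_le_right _ _).trans (min_le_right _ _)))
      have h5 : 0 < φ q.1 := by
        by_contra hcon
        have : φ q.1 = 0 := le_antisymm (not_lt.1 hcon) (hφ0 _)
        have h6 : (τ q : ℝ) = φ q.1 * q.2 := rfl
        rw [this, zero_mul] at h6
        linarith
      -- an open set where the first case applies
      let V : Set (M × I) := {q | 0 < dist q.1 a ∧ 0 < φ q.1 ∧ (0 : ℝ) < τ q ∧ (τ q : ℝ) < 1}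
      have hVo : IsOpen V := by
        have o1 : IsOpen {q : M × I | 0 < dist q.1 a} := isOpen_lt continuous_const (by fun_prop)
        have o2 : IsOpen {q : M × I | 0 < φ q.1} := isOpen_lt continuous_const (by fun_prop)
        have o3 : IsOpen {q : M × I | (0 : ℝ) < τ q} := isOpen_lt continuous_const (by fun_prop)
        have o4 : IsOpen {q : M × I | (τ q : ℝ) < 1} := isOpen_lt (by fun_prop) continuous_const
        exact o1.inter (o2.inter (o3.inter o4))
      have hVq : ∀ q ∈ V, q.1 ∈ N \ {a} ∧ (τ q : ℝ) ∈ Ioo (0 : ℝ) 1 := fun q hq =>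
        ⟨⟨hball (hφρ _ hq.2.1), dist_pos.1 hq.1⟩, hq.2.2⟩
      let HV : V → M := fun q => F (⟨q.1.1, (hVq q.1 q.2).1⟩, ⟨τ q.1, (hVq q.1 q.2).2⟩)
      have hHV : Continuous HV := by
        refine F.continuous.comp (Continuous.prodMk (Continuous.subtype_mk ?_ _) (Continuous.subtype_mk ?_ _))
        · fun_prop
        · exact continuous_subtype_val.comp (hτc.comp continuous_subtype_val)
      have hqV : q ∈ V := ⟨h2, h5, h3, h4⟩
      have h6 : ContinuousAt (H ∘ (Subtype.val : V → M × I)) ⟨q, hqV⟩ := by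
        refine hHV.continuousAt.congr (Eventually.of_forall fun p => ?_)
        exact (hHp p.1 (hVq p.1 p.2)).symm
      exact (hVo.isOpenEmbedding_subtypeVal.continuousAt_iff (x := (⟨q, hqV⟩ : V))).1 h6
  · have e1 : τ (x, 0) = 0 := Subtype.ext (mul_zero _)
    rw [hHn, e1, h0]
    rw [e1]
    exact fun hcon => lt_irrefl _ hcon.2.1
  · have h2 := hHd (x, t)
    have h3 := hηε (x, t)
    have h4 := hd x (τ (x, t))
    have h5 := dist_triangle x (h (x, τ (x, t))) (H (x, t))
    rw [dist_comm (h (x, τ (x, t))) (H (x, t))] at h5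
    have e2 : (x, t).1 = x := rfl
    rw [e2] at h2 h3
    linarith
  · by_cases hx : x ∈ N \ {a} ∧ (τ (x, 1) : ℝ) ∈ Ioo (0 : ℝ) 1
    · rw [hHp (x, 1) hx]
      exact hFne _
    · rw [hHn (x, 1) hx]
      have e1 : (τ (x, 1) : ℝ) = φ x := mul_one _
      rcases eq_or_ne x a with rfl | hxa
      · have e2 : τ (x, 1) = 1 := Subtype.ext (by rw [e1, hφa]; rfl)
        rw [e2]
        exact h1 x
      · rcases eq_or_lt_of_le (hφ0 x) with hz | hz
        · have e2 : τ (x, 1) = 0 := Subtype.ext (by rw [e1, ← hz]; rfl)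
          rw [e2, h0]
          exact hxa
        · rcases eq_or_lt_of_le (hφ1 x) with ho | ho
          · have e2 : τ (x, 1) = 1 := Subtype.ext (by rw [e1, ho]; rfl)
            rw [e2]
            exact h1 x
          · exact absurd ⟨⟨hball (hφρ _ hz), hxa⟩, by rw [e1]; exact ⟨hz, ho⟩⟩ hx
  · intro hxa
    by_cases hx : x ∈ N \ {a} ∧ (τ (x, t) : ℝ) ∈ Ioo (0 : ℝ) 1
    · rw [hHp (x, t) hx]
      exact hFne _
    · rw [hHn (x, t) hx]
      rcases eq_or_lt_of_le (τ (x, t)).2.1 with hz | hz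
      · have e2 : τ (x, t) = 0 := Subtype.ext hz.symm
        rw [e2, h0]
        exact hxa
      · rcases eq_or_lt_of_le (τ (x, t)).2.2 with ho | ho
        · have e2 : τ (x, t) = 1 := Subtype.ext ho
          rw [e2]
          exact h1 x
        · have hφx : 0 < φ x := by
            by_contra hcon
            have : φ x = 0 := le_antisymm (not_lt.1 hcon) (hφ0 _)
            have h6 : (τ (x, t) : ℝ) = φ x * t := rfl
            rw [this, zero_mul] at h6
            linarith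
          exact absurd ⟨⟨hball (hφρ _ hφx), hxa⟩, ⟨hz, ho⟩⟩ hx

end Pool.Agent.Helper789.HU
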