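import Mathlib
import Pool.Agent.Helper789.HU13

open Set Topology Filter unitInterval

universe u v

namespace Pool.Agent.Helper789.HU

variable {M : Type*} [MetricSpace M]

lemma CondH.stronglyUnstable {a : M} (h : CondH a) : StronglyUnstable a := by
  obtain ⟨f, hf, h0, hne⟩ := h
  intro ε hε
  -- a continuous positive function bounding the time
  let T : M → Set ℝ := fun x => {τ | 0 < τ ∧ τ ≤ 1 ∧ ∀ t : I, (t : ℝ) ≤ τ → dist x (f (x, t)) < ε}
  have hconv : ∀ x, Convex ℝ (T x) := by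
    intro x
    rw [convex_iff_ordConnected, ordConnected_iff]
    intro u hu v hv _ z hz
    exact ⟨hu.1.trans_le hz.1, hz.2.trans hv.2.1, fun t ht => hv.2.2 t (ht.trans hz.2)⟩
  have hloc : ∀ x, ∃ τ : ℝ, ∀ᶠ y in 𝓝 x, τ ∈ T y := by
    intro x
    have h1 : ∀ᶠ p : M × I in 𝓝 (x, 0), dist p.1 (f p) < ε := by
      have : ContinuousAt (fun p : M × I => dist p.1 (f p)) (x, 0) := by fun_prop
      apply this.eventually_lt_const
      beta_reduce
      rw [h0, dist_self]; exact hε
    rw [nhds_prod_eq] at h1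
    obtain ⟨U, hU, V, hV, hUV⟩ := Filter.mem_prod_iff.1 h1
    obtain ⟨δ, hδ, hball⟩ := Metric.mem_nhds_iff.1 hV
    refine ⟨min 1 (δ / 2), ?_⟩
    filter_upwards [hU] with y hy
    refine ⟨lt_min one_pos (by positivity), min_le_left _ _, fun t ht => ?_⟩
    have h2 : t ∈ V := by
      apply hball
      rw [Metric.mem_ball, Subtype.dist_eq, Real.dist_eq]
      have : |(t : ℝ) - ((0 : I) : ℝ)| = t := by
        simp [abs_of_nonneg (unitInterval.nonneg t)]
      rw [this]
      have := ht.trans (min_le_right _ _)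
      linarith
    exact hUV (mk_mem_prod hy h2)
  obtain ⟨g, hg⟩ := exists_continuous_forall_mem_convex_of_local_const hconv hloc
  let τ : M → I := fun x => ⟨g x, (hg x).1.le, (hg x).2.1⟩
  have hτ : Continuous τ := Continuous.subtype_mk g.continuous _
  refine ⟨fun p => f (p.1, p.2 * τ p.1), by fun_prop, fun x t => ⟨?_, ?_, ?_, ?_⟩⟩
  · simp [h0]
  · apply (hg x).2.2
    have h3 : ((t * τ x : I) : ℝ) = t * g x := rfl
    show ((t * τ x : I) : ℝ) ≤ g x
    rw [h3]
    have := unitInterval.le_one t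
    nlinarith [(hg x).1]
  · apply hne
    simp only [one_mul]
    exact (hg x).1
  · intro hx
    rcases eq_or_lt_of_le (unitInterval.nonneg (t * τ x)) with h4 | h4
    · have h5 : t * τ x = 0 := Subtype.ext h4.symm
      show f (x, t * τ x) ≠ a
      rw [h5, h0]
      exact hx
    · exact hne x _ h4

lemma StronglyUnstable.condH {a : M} (ha : StronglyUnstable a) : CondH a := by
  choose h hc hprop using fun m : ℕ => ha (Real.exp (-m)) (Real.exp_pos _)
  have h0 : ∀ m x, h m (x, 0) = x := fun m x => (hprop m x 0).1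
  have hd : ∀ m x t, dist x (h m (x, t)) < Real.exp (-m) := fun m x t => (hprop m x t).2.1
  have h1 : ∀ m x, h m (x, 1) ≠ a := fun m x => (hprop m x 0).2.2.1
  have h2 : ∀ m x t, x ≠ a → h m (x, t) ≠ a := fun m x t => (hprop m x t).2.2.2
  have htc : Continuous fun p : Pos M => (p.1.2 : ℝ) :=
    continuous_subtype_val.comp (continuous_snd.comp continuous_subtype_val)
  have htpos : ∀ p : Pos M, (0 : ℝ) < p.1.2 := fun p => p.2
  have htinv : Continuous fun p : Pos M => 1 / (p.1.2 : ℝ) := continuous_const.div htc (fun p => (htpos p).ne')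
  let W : ℕ → Set (Pos M) := fun n => {p | (n : ℝ) < 1 / (p.1.2 : ℝ) ∧ 1 / (p.1.2 : ℝ) < n + 2}
  have hWo : ∀ n, IsOpen (W n) := fun n => (isOpen_lt continuous_const htinv).inter (isOpen_lt htinv continuous_const)
  have hWcov : (univ : Set (Pos M)) ⊆ ⋃ n, W n := by
    intro p _
    have h3 : 0 < 1 / (p.1.2 : ℝ) := by have := htpos p; positivity
    have h4 : 0 < ⌈1 / (p.1.2 : ℝ)⌉₊ := Nat.ceil_pos.2 h3
    obtain ⟨n, hn⟩ : ∃ n, ⌈1 / (p.1.2 : ℝ)⌉₊ = n + 1 := ⟨_, (Nat.sub_add_cancel h4).symm⟩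
    refine mem_iUnion.2 ⟨n, ?_, ?_⟩
    · have h5 := Nat.ceil_lt_add_one h3.le
      rw [hn] at h5
      push_cast at h5
      linarith
    · have h5 := Nat.le_ceil (1 / (p.1.2 : ℝ))
      rw [hn] at h5
      push_cast at h5
      linarith
  obtain ⟨f, hf⟩ := BumpCovering.exists_isSubordinate (s := univ) isClosed_univ W hWo hWcov
  let μ : ℕ → Pos M → ℕ := fun n _ => 3 * n + 2
  let c : ℕ → C(Pos M, ℝ) := fun n => ⟨fun p => 1 / (p.1.2 : ℝ) + 2 * n, htinv.add continuous_const⟩
  let π : Pos M → M := fun p => p.1.1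
  have hπ : Continuous π := continuous_fst.comp continuous_subtype_val
  have hlow : ∀ n, ∀ p ∈ W n, c n p < μ n p := by
    intro n p hp
    have h3 := hp.2
    have h4 : c n p = 1 / (p.1.2 : ℝ) + 2 * n := rfl
    have h5 : (μ n p : ℝ) = 3 * n + 2 := by simp [μ]
    rw [h4, h5]
    linarith
  have hcs : ∀ n p, c n p + 2 ≤ c (n + 1) p := by
    intro n p
    have h4 : c n p = 1 / (p.1.2 : ℝ) + 2 * n := rfl
    have h5 : c (n + 1) p = 1 / (p.1.2 : ℝ) + 2 * ((n + 1 : ℕ) : ℝ) := rfl
    rw [h4, h5]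
    push_cast
    linarith
  refine CondH.of_pos (lim h f μ π) (continuous_lim hc h0 hπ hf (fun n p _ => Eventually.of_forall fun q => rfl)) (fun p => ?_) 
    (fun p => ?_)
  · obtain ⟨i, hi⟩ := f.eventuallyEq_one' p (mem_univ p)
    have hi1 : f i p = 1 := hi.self_of_nhds
    have hwt : wt f i p = 1 := Subtype.ext hi1
    have hrun : ∀ k, run h f μ π p (i + 1 + k) ≠ a := by
      intro k
      induction k with
      | zero => rw [add_zero, run, hwt]; exact h1 _ _
      | succ k ih => rw [← add_assoc, run]; exact h2 _ _ _ ih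
    obtain ⟨N, hN, hNeq⟩ := exists_lim_eq (f := f) (μ := μ) (π := π) h0 p (i + 1)
    rw [hNeq]
    obtain ⟨k, rfl⟩ := Nat.exists_eq_add_of_le hN
    exact hrun k
  · have h3 := (dist_lim (π := π) h0 hd hf hlow hcs p).le
    have h4 : c 0 p = 1 / (p.1.2 : ℝ) + 2 * ((0 : ℕ) : ℝ) := rfl
    rw [h4, Nat.cast_zero, mul_zero, add_zero] at h3
    have h5 := htpos p
    have h6 : Real.exp (-(1 / (p.1.2 : ℝ))) ≤ p.1.2 := by
      have h7 : 1 / (p.1.2 : ℝ) ≤ Real.exp (1 / (p.1.2 : ℝ)) := by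
        have := Real.add_one_le_exp (1 / (p.1.2 : ℝ))
        linarith
      rw [Real.exp_neg, inv_le_comm₀ (Real.exp_pos _) h5, ← one_div]
      exact h7
    linarith

theorem condH_iff_stronglyUnstable (a : M) : CondH a ↔ StronglyUnstable a := ⟨CondH.stronglyUnstable, StronglyUnstable.condH⟩

lemma StronglyUnstable.unstable {a : M} (ha : StronglyUnstable a) : Unstable a := by
  intro ε hε
  obtain ⟨h, hc, hp⟩ := ha ε hε
  exact ⟨h, hc, fun x t => ⟨(hp x t).1, (hp x t).2.1, (hp x t).2.2.1⟩⟩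

/-- the case of a neighbourhood with a perfect map to a `SigmaC` space -/
theorem Unstable.condH_of_proper {a : M} (ha : Unstable a) {N : Set M} (hN : N ∈ 𝓝 a) {Z : Type*} [MetricSpace Z]
    {κ : N → Z} (hκ : IsProperMap κ) (hZ : SigmaC Z) : CondH a :=
  (ha.improve hN (ha.pushOff (adapt_pb hκ hZ))).condH

end Pool.Agent.Helper789.HU
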