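import Mathlib
import Pool.Agent.Helper789.HU10
import Pool.Agent.Helper789.HU14

open Set Topology Filter unitInterval BoundedContinuousFunction

universe u v

namespace Pool.Agent.Helper789.HU

section comb'

variable {Y : Type u} [MetricSpace Y]

/-- normalised combination of points of `Y`, as a point of the hull -/
noncomputable def comb1 (w : Q1 (Y × Ioo (0 : ℝ) 1)) : Hull Y :=
  ⟨(Fs.lin (fun _ => (1 : ℝ)) w.1)⁻¹ • Fs.lin (fun i : Y × Ioo (0 : ℝ) 1 => kur i.1) w.1, 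
    center_mem (convex_convexHull ℝ _) _ w fun _ _ => subset_convexHull _ _ (mem_range_self _)⟩

lemma continuous_comb1 : Continuous (comb1 : Q1 (Y × Ioo (0 : ℝ) 1) → Hull Y) := by
  refine Continuous.subtype_mk ?_ _
  have h1 : Continuous fun w : Q1 (Y × Ioo (0 : ℝ) 1) => Fs.lin (fun _ => (1 : ℝ)) w.1 :=
    (Fs.continuous_lin (fun _ => by simp)).comp continuous_subtype_val
  have h2 : Continuous fun w : Q1 (Y × Ioo (0 : ℝ) 1) => Fs.lin (fun i : Y × Ioo (0 : ℝ) 1 => kur i.1) w.1 :=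
    (Fs.continuous_lin (fun _ => norm_kur_le _)).comp continuous_subtype_val
  exact (h1.inv₀ fun w => (lin_one_pos w).ne').smul h2

/-- normalised combination of the time coordinates -/
noncomputable def comb2 (w : Q1 (Y × Ioo (0 : ℝ) 1)) : Ioo (0 : ℝ) 1 :=
  ⟨(Fs.lin (fun _ => (1 : ℝ)) w.1)⁻¹ • Fs.lin (fun i : Y × Ioo (0 : ℝ) 1 => (i.2 : ℝ)) w.1, 
    center_mem (convex_Ioo 0 1) _ w fun i _ => i.2.2⟩

lemma continuous_comb2 : Continuous (comb2 : Q1 (Y × Ioo (0 : ℝ) 1) → Ioo (0 : ℝ) 1) := by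
  refine Continuous.subtype_mk ?_ _
  have h1 : Continuous fun w : Q1 (Y × Ioo (0 : ℝ) 1) => Fs.lin (fun _ => (1 : ℝ)) w.1 :=
    (Fs.continuous_lin (fun _ => by simp)).comp continuous_subtype_val
  have h2 : Continuous fun w : Q1 (Y × Ioo (0 : ℝ) 1) => Fs.lin (fun i : Y × Ioo (0 : ℝ) 1 => (i.2 : ℝ)) w.1 :=
    (Fs.continuous_lin (fun i => by rw [Real.norm_eq_abs, abs_of_pos i.2.2.1]; exact i.2.2.2.le)).comp continuous_subtype_val
  exact (h1.inv₀ fun w => (lin_one_pos w).ne').smul h2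

end comb'

theorem Unstable.pushOff_of_isANR {M : Type v} [MetricSpace M] {a : M} (ha : Unstable a) {Y : Type u} [MetricSpace Y]
    (hY : IsANR Y) : PushOff a (Y × Ioo (0 : ℝ) 1) := by
  classical
  intro π c0
  obtain ⟨O, r, hO, hrange, hr, hre⟩ := hY (Hull Y) emb isClosedEmbedding_emb
  obtain ⟨u, hu, hru, huO⟩ := normal_exists_closure_subset isClosedEmbedding_emb.isClosed_range hO hrange
  have hδ : ∀ p : Y × Ioo (0 : ℝ) 1, ∃ δ > 0, ∀ (z : Hull Y) (τ : Ioo (0 : ℝ) 1) (p' : Y × Ioo (0 : ℝ) 1), 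
      dist z (emb p.1) < 3 * δ → dist (τ : ℝ) p.2 < 3 * δ → dist (emb p'.1) (emb p.1) < 3 * δ → dist (p'.2 : ℝ) p.2 < 3 * δ →
      ∃ hz : z ∈ u, dist (π (r ⟨z, huO (subset_closure hz)⟩, τ)) (π p') < Real.exp (-(c0 p')) ∧ 
        |c0 (r ⟨z, huO (subset_closure hz)⟩, τ) - c0 p'| < 1 := by
    rintro ⟨y, s⟩
    have hyO : emb y ∈ O := hrange (mem_range_self _)
    have he := Real.exp_pos (-(c0 (y, s)))
    set e := Real.exp (-(c0 (y, s))) with hedef
    -- continuity on the hull side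
    have hA1 : ContinuousAt (fun q : O × Ioo (0 : ℝ) 1 => π (r q.1, q.2)) (⟨emb y, hyO⟩, s) := by
      have : Continuous fun q : O × Ioo (0 : ℝ) 1 => π (r q.1, q.2) := by fun_prop
      exact this.continuousAt
    have hA2 : ContinuousAt (fun q : O × Ioo (0 : ℝ) 1 => c0 (r q.1, q.2)) (⟨emb y, hyO⟩, s) := by
      have : Continuous fun q : O × Ioo (0 : ℝ) 1 => c0 (r q.1, q.2) := by fun_prop
      exact this.continuousAt
    obtain ⟨δ1, hδ1, h1⟩ := Metric.continuousAt_iff.1 hA1 (e / 8) (by positivity)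
    obtain ⟨δ2, hδ2, h2⟩ := Metric.continuousAt_iff.1 hA2 (1 / 2) (by norm_num)
    obtain ⟨δ3, hδ3, h3⟩ := Metric.continuousAt_iff.1 (π.continuous.continuousAt (x := (y, s))) (e / 8) (by positivity)
    obtain ⟨δ4, hδ4, h4⟩ := Metric.continuousAt_iff.1 (c0.continuous.continuousAt (x := (y, s))) (1 / 2) (by norm_num)
    obtain ⟨δ5, hδ5, h5⟩ := Metric.isOpen_iff.1 hu (emb y) (hru (mem_range_self _))
    set δ := min (min (min δ1 δ2) (min δ3 δ4)) (min δ5 1) with hδdef
    have hδpos : 0 < δ := by positivity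
    have l1 : δ ≤ δ1 := (min_le_left _ _).trans ((min_le_left _ _).trans (min_le_left _ _))
    have l2 : δ ≤ δ2 := (min_le_left _ _).trans ((min_le_left _ _).trans (min_le_right _ _))
    have l3 : δ ≤ δ3 := (min_le_left _ _).trans ((min_le_right _ _).trans (min_le_left _ _))
    have l4 : δ ≤ δ4 := (min_le_left _ _).trans ((min_le_right _ _).trans (min_le_right _ _))
    have l5 : δ ≤ δ5 := (min_le_right _ _).trans (min_le_left _ _)
    have l6 : δ ≤ 1 := (min_le_right _ _).trans (min_le_right _ _)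
    refine ⟨δ / 3, by positivity, ?_⟩
    rintro z τ ⟨y', s'⟩ hz hτ hy' hs'
    simp only at hz hτ hy' hs'
    have e3 : 3 * (δ / 3) = δ := by ring
    rw [e3] at hz hτ hy' hs'
    have hzu : z ∈ u := h5 (hz.trans_le l5)
    refine ⟨hzu, ?_⟩
    have hd1 : ∀ δ', δ ≤ δ' → dist ((⟨z, huO (subset_closure hzu)⟩, τ) : O × Ioo (0 : ℝ) 1) (⟨emb y, hyO⟩, s) < δ' := by
      intro δ' hδ'
      rw [Prod.dist_eq]
      exact max_lt (hz.trans_le hδ') (hτ.trans_le hδ')
    have hyy : dist y' y < δ := dist_emb_lt (by rw [min_eq_left l6]; exact hy')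
    have hd2 : ∀ δ', δ ≤ δ' → dist ((y', s') : Y × Ioo (0 : ℝ) 1) (y, s) < δ' := by
      intro δ' hδ'
      rw [Prod.dist_eq]
      exact max_lt (hyy.trans_le hδ') (hs'.trans_le hδ')
    have a1 := h1 (hd1 δ1 l1)
    have a2 := h2 (hd1 δ2 l2)
    have a3 := h3 (hd2 δ3 l3)
    have a4 := h4 (hd2 δ4 l4)
    simp only [hre] at a1 a2
    rw [Real.dist_eq] at a2 a4
    rw [abs_lt] at a2 a4
    constructor
    · have b1 : e / 2 ≤ Real.exp (-(c0 (y', s'))) := by
        have b2 : Real.exp (-(1 / 2)) * e ≤ Real.exp (-(c0 (y', s'))) := by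
          rw [hedef, ← Real.exp_add]
          apply Real.exp_le_exp.2
          linarith
        have b3 : 1 / 2 ≤ Real.exp (-(1 / 2)) := by
          have := Real.add_one_le_exp (-(1 / 2) : ℝ)
          linarith
        nlinarith
      have b4 := dist_triangle (π (r ⟨z, huO (subset_closure hzu)⟩, τ)) (π (y, s)) (π (y', s'))
      rw [dist_comm (π (y, s)) (π (y', s'))] at b4
      linarith
    · rw [abs_lt]
      constructor <;> linarith
  choose δ hδpos hball using hδ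
  let B : Y × Ioo (0 : ℝ) 1 → Set (Y × Ioo (0 : ℝ) 1) := fun i => {p | dist (emb p.1) (emb i.1) < δ i ∧ dist (p.2 : ℝ) i.2 < δ i}
  have hxc : Continuous fun p : Y × Ioo (0 : ℝ) 1 => emb p.1 := isClosedEmbedding_emb.continuous.comp continuous_fst
  have hBo : ∀ i, IsOpen (B i) := fun i => (isOpen_lt (hxc.dist continuous_const) continuous_const).inter 
    (isOpen_lt ((continuous_subtype_val.comp continuous_snd).dist continuous_const) continuous_const)
  have hBc : (univ : Set (Y × Ioo (0 : ℝ) 1)) ⊆ ⋃ i, B i := by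
    intro p _
    refine mem_iUnion.2 ⟨p, ?_, ?_⟩
    · rw [dist_self]; exact hδpos p
    · rw [dist_self]; exact hδpos p
  obtain ⟨f, hf⟩ := BumpCovering.exists_isSubordinate isClosed_univ B hBo hBc
  have hmemB : ∀ p i, f i p ≠ 0 → p ∈ B i := fun p i hi => hf i (subset_closure hi)
  -- the key estimate
  have key : ∀ p : Y × Ioo (0 : ℝ) 1, ∃ hz : comb1 (gQ f p) ∈ u, 
      dist (π (r ⟨comb1 (gQ f p), huO (subset_closure hz)⟩, comb2 (gQ f p))) (π p) < Real.exp (-(c0 p)) ∧ 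
        |c0 (r ⟨comb1 (gQ f p), huO (subset_closure hz)⟩, comb2 (gQ f p)) - c0 p| < 1 := by
    intro p
    obtain ⟨j, hj⟩ := f.eventuallyEq_one' p (mem_univ _)
    have hj1 : f j p = 1 := hj.self_of_nhds
    have hne : (supp (gQ f p).1).Nonempty := ⟨j, (mem_supp _ _).2 (by
      show f j p ≠ 0
      rw [hj1]; exact one_ne_zero)⟩
    obtain ⟨i0, hi0, hmax⟩ := Finset.exists_max_image _ δ hne
    have hi0' : p ∈ B i0 := hmemB p i0 ((mem_supp _ _).1 hi0)
    have hp0 := hδpos i0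
    have h1 : (comb1 (gQ f p)).1 ∈ Metric.ball (kur i0.1) (3 * δ i0) := by
      refine center_mem (convex_ball _ _) _ _ fun i hi => ?_
      have hiB := hmemB p i hi
      have hi' := hmax i ((mem_supp _ _).2 hi)
      rw [Metric.mem_ball]
      have e1 : dist (kur p.1) (kur i.1) < δ i := hiB.1
      have e2 : dist (kur p.1) (kur i0.1) < δ i0 := hi0'.1
      have e3 := dist_triangle (kur i.1) (kur p.1) (kur i0.1)
      rw [dist_comm (kur i.1) (kur p.1)] at e3
      linarith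
    have h2 : (comb2 (gQ f p)).1 ∈ Metric.ball (i0.2 : ℝ) (3 * δ i0) := by
      refine center_mem (convex_ball _ _) _ _ fun i hi => ?_
      have hiB := hmemB p i hi
      have hi' := hmax i ((mem_supp _ _).2 hi)
      rw [Metric.mem_ball]
      have e1 : dist (p.2 : ℝ) (i.2 : ℝ) < δ i := hiB.2
      have e2 : dist (p.2 : ℝ) (i0.2 : ℝ) < δ i0 := hi0'.2
      have e3 := dist_triangle (i.2 : ℝ) (p.2 : ℝ) (i0.2 : ℝ)
      rw [dist_comm (i.2 : ℝ) (p.2 : ℝ)] at e3
      linarith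
    exact hball i0 _ _ p h1 h2 (by have := hi0'.1; linarith) (by have := hi0'.2; linarith)
  -- the intermediate space
  have hcl : IsClosed {w : Q1 (Y × Ioo (0 : ℝ) 1) | comb1 w ∈ closure u} := isClosed_closure.preimage continuous_comb1
  have hQC : PropertyC {w : Q1 (Y × Ioo (0 : ℝ) 1) | comb1 w ∈ closure u} := 
    (propertyC_Q1 _).of_isClosedEmbedding hcl.isClosedEmbedding_subtypeVal
  let ρ : C({w : Q1 (Y × Ioo (0 : ℝ) 1) | comb1 w ∈ closure u}, Y × Ioo (0 : ℝ) 1) :=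
    ⟨fun w => (r ⟨comb1 w.1, huO w.2⟩, comb2 w.1), 
      (hr.comp (Continuous.subtype_mk (continuous_comb1.comp continuous_subtype_val) _)).prodMk 
        (continuous_comb2.comp continuous_subtype_val)⟩
  let g : C(Y × Ioo (0 : ℝ) 1, {w : Q1 (Y × Ioo (0 : ℝ) 1) | comb1 w ∈ closure u}) :=
    ⟨fun p => ⟨gQ f p, subset_closure (key p).1⟩, Continuous.subtype_mk (continuous_gQ f) _⟩
  let cQ : C({w : Q1 (Y × Ioo (0 : ℝ) 1) | comb1 w ∈ closure u}, ℝ) := ⟨fun w => c0 (ρ w) + 2, by fun_prop⟩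
  obtain ⟨F, hFne, hFd⟩ := ha.pushOff hQC.adapt (π.comp ρ) cQ
  refine ⟨F.comp g, fun p => hFne _, fun p => ?_⟩
  obtain ⟨hz, k1, k2⟩ := key p
  have h1 := hFd (g p)
  have e1 : cQ (g p) = c0 (r ⟨comb1 (gQ f p), huO (subset_closure hz)⟩, comb2 (gQ f p)) + 2 := rfl
  have e2 : (π.comp ρ) (g p) = π (r ⟨comb1 (gQ f p), huO (subset_closure hz)⟩, comb2 (gQ f p)) := rfl
  rw [e1, e2] at h1
  have h2 := dist_triangle (F (g p)) (π (r ⟨comb1 (gQ f p), huO (subset_closure hz)⟩, comb2 (gQ f p))) (π p)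
  have h3 : 2 * Real.exp (-(c0 (r ⟨comb1 (gQ f p), huO (subset_closure hz)⟩, comb2 (gQ f p)) + 2)) ≤ Real.exp (-(c0 p)) := by
    rw [abs_lt] at k2
    have h4 : Real.exp (-(c0 (r ⟨comb1 (gQ f p), huO (subset_closure hz)⟩, comb2 (gQ f p)) + 2)) ≤ Real.exp (-1) * Real.exp (-(c0 p)) := by
      rw [← Real.exp_add]
      apply Real.exp_le_exp.2
      linarith
    have h7 : Real.exp (-1) ≤ 1 / 2 := by
      have h8 : (2 : ℝ) ≤ Real.exp 1 := by
        have := Real.add_one_le_exp 1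
        linarith
      rw [Real.exp_neg, one_div]
      exact inv_anti₀ (by norm_num) h8
    have := Real.exp_pos (-(c0 p))
    nlinarith
  show dist (F (g p)) (π p) < 2 * Real.exp (-(c0 p))
  linarith

/-- the case of a neighbourhood `N` such that `N \ {a}` is an ANR -/
theorem Unstable.condH_of_punctured_isANR {M : Type u} [MetricSpace M] {a : M} (ha : Unstable a) {N : Set M} (hN : N ∈ 𝓝 a) 
    (hY : IsANR (N \ {a} : Set M)) : CondH a :=
  (ha.improve hN (ha.pushOff_of_isANR hY)).condH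

end Pool.Agent.Helper789.HU
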