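import Mathlib
import Pool.Agent.Helper789.HU15

open Set Topology Filter unitInterval BoundedContinuousFunction

universe u v

namespace Pool.Agent.Helper789.HU

lemma PropertyC.of_isOpen {X : Type*} [MetricSpace X] (hX : PropertyC X) {O : Set X} (hO : IsOpen O) : PropertyC O := by
  rcases (Oᶜ).eq_empty_or_nonempty with he | hne
  · rw [compl_empty_iff] at he
    subst he
    exact hX.of_homeomorph (Homeomorph.Set.univ X)
  refine PropertyC.iUnion (X := O) (fun j : ℕ => {x : O | 1 / ((j : ℝ) + 1) ≤ Metric.infDist x.1 Oᶜ}) ?_ (fun j => ?_)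
  · refine eq_univ_of_forall fun x => ?_
    have h1 : 0 < Metric.infDist x.1 Oᶜ := by
      refine lt_of_le_of_ne Metric.infDist_nonneg (Ne.symm fun h0 => ?_)
      exact (hO.isClosed_compl.mem_iff_infDist_zero hne).2 h0 x.2
    obtain ⟨j, hj⟩ := exists_nat_one_div_lt h1
    exact mem_iUnion.2 ⟨j, hj.le⟩
  · have hcl : IsClosed {x : X | 1 / ((j : ℝ) + 1) ≤ Metric.infDist x Oᶜ} := 
      isClosed_le continuous_const (Metric.continuous_infDist_pt _)
    have hsub : ∀ x : X, 1 / ((j : ℝ) + 1) ≤ Metric.infDist x Oᶜ → x ∈ O := by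
      intro x hx
      by_contra hcon
      have h2 := Metric.infDist_zero_of_mem (s := Oᶜ) hcon
      rw [h2] at hx
      have : (0 : ℝ) < 1 / ((j : ℝ) + 1) := by positivity
      linarith
    let e : {x : O | 1 / ((j : ℝ) + 1) ≤ Metric.infDist x.1 Oᶜ} ≃ₜ {x : X | 1 / ((j : ℝ) + 1) ≤ Metric.infDist x Oᶜ} :=
      { toFun := fun x => ⟨x.1.1, x.2⟩
        invFun := fun x => ⟨⟨x.1, hsub x.1 x.2⟩, x.2⟩
        left_inv := fun x => rfl
        right_inv := fun x => rfl
        continuous_toFun := Continuous.subtype_mk (continuous_subtype_val.comp continuous_subtype_val) _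
        continuous_invFun := Continuous.subtype_mk (Continuous.subtype_mk continuous_subtype_val _) _ }
    exact (hX.of_isClosedEmbedding hcl.isClosedEmbedding_subtypeVal).of_homeomorph e

/-- a perfect map to the union of a σ-compact subspace and a subspace with property C -/
def Tame (X : Type u) [TopologicalSpace X] : Prop :=
  ∃ (Z : Type u) (_ : MetricSpace Z) (κ : X → Z), IsProperMap κ ∧ SigmaC Z

lemma SigmaC.tame {X : Type u} [MetricSpace X] (h : SigmaC X) : Tame X := ⟨X, inferInstance, id, isProperMap_id, h⟩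

lemma Tame.adapt {X : Type u} [TopologicalSpace X] (h : Tame X) : Adapt X := by
  obtain ⟨Z, _, κ, hκ, hZ⟩ := h
  exact Adapt.of_proper hκ hZ.adapt

/-- fine approximation of the identity of `P` by maps which factor through tame spaces -/
def Approximable (P : Type u) [MetricSpace P] : Prop :=
  ∀ ε : C(P, ℝ), (∀ p, 0 < ε p) → ∃ (Q : Type u) (_ : MetricSpace Q), Tame Q ∧ ∃ (g : C(P, Q)) (ρ : C(Q, P)), 
    ∀ p, dist (ρ (g p)) p < ε p

lemma Tame.approximable {P : Type u} [MetricSpace P] (h : Tame P) : Approximable P := fun ε hε =>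
  ⟨P, inferInstance, h, ContinuousMap.id P, ContinuousMap.id P, fun p => by simpa using hε p⟩

theorem Unstable.pushOff_of_approximable {M : Type v} [MetricSpace M] {a : M} (ha : Unstable a) {P : Type u} [MetricSpace P]
    (hP : Approximable P) : PushOff a P := by
  intro π c0
  let t : P → Set ℝ := fun p => {e | 0 < e ∧ ∀ q, dist q p < e → dist (π q) (π p) < Real.exp (-(c0 p)) ∧ |c0 q - c0 p| < 1}
  have hconv : ∀ p, Convex ℝ (t p) := by
    intro p
    rw [convex_iff_ordConnected, ordConnected_iff]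
    intro x hx y hy _ w hw
    exact ⟨hx.1.trans_le hw.1, fun q hq => hy.2 q (hq.trans_le hw.2)⟩
  have hloc : ∀ p, ∃ e : ℝ, ∀ᶠ q in 𝓝 p, e ∈ t q := by
    intro p
    have he := Real.exp_pos (-(c0 p))
    obtain ⟨δ1, hδ1, h1⟩ := Metric.continuousAt_iff.1 (π.continuous.continuousAt (x := p)) (Real.exp (-(c0 p)) / 4) (by positivity)
    obtain ⟨δ2, hδ2, h2⟩ := Metric.continuousAt_iff.1 (c0.continuous.continuousAt (x := p)) (1 / 4) (by norm_num)
    refine ⟨min δ1 δ2 / 2, ?_⟩
    filter_upwards [Metric.ball_mem_nhds p (show 0 < min δ1 δ2 / 2 by positivity)] with q hq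
    rw [Metric.mem_ball] at hq
    have hmin : 0 < min δ1 δ2 := lt_min hδ1 hδ2
    refine ⟨by positivity, fun q' hq' => ?_⟩
    have hqp : dist q p < min δ1 δ2 := by linarith
    have hqp' : dist q' p < min δ1 δ2 := by
      have := dist_triangle q' q p
      linarith
    have a1 := h1 (hqp.trans_le (min_le_left _ _))
    have a2 := h1 (hqp'.trans_le (min_le_left _ _))
    have a3 := h2 (hqp.trans_le (min_le_right _ _))
    have a4 := h2 (hqp'.trans_le (min_le_right _ _))
    rw [Real.dist_eq, abs_lt] at a3 a4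
    constructor
    · have b2 : Real.exp (-(1 / 4)) * Real.exp (-(c0 p)) ≤ Real.exp (-(c0 q)) := by
        rw [← Real.exp_add]
        apply Real.exp_le_exp.2
        linarith
      have b3 : 3 / 4 ≤ Real.exp (-(1 / 4)) := by
        have := Real.add_one_le_exp (-(1 / 4) : ℝ)
        linarith
      have b4 := dist_triangle (π q') (π p) (π q)
      rw [dist_comm (π p) (π q)] at b4
      nlinarith
    · rw [abs_lt]
      constructor <;> linarith
  obtain ⟨ε, hε⟩ := exists_continuous_forall_mem_convex_of_local_const hconv hloc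
  obtain ⟨Q, _, hQ, g, ρ, hρ⟩ := hP ε (fun p => (hε p).1)
  let cQ : C(Q, ℝ) := ⟨fun w => c0 (ρ w) + 2, by fun_prop⟩
  obtain ⟨F, hFne, hFd⟩ := ha.pushOff hQ.adapt (π.comp ρ) cQ
  refine ⟨F.comp g, fun p => hFne _, fun p => ?_⟩
  obtain ⟨k1, k2⟩ := (hε p).2 _ (hρ p)
  have h1 := hFd (g p)
  have e1 : cQ (g p) = c0 (ρ (g p)) + 2 := rfl
  have e2 : (π.comp ρ) (g p) = π (ρ (g p)) := rfl
  rw [e1, e2] at h1
  have h2 := dist_triangle (F (g p)) (π (ρ (g p))) (π p)
  have h3 : 2 * Real.exp (-(c0 (ρ (g p)) + 2)) ≤ Real.exp (-(c0 p)) := by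
    rw [abs_lt] at k2
    have h4 : Real.exp (-(c0 (ρ (g p)) + 2)) ≤ Real.exp (-1) * Real.exp (-(c0 p)) := by
      rw [← Real.exp_add]
      apply Real.exp_le_exp.2
      linarith
    have h7 : Real.exp (-1) ≤ 1 / 2 := by
      have h8 : (2 : ℝ) ≤ Real.exp 1 := by
        have := Real.add_one_le_exp 1
        linarith
      rw [Real.exp_neg, one_div]
      exact inv_anti₀ (by norm_num) h8
    have := Real.exp_pos (-(c0 p))
    nlinarith
  show dist (F (g p)) (π p) < 2 * Real.exp (-(c0 p))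
  linarith

section comb

variable {X : Type u} [MetricSpace X] {Y : Set X}

/-- normalised combination of points of `Y`, as a point of the hull of `X` -/
noncomputable def comb3 (w : Q1 (Y × Ioo (0 : ℝ) 1)) : Hull X :=
  ⟨(Fs.lin (fun _ => (1 : ℝ)) w.1)⁻¹ • Fs.lin (fun i : Y × Ioo (0 : ℝ) 1 => kur i.1.1) w.1, 
    center_mem (convex_convexHull ℝ _) _ w fun _ _ => subset_convexHull _ _ (mem_range_self _)⟩

lemma continuous_comb3 : Continuous (comb3 : Q1 (Y × Ioo (0 : ℝ) 1) → Hull X) := by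
  refine Continuous.subtype_mk ?_ _
  have h1 : Continuous fun w : Q1 (Y × Ioo (0 : ℝ) 1) => Fs.lin (fun _ => (1 : ℝ)) w.1 :=
    (Fs.continuous_lin (fun _ => by simp)).comp continuous_subtype_val
  have h2 : Continuous fun w : Q1 (Y × Ioo (0 : ℝ) 1) => Fs.lin (fun i : Y × Ioo (0 : ℝ) 1 => kur i.1.1) w.1 :=
    (Fs.continuous_lin (fun _ => norm_kur_le _)).comp continuous_subtype_val
  exact (h1.inv₀ fun w => (lin_one_pos w).ne').smul h2

/-- If the open subset `Y` of `X` is a retract of an open set `O` of the hull, then `Y × (0,1)` is approximable. -/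
theorem approximable_of_retract {O : Set (Hull X)} (hO : IsOpen O) (r : O → Y) (hr : Continuous r) 
    (hYO : ∀ y ∈ Y, emb y ∈ O) (hre : ∀ (y : X) (hy : y ∈ Y), r ⟨emb y, hYO y hy⟩ = ⟨y, hy⟩) : 
    Approximable (Y × Ioo (0 : ℝ) 1) := by
  classical
  intro ε hε
  have hδ : ∀ p : Y × Ioo (0 : ℝ) 1, ∃ δ > 0, ∀ (z : Hull X) (τ : Ioo (0 : ℝ) 1) (p' : Y × Ioo (0 : ℝ) 1), 
      dist z (emb p.1.1) < 3 * δ → dist (τ : ℝ) p.2 < 3 * δ → dist (emb p'.1.1) (emb p.1.1) < 3 * δ → dist (p'.2 : ℝ) p.2 < 3 * δ →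
      ∃ hz : z ∈ O, dist (r ⟨z, hz⟩, τ) p' < ε p' := by
    rintro ⟨y, s⟩
    have hyO : emb y.1 ∈ O := hYO _ y.2
    have he := hε (y, s)
    set e := ε (y, s) with hedef
    have hA1 : ContinuousAt r ⟨emb y.1, hyO⟩ := hr.continuousAt
    obtain ⟨δ1, hδ1, h1⟩ := Metric.continuousAt_iff.1 hA1 (e / 8) (by positivity)
    obtain ⟨δ3, hδ3, h3⟩ := Metric.continuousAt_iff.1 (ε.continuous.continuousAt (x := (y, s))) (e / 2) (by positivity)
    obtain ⟨δ5, hδ5, h5⟩ := Metric.isOpen_iff.1 hO (emb y.1) hyO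
    set δ := min (min (min δ1 (e / 8)) δ3) (min δ5 1) with hδdef
    have hδpos : 0 < δ := by positivity
    have l1 : δ ≤ δ1 := (min_le_left _ _).trans ((min_le_left _ _).trans (min_le_left _ _))
    have l2 : δ ≤ e / 8 := (min_le_left _ _).trans ((min_le_left _ _).trans (min_le_right _ _))
    have l3 : δ ≤ δ3 := (min_le_left _ _).trans (min_le_right _ _)
    have l5 : δ ≤ δ5 := (min_le_right _ _).trans (min_le_left _ _)
    have l6 : δ ≤ 1 := (min_le_right _ _).trans (min_le_right _ _)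
    refine ⟨δ / 3, by positivity, ?_⟩
    rintro z τ ⟨y', s'⟩ hz hτ hy' hs'
    simp only at hz hτ hy' hs'
    have e3 : 3 * (δ / 3) = δ := by ring
    rw [e3] at hz hτ hy' hs'
    have hzO : z ∈ O := h5 (hz.trans_le l5)
    refine ⟨hzO, ?_⟩
    have hd1 : dist (⟨z, hzO⟩ : O) ⟨emb y.1, hyO⟩ < δ1 := hz.trans_le l1
    have hyy : dist y' y < δ := dist_emb_lt (x := y.1) (y := y'.1) (by rw [min_eq_left l6]; exact hy')
    have hd2 : dist ((y', s') : Y × Ioo (0 : ℝ) 1) (y, s) < δ3 := by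
      rw [Prod.dist_eq]
      exact max_lt (hyy.trans_le l3) (hs'.trans_le l3)
    have a1 := h1 hd1
    rw [hre y.1 y.2] at a1
    have a3 := h3 hd2
    rw [Real.dist_eq, abs_lt] at a3
    rw [Prod.dist_eq]
    have a1' : dist (r ⟨z, hzO⟩) y < e / 8 := a1
    have hyy' : dist y y' < δ := by rw [dist_comm]; exact hyy
    have b1 := dist_triangle (r ⟨z, hzO⟩) y y'
    have b2 := dist_triangle (τ : ℝ) (s : ℝ) (s' : ℝ)
    have b3 : dist (s : ℝ) (s' : ℝ) < δ := by rw [dist_comm]; exact hs'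
    refine max_lt ?_ ?_
    · show dist (r ⟨z, hzO⟩) y' < ε (y', s')
      linarith
    · show dist (τ : ℝ) (s' : ℝ) < ε (y', s')
      linarith
  choose δ hδpos hball using hδ
  let B : Y × Ioo (0 : ℝ) 1 → Set (Y × Ioo (0 : ℝ) 1) := fun i => {p | dist (emb p.1.1) (emb i.1.1) < δ i ∧ dist (p.2 : ℝ) i.2 < δ i}
  have hxc : Continuous fun p : Y × Ioo (0 : ℝ) 1 => emb p.1.1 := 
    isClosedEmbedding_emb.continuous.comp (continuous_subtype_val.comp continuous_fst)
  have hBo : ∀ i, IsOpen (B i) := fun i => (isOpen_lt (hxc.dist continuous_const) continuous_const).inter 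
    (isOpen_lt ((continuous_subtype_val.comp continuous_snd).dist continuous_const) continuous_const)
  have hBc : (univ : Set (Y × Ioo (0 : ℝ) 1)) ⊆ ⋃ i, B i := by
    intro p _
    refine mem_iUnion.2 ⟨p, ?_, ?_⟩
    · rw [dist_self]; exact hδpos p
    · rw [dist_self]; exact hδpos p
  obtain ⟨f, hf⟩ := BumpCovering.exists_isSubordinate isClosed_univ B hBo hBc
  have hmemB : ∀ p i, f i p ≠ 0 → p ∈ B i := fun p i hi => hf i (subset_closure hi)
  -- the key estimate
  have key : ∀ p : Y × Ioo (0 : ℝ) 1, ∃ hz : comb3 (gQ f p) ∈ O, dist (r ⟨comb3 (gQ f p), hz⟩, comb2 (gQ f p)) p < ε p := by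
    intro p
    obtain ⟨j, hj⟩ := f.eventuallyEq_one' p (mem_univ _)
    have hj1 : f j p = 1 := hj.self_of_nhds
    have hne : (supp (gQ f p).1).Nonempty := ⟨j, (mem_supp _ _).2 (by
      show f j p ≠ 0
      rw [hj1]; exact one_ne_zero)⟩
    obtain ⟨i0, hi0, hmax⟩ := Finset.exists_max_image _ δ hne
    have hi0' : p ∈ B i0 := hmemB p i0 ((mem_supp _ _).1 hi0)
    have hp0 := hδpos i0
    have h1 : (comb3 (gQ f p)).1 ∈ Metric.ball (kur i0.1.1) (3 * δ i0) := by
      refine center_mem (convex_ball _ _) _ _ fun i hi => ?_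
      have hiB := hmemB p i hi
      have hi' := hmax i ((mem_supp _ _).2 hi)
      rw [Metric.mem_ball]
      have e1 : dist (kur p.1.1) (kur i.1.1) < δ i := hiB.1
      have e2 : dist (kur p.1.1) (kur i0.1.1) < δ i0 := hi0'.1
      have e3 := dist_triangle (kur i.1.1) (kur p.1.1) (kur i0.1.1)
      rw [dist_comm (kur i.1.1) (kur p.1.1)] at e3
      linarith
    have h2 : (comb2 (gQ f p)).1 ∈ Metric.ball (i0.2 : ℝ) (3 * δ i0) := by
      refine center_mem (convex_ball _ _) _ _ fun i hi => ?_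
      have hiB := hmemB p i hi
      have hi' := hmax i ((mem_supp _ _).2 hi)
      rw [Metric.mem_ball]
      have e1 : dist (p.2 : ℝ) (i.2 : ℝ) < δ i := hiB.2
      have e2 : dist (p.2 : ℝ) (i0.2 : ℝ) < δ i0 := hi0'.2
      have e3 := dist_triangle (i.2 : ℝ) (p.2 : ℝ) (i0.2 : ℝ)
      rw [dist_comm (i.2 : ℝ) (p.2 : ℝ)] at e3
      linarith
    exact hball i0 _ _ p h1 h2 (by have := hi0'.1; linarith) (by have := hi0'.2; linarith)
  -- the intermediate space
  have hop : IsOpen {w : Q1 (Y × Ioo (0 : ℝ) 1) | comb3 w ∈ O} := hO.preimage continuous_comb3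
  have hQC : PropertyC {w : Q1 (Y × Ioo (0 : ℝ) 1) | comb3 w ∈ O} := (propertyC_Q1 _).of_isOpen hop
  refine ⟨{w : Q1 (Y × Ioo (0 : ℝ) 1) | comb3 w ∈ O}, inferInstance, hQC.sigmaC.tame, 
    ⟨fun p => ⟨gQ f p, (key p).1⟩, Continuous.subtype_mk (continuous_gQ f) _⟩, 
    ⟨fun w => (r ⟨comb3 w.1, w.2⟩, comb2 w.1), (hr.comp (Continuous.subtype_mk (continuous_comb3.comp continuous_subtype_val) _)).prodMk 
        (continuous_comb2.comp continuous_subtype_val)⟩, fun p => (key p).2⟩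

end comb

/-- the punctured space of an ANR -/
lemma IsANR.approximable_open {X : Type u} [MetricSpace X] (hX : IsANR X) {Y : Set X} (hY : IsOpen Y) : 
    Approximable (Y × Ioo (0 : ℝ) 1) := by
  obtain ⟨O, r, hO, hrange, hr, hre⟩ := hX (Hull X) emb isClosedEmbedding_emb
  have hO' : IsOpen (Subtype.val '' (r ⁻¹' Y)) := hO.isOpenMap_subtype_val _ (hY.preimage hr)
  have hmem : ∀ z ∈ Subtype.val '' (r ⁻¹' Y), ∃ hz : z ∈ O, r ⟨z, hz⟩ ∈ Y := by
    rintro _ ⟨z, hz, rfl⟩
    exact ⟨z.2, hz⟩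
  refine approximable_of_retract hO' (fun z => ⟨r ⟨z.1, (hmem z.1 z.2).1⟩, (hmem z.1 z.2).2⟩) ?_ ?_ ?_
  · exact Continuous.subtype_mk (hr.comp (Continuous.subtype_mk continuous_subtype_val _)) _
  · intro y hy
    refine ⟨⟨emb y, hrange (mem_range_self _)⟩, ?_, rfl⟩
    rw [mem_preimage, hre]
    exact hy
  · intro y hy
    exact Subtype.ext (hre _ _)

lemma Approximable.of_isometry {P P' : Type u} [MetricSpace P] [MetricSpace P'] (h : Approximable P) (e : P' ≃ᵢ P) : 
    Approximable P' := by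
  intro ε hε
  obtain ⟨Q, i, hQ, g, ρ, hρ⟩ := h ⟨fun p => ε (e.symm p), by fun_prop⟩ (fun p => hε _)
  refine ⟨Q, i, hQ, g.comp ⟨e, e.continuous⟩, (ContinuousMap.mk e.symm e.symm.continuous).comp ρ, fun p => ?_⟩
  have h1 := hρ (e p)
  have h2 : dist (e.symm (ρ (g (e p)))) p = dist (ρ (g (e p))) (e p) := by
    rw [← e.dist_eq, e.apply_symm_apply]
  show dist (e.symm (ρ (g (e p)))) p < ε p
  rw [h2]
  simpa using h1

end Pool.Agent.Helper789.HU
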