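import Mathlib
import Pool.Agent.Helper789.HU16

open Set Topology Filter unitInterval BoundedContinuousFunction

universe u v

namespace Pool.Agent.Helper789.HU

/-- Instability by homotopies whose final map misses a whole neighbourhood of `a`. -/
def UniformlyUnstable {M : Type*} [MetricSpace M] (a : M) : Prop :=
  ∀ ε : ℝ, 0 < ε → ∃ h : M × I → M, Continuous h ∧ (∀ x t, h (x, 0) = x ∧ dist x (h (x, t)) < ε) ∧ ∃ δ > 0, ∀ x, δ ≤ dist (h (x, 1)) a

lemma good_of_uniform {M : Type*} [MetricSpace M] {h : ℕ → M × I → M} {a : M} {L : ℕ} {δ : ℝ} 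
    (hL : ∀ m ≤ L, ∀ x, δ < dist (h m (x, 1)) a) (n : ℕ) (x : M) : Good h a L δ n x := by
  induction n generalizing x with
  | zero => exact fun m hm => hL m hm x
  | succ n ih => exact fun m _ s => ih _

theorem UniformlyUnstable.pushOff {M : Type*} [MetricSpace M] {a : M} (ha : UniformlyUnstable a) (P : Type*) [TopologicalSpace P] 
    [NormalSpace P] [ParacompactSpace P] : PushOff a P := by
  classical
  intro π c0
  choose h hc hprop δ hδ hδd using fun m : ℕ => ha (Real.exp (-m)) (Real.exp_pos _)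
  have h0 : ∀ m x, h m (x, 0) = x := fun m x => (hprop m x 0).1
  have hd : ∀ m x t, dist x (h m (x, t)) < Real.exp (-m) := fun m x t => (hprop m x t).2
  -- the rule on the real line
  have hrule : ∀ (_ : ℕ) (b : C(ℝ, ℝ)), ∃ c' : C(ℝ, ℝ), ∀ z, ∀ L : ℕ, (L : ℝ) ≤ b z → ∀ m ≤ L, 2 * Real.exp (-(c' z)) < δ m := by
    intro _ b
    let t : ℝ → Set ℝ := fun z => {C | ∀ L : ℕ, (L : ℝ) ≤ b z → ∀ m ≤ L, 2 * Real.exp (-C) < δ m}
    have hup : ∀ z, ∀ C ∈ t z, ∀ C', C ≤ C' → C' ∈ t z := by
      intro z C hC C' hCC L hL m hm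
      refine lt_of_le_of_lt ?_ (hC L hL m hm)
      gcongr
    have hconv : ∀ z, Convex ℝ (t z) := by
      intro z
      rw [convex_iff_ordConnected, ordConnected_iff]
      intro x hx y _ _ w hw
      exact hup z x hx w hw.1
    have hloc : ∀ z, ∃ C : ℝ, ∀ᶠ y in 𝓝 z, C ∈ t y := by
      intro z
      have h1 : ∀ᶠ y in 𝓝 z, b y < b z + 1 := b.continuous.continuousAt.eventually_lt_const (by linarith)
      obtain ⟨N, hN⟩ := exists_nat_ge (b z + 1)
      have hfin : ∀ N : ℕ, ∃ C : ℝ, ∀ m ≤ N, 2 * Real.exp (-C) < δ m := by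
        intro N
        have h2 : ∀ m, ∃ C : ℝ, 2 * Real.exp (-C) < δ m := by
          intro m
          refine ⟨-Real.log (δ m / 4), ?_⟩
          have := hδ m
          rw [neg_neg, Real.exp_log (by positivity)]
          linarith
        choose C hC using h2
        obtain ⟨D, hD⟩ := ((Finset.range (N + 1)).image C).bddAbove
        refine ⟨D, fun m hm => lt_of_le_of_lt ?_ (hC m)⟩
        have h3 : C m ≤ D := hD (by simpa using ⟨m, by omega, rfl⟩)
        gcongr
      obtain ⟨C, hC⟩ := hfin N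
      refine ⟨C, ?_⟩
      filter_upwards [h1] with y hy L hL m hm
      apply hC
      have h4 : (L : ℝ) ≤ N := by linarith
      have h5 : L ≤ N := by exact_mod_cast h4
      omega
    obtain ⟨g, hg⟩ := exists_continuous_forall_mem_convex_of_local_const hconv hloc
    exact ⟨g, hg⟩
  choose nx hnx using hrule
  have hσ : SigmaC ℝ := ⟨fun n => Metric.closedBall 0 n, ∅, fun n => isCompact_closedBall _ _, propertyC_of_subsingleton _, by
    rw [union_empty, Metric.iUnion_closedBall_nat]⟩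
  obtain ⟨c, b, W, μ, hc0, hcb, hbc, hnc, hWo, hWcov, hμ⟩ := hσ.adapt nx (ContinuousMap.id ℝ)
  have hWcov' : (⋃ n, c0 ⁻¹' W n) = univ := by rw [← preimage_iUnion, hWcov, preimage_univ]
  obtain ⟨f, hf⟩ := BumpCovering.exists_isSubordinate (s := univ) isClosed_univ (fun n => c0 ⁻¹' W n) 
    (fun n => (hWo n).preimage c0.continuous) (by rw [hWcov'])
  let μ' : ℕ → P → ℕ := fun n p => μ n (c0 p)
  let c' : ℕ → C(P, ℝ) := fun n => (c n).comp c0
  let b' : ℕ → C(P, ℝ) := fun n => (b n).comp c0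
  have hμ' : ∀ n, ∀ p ∈ c0 ⁻¹' W n, ∀ᶠ q in 𝓝 p, μ' n q = μ' n p := fun n p hp => 
    c0.continuous.continuousAt.eventually (hμ n _ hp).2
  refine ⟨⟨lim h f μ' π, continuous_lim hc h0 π.continuous hf hμ'⟩, fun p => ?_, fun p => ?_⟩
  · refine lim_ne' (c := c') (b := b') h0 hd hf (fun n p hp => (hμ n _ hp).1.1) (fun n p hp => (hμ n _ hp).1.2) 
      (fun n p => hcb n _) (fun n p => hbc n _) ?_ (mem_univ p)
    intro n p L hL
    refine good_of_uniform ?_ n _
    intro m hm x
    have h1 := hnx n (b n) (c0 p) L hL m hm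
    have h2 := hnc n (c0 p)
    have h3 := hδd m x
    have h4 : 2 * Real.exp (-(c (n + 1) (c0 p))) ≤ 2 * Real.exp (-(nx n (b n) (c0 p))) := by gcongr
    have h5 : c' (n + 1) p = c (n + 1) (c0 p) := rfl
    rw [h5]
    linarith
  · refine (dist_lim (c := c') h0 hd hf (fun n p hp => (hμ n _ hp).1.1) (fun n p => (hcb n _).trans (hbc n _)) p).trans_le ?_
    have h1 := hc0 (c0 p)
    have h2 : c' 0 p = c 0 (c0 p) := rfl
    have h3 : (ContinuousMap.id ℝ) (c0 p) = c0 p := rfl
    rw [h3] at h1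
    rw [h2]
    gcongr

lemma UniformlyUnstable.unstable {M : Type*} [MetricSpace M] {a : M} (ha : UniformlyUnstable a) : Unstable a := by
  intro ε hε
  obtain ⟨h, hc, hp, δ, hδ, hd⟩ := ha ε hε
  refine ⟨h, hc, fun x t => ⟨(hp x t).1, (hp x t).2, fun heq => ?_⟩⟩
  have := hd x
  rw [heq, dist_self] at this
  linarith

theorem UniformlyUnstable.condH {M : Type*} [MetricSpace M] {a : M} (ha : UniformlyUnstable a) : CondH a :=
  (ha.unstable.improve univ_mem (ha.pushOff _)).condH

/-- the criterion on the punctured neighbourhood -/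
theorem Unstable.condH_of_approximable {M : Type u} [MetricSpace M] {a : M} (ha : Unstable a) {N : Set M} (hN : N ∈ 𝓝 a)
    (h : Approximable ((N \ {a} : Set M) × Ioo (0 : ℝ) 1)) : CondH a :=
  (ha.improve hN (ha.pushOff_of_approximable h)).condH

theorem Unstable.condH_of_tame {M : Type u} [MetricSpace M] {a : M} (ha : Unstable a) {N : Set M} (hN : N ∈ 𝓝 a)
    (h : Tame N) : CondH a := by
  obtain ⟨Z, _, κ, hκ, hZ⟩ := h
  exact ha.condH_of_proper hN hκ hZ

theorem Unstable.condH_of_anr {M : Type u} [MetricSpace M] {a : M} (ha : Unstable a) {N : Set M} (hN : N ∈ 𝓝 a)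
    (h : IsANR N) : CondH a := by
  have hY : IsOpen {x : N | x.1 ≠ a} := isOpen_ne.preimage continuous_subtype_val
  let e : (N \ {a} : Set M) × Ioo (0 : ℝ) 1 ≃ₜ {x : N | x.1 ≠ a} × Ioo (0 : ℝ) 1 :=
    { toFun := fun p => (⟨⟨p.1.1, p.1.2.1⟩, p.1.2.2⟩, p.2)
      invFun := fun p => (⟨p.1.1.1, p.1.1.2, p.1.2⟩, p.2)
      left_inv := fun p => rfl
      right_inv := fun p => rfl
      continuous_toFun := (Continuous.subtype_mk (Continuous.subtype_mk (by fun_prop) _) _).prodMk continuous_snd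
      continuous_invFun := (Continuous.subtype_mk (by fun_prop) _).prodMk continuous_snd }
  exact (ha.improve hN ((ha.pushOff_of_approximable (h.approximable_open hY)).of_homeomorph e)).condH

theorem Unstable.condH_of_punctured_anr {M : Type u} [MetricSpace M] {a : M} (ha : Unstable a) {N : Set M} (hN : N ∈ 𝓝 a)
    (h : IsANR (N \ {a} : Set M)) : CondH a := by
  let e : (N \ {a} : Set M) × Ioo (0 : ℝ) 1 ≃ₜ ↥(univ : Set ↥(N \ {a} : Set M)) × Ioo (0 : ℝ) 1 :=
    Homeomorph.prodCongr (Homeomorph.Set.univ ↥(N \ {a} : Set M)).symm (Homeomorph.refl _)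
  exact (ha.improve hN ((ha.pushOff_of_approximable (h.approximable_open isOpen_univ)).of_homeomorph e)).condH

lemma SigmaC.of_isSigmaCompact {X : Type*} [TopologicalSpace X] [SigmaCompactSpace X] : SigmaC X :=
  ⟨compactCovering X, ∅, isCompact_compactCovering X, propertyC_of_subsingleton _, by rw [union_empty, iUnion_compactCovering]⟩

end Pool.Agent.Helper789.HU
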