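import Mathlib
import Pool.Agent.Helper789.HU17

open Set Topology Filter unitInterval BoundedContinuousFunction

universe u v

namespace Pool.Agent.Helper789.HU

lemma Tame.prod_Ioo {Y : Type u} [MetricSpace Y] (h : Tame Y) : Tame (Y × Ioo (0 : ℝ) 1) := by
  obtain ⟨Z, _, κ, hκ, hZ⟩ := h
  let e1 : Z → Z × I := fun z => (z, 1)
  have he1 : IsProperMap e1 := by
    have h1 : Function.LeftInverse (Prod.fst : Z × I → Z) e1 := fun x => rfl
    exact (h1.isClosedEmbedding continuous_fst (by fun_prop)).isProperMap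
  let K1 : Y → Z × I := e1 ∘ κ
  have hK1 : IsProperMap K1 := he1.comp hκ
  let e2 : I → I := fun s => min s (σ s)
  have he2 : IsProperMap e2 := Continuous.isProperMap (by fun_prop)
  let K2 : Y × I → (Z × I) × I := Prod.map K1 e2
  have hK2 : IsProperMap K2 := hK1.prodMap he2
  have hK3 := hK2.restrictPreimage {p : (Z × I) × I | 0 < p.1.2 ∧ 0 < p.2}
  have hiff : ∀ x : Y, ∀ s : I, (x, s) ∈ K2 ⁻¹' {p : (Z × I) × I | 0 < p.1.2 ∧ 0 < p.2} ↔ (s : ℝ) ∈ Ioo (0 : ℝ) 1 := by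
    intro x s
    have h1 : (x, s) ∈ K2 ⁻¹' {p : (Z × I) × I | 0 < p.1.2 ∧ 0 < p.2} ↔ (0 : I) < 1 ∧ 0 < min s (σ s) := Iff.rfl
    rw [h1, lt_min_iff]
    have h3 : 0 < σ s ↔ (0 : ℝ) < 1 - s := Iff.rfl
    have h4 : 0 < s ↔ (0 : ℝ) < s := Iff.rfl
    rw [h3, h4, mem_Ioo, sub_pos]
    exact ⟨fun h => h.2, fun h => ⟨zero_lt_one, h⟩⟩
  let e : Y × Ioo (0 : ℝ) 1 ≃ₜ (K2 ⁻¹' {p : (Z × I) × I | 0 < p.1.2 ∧ 0 < p.2}) :=
    { toFun := fun p => ⟨(p.1, ⟨p.2.1, p.2.2.1.le, p.2.2.2.le⟩), (hiff _ _).2 p.2.2⟩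
      invFun := fun p => (p.1.1, ⟨p.1.2.1, (hiff _ _).1 p.2⟩)
      left_inv := fun p => rfl
      right_inv := fun p => rfl
      continuous_toFun := by
        refine Continuous.subtype_mk (Continuous.prodMk ?_ (Continuous.subtype_mk ?_ _)) _ <;> fun_prop
      continuous_invFun := by
        refine Continuous.prodMk ?_ (Continuous.subtype_mk ?_ _) <;> fun_prop }
  exact ⟨Tw Z, inferInstance, _, hK3.comp e.isProperMap, hZ.tw⟩

/-- the case of a tame punctured neighbourhood -/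
theorem Unstable.condH_of_punctured_tame {M : Type u} [MetricSpace M] {a : M} (ha : Unstable a) {N : Set M} (hN : N ∈ 𝓝 a)
    (h : Tame (N \ {a} : Set M)) : CondH a :=
  ha.condH_of_approximable hN h.prod_Ioo.approximable

/-- locally compact metric spaces are tame -/
theorem tame_of_locallyCompact (Y : Type u) [MetricSpace Y] [LocallyCompactSpace Y] : Tame Y := by
  have hB : ∀ i : Y, ∃ O : Set Y, IsOpen O ∧ i ∈ O ∧ ∃ K, IsCompact K ∧ O ⊆ K := by
    intro i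
    obtain ⟨K, hK, hi⟩ := exists_compact_mem_nhds i
    exact ⟨interior K, isOpen_interior, mem_interior_iff_mem_nhds.2 hi, K, hK, interior_subset⟩
  choose O hO hiO K hK hOK using hB
  obtain ⟨f, hf⟩ := BumpCovering.exists_isSubordinate (s := univ) isClosed_univ O hO (fun p _ => mem_iUnion.2 ⟨p, hiO p⟩)
  refine ⟨Q1 Y, inferInstance, gQ f, ?_, (propertyC_Q1 Y).sigmaC⟩
  rw [isProperMap_iff_ultrafilter_of_t2]
  refine ⟨continuous_gQ f, fun 𝒰 w hw => ?_⟩
  obtain ⟨i, hi⟩ : ∃ i, w.1 i ≠ 0 := by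
    by_contra hcon
    push Not at hcon
    exact w.2.2 (DFunLike.ext _ _ fun j => hcon j)
  have h1 : ∀ᶠ v : Q1 Y in 𝓝 w, v.1 i ≠ 0 := by
    have hc : Continuous fun v : Q1 Y => v.1 i := (Fs.continuous_apply' i).comp continuous_subtype_val
    exact hc.continuousAt.eventually_ne hi
  have h2 : ∀ᶠ y in (𝒰 : Filter Y), f i y ≠ 0 := hw.eventually h1
  have h3 : K i ∈ 𝒰 := by
    filter_upwards [h2] with y hy
    exact hOK i (hf i (subset_closure hy))
  obtain ⟨x, -, hx⟩ := (hK i).ultrafilter_le_nhds' 𝒰 h3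
  exact ⟨x, hx⟩

end Pool.Agent.Helper789.HU
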